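import Pool.Agent.MP_51ecca_nt.Recip

set_option linter.unusedSectionVars false

namespace Pool.Agent.MP_51ecca_nt

open MonoidAlgebra

section

variable {R B G : Type*} [CommRing R] [CommRing B] [Algebra R B] [FaithfulSMul R B]
  [Group G] [Fintype G] [MulSemiringAction G B] [SMulCommClass G R B] [Algebra.IsInvariant R B G]

include R in
lemma exists_trace_eq_one (hin : ∀ P : Ideal B, P.IsMaximal → P.inertia G = ⊥) :
    ∃ θ : B, ∑ g : G, g • θ = 1 := by
  have := Algebra.IsInvariant.isIntegral R B G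
  let J : Ideal R :=
    { carrier := {r | ∃ b : B, algebraMap R B r = ∑ g : G, g • b}
      add_mem' := by
        rintro r s ⟨b, hb⟩ ⟨c, hc⟩
        exact ⟨b + c, by simp [hb, hc, Finset.sum_add_distrib]⟩
      zero_mem' := ⟨0, by simp⟩
      smul_mem' := by
        rintro r s ⟨b, hb⟩
        refine ⟨r • b, ?_⟩
        simp_rw [smul_comm _ r b]
        rw [← Finset.smul_sum, ← hb, smul_eq_mul, map_mul, Algebra.smul_def] }
  by_contra hne
  have hJ : J ≠ ⊤ := by
    intro h
    obtain ⟨b, hb⟩ : (1 : R) ∈ J := h ▸ Submodule.mem_top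
    exact hne ⟨b, by rw [← hb, map_one]⟩
  obtain ⟨m, hm, hJm⟩ := Ideal.exists_le_maximal J hJ
  obtain ⟨P, hP, hPm⟩ := Ideal.exists_maximal_ideal_liesOver_of_isIntegral (S := B) m
  let χ : G → (B →* B ⧸ P) := fun g =>
    ((Ideal.Quotient.mk P).comp (MulSemiringAction.toRingHom G B g)).toMonoidHom
  have hχ : Function.Injective χ := by
    intro g h hgh
    have : g * h⁻¹ ∈ P.inertia G := fun x => by
      have := DFunLike.congr_fun hgh (h⁻¹ • x)
      change Ideal.Quotient.mk P (g • h⁻¹ • x) = Ideal.Quotient.mk P (h • h⁻¹ • x) at this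
      rw [smul_inv_smul, Ideal.Quotient.eq] at this
      rwa [mul_smul]
    rw [hin P hP, Subgroup.mem_bot] at this
    exact mul_inv_eq_one.1 this
  have hli := (linearIndependent_monoidHom B (B ⧸ P)).comp χ hχ
  rw [Fintype.linearIndependent_iff] at hli
  refine one_ne_zero (hli (fun _ => 1) ?_ 1)
  ext b
  obtain ⟨r, hr⟩ := Algebra.IsInvariant.isInvariant (A := R) (G := G) (∑ g : G, g • b) fun h => by
    rw [Finset.smul_sum]
    simp_rw [← mul_smul]
    exact Equiv.sum_comp (Equiv.mulLeft h) fun g => g • b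
  have h1 : algebraMap R B r ∈ P := (Ideal.mem_of_liesOver P m r).1 (hJm ⟨b, hr⟩)
  rw [hr, ← Ideal.Quotient.eq_zero_iff_mem, map_sum] at h1
  simpa [χ] using h1

end

section

variable (k : Type*) {R B G : Type*} [Field k] [Fintype k] [CommRing R] [CommRing B]
  [Algebra R B] [FaithfulSMul R B] [Algebra k R] [Algebra k B] [IsScalarTower k R B]
  [CommGroup G] [Fintype G] [MulSemiringAction G B] [SMulCommClass G R B]
  [Algebra.IsInvariant R B G]

lemma exists_eta [Nontrivial B] {p n : ℕ} [Fact p.Prime] [CharP k p] (hexp : ∀ g : G, g ^ p ^ n = 1)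
    (hin : ∀ P : Ideal B, P.IsMaximal → P.inertia G = ⊥) :
    ∃ (η : MonoidAlgebra B G) (ω ω' : MonoidAlgebra R G), IsUnit η ∧ ω * ω' = 1 ∧
      (∀ σ : G, mapRingHom G (MulSemiringAction.toRingHom G B σ) η = of B G σ * η) ∧
      mapRingHom G (FiniteField.frobeniusAlgHom k B).toRingHom η =
        mapRingHom G (algebraMap R B) ω * η := by
  obtain ⟨θ, hθ⟩ := exists_trace_eq_one (R := R) hin
  have : CharP B p := charP_of_injective_algebraMap (algebraMap k B).injective p
  have : CharP (MonoidAlgebra B G) p :=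
    charP_of_injective_algebraMap (algebraMap k (MonoidAlgebra B G)).injective p
  let η : MonoidAlgebra B G := ∑ g : G, single g⁻¹ (g • θ)
  obtain ⟨N, hN⟩ : ∃ N, p ^ n = N + 1 :=
    ⟨p ^ n - 1, (Nat.sub_add_cancel (Nat.one_le_pow _ _ (Fact.out : p.Prime).pos)).symm⟩
  have hη : η ^ (N + 1) = 1 := by
    rw [← hN, sum_pow_char_pow]
    simp_rw [single_pow, hexp, ← singleAddHom_apply]
    rw [← map_sum, ← sum_pow_char_pow, hθ, one_pow]
    rfl
  have hact : ∀ σ : G, mapRingHom G (MulSemiringAction.toRingHom G B σ) η = of B G σ * η := by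
    intro σ
    rw [map_sum, Finset.mul_sum, ← Equiv.sum_comp (Equiv.mulLeft σ⁻¹)]
    refine Finset.sum_congr rfl fun g _ => ?_
    simp [single_mul_single, ← mul_smul, mul_comm]
  let φ := mapRingHom G (FiniteField.frobeniusAlgHom k B).toRingHom
  have hφ : ∀ σ : G, φ (of B G σ) = of B G σ := fun σ => by simp [φ]
  have hcomm : ∀ (σ : G) x, mapRingHom G (MulSemiringAction.toRingHom G B σ) (φ x) =
      φ (mapRingHom G (MulSemiringAction.toRingHom G B σ) x) := by
    intro σ x
    ext g
    simp [φ, coeff_mapRingHom]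
  have hinv : ∀ σ : G, mapRingHom G (MulSemiringAction.toRingHom G B σ) (φ η * η ^ N) =
      φ η * η ^ N := by
    intro σ
    have h1 : of B G σ ^ (N + 1) = 1 := by rw [← map_pow, ← hN, hexp, map_one]
    rw [map_mul, map_pow, hcomm, hact, map_mul, hφ, mul_pow]
    linear_combination (φ η * η ^ N) * h1
  have hcoeff : ∀ g, ∃ r : R, algebraMap R B r = (φ η * η ^ N).coeff g := fun g =>
    Algebra.IsInvariant.isInvariant (G := G) _ fun σ => by
      have := congrArg (fun x => x.coeff g) (hinv σ)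
      simp only [coeff_mapRingHom] at this
      exact this
  choose r hr using hcoeff
  let ω : MonoidAlgebra R G := .ofCoeff (Finsupp.equivFunOnFinite.symm r)
  have hω : mapRingHom G (algebraMap R B) ω = φ η * η ^ N := by
    ext g
    rw [coeff_mapRingHom, ← hr]
    rfl
  refine ⟨η, ω, ω ^ N, IsUnit.of_pow_eq_one hη (Nat.succ_ne_zero N), ?_, hact, ?_⟩
  · apply map_injective (algebraMap R B).toAddMonoidHom (FaithfulSMul.algebraMap_injective R B)
    change mapRingHom G (algebraMap R B) _ = mapRingHom G (algebraMap R B) _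
    rw [← pow_succ', map_pow, hω, map_one, mul_pow, ← map_pow, hη, map_one, one_mul, ← pow_mul,
      mul_comm N, pow_mul, hη, one_pow]
  · rw [hω, mul_assoc, ← pow_succ, hη, mul_one]

lemma DD_prime [Ring.HasFiniteQuotients R] {η : MonoidAlgebra B G} {ω : MonoidAlgebra R G}
    (hη : IsUnit η)
    (hact : ∀ σ : G, mapRingHom G (MulSemiringAction.toRingHom G B σ) η = of B G σ * η)
    (hφ : mapRingHom G (FiniteField.frobeniusAlgHom k B).toRingHom η =
        mapRingHom G (algebraMap R B) ω * η)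
    (P : Ideal B) [P.IsMaximal] (hP : P.under R ≠ ⊥) {σ : G} (hσ : IsArithFrobAt R σ P) :
    DD k ω (P.under R) = of k G σ := by
  have := Algebra.IsInvariant.isIntegral R B G
  have : (P.under R).IsMaximal := Ideal.IsMaximal.under R P
  let : Field (R ⧸ P.under R) := Ideal.Quotient.field _
  let : Field (B ⧸ P) := Ideal.Quotient.field _
  have := finiteDimensional_quot k hP
  have := Ring.HasFiniteQuotients.finiteQuotient hP
  let ι : (R ⧸ P.under R) →ₐ[k] (B ⧸ P) :=
    Ideal.quotientMapₐ P (IsScalarTower.toAlgHom k R B) le_rfl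
  have hι : ∀ x, ι (Ideal.Quotient.mk _ x) = Ideal.Quotient.mk _ (algebraMap R B x) :=
    fun x => rfl
  let s : Fin (Module.finrank k (R ⧸ P.under R)) → ((R ⧸ P.under R) →ₐ[k] (B ⧸ P)) := fun j =>
    ι.comp (FiniteField.frobeniusAlgHom k _ ^ j.1)
  have hs : Function.Injective s := by
    intro i j hij
    apply (FiniteField.bijective_frobeniusAlgHom_pow k (R ⧸ P.under R)).1
    ext1 x
    exact ι.injective (DFunLike.congr_fun hij x)
  have h1 := gdet_norm s hs (by simp) (mapRingHom G (Ideal.Quotient.mk (P.under R)) ω)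
  have h2 : mapRingHom G (Algebra.lmul k (R ⧸ P.under R)).toRingHom
      (mapRingHom G (Ideal.Quotient.mk (P.under R)) ω) = mapRingHom G (actQ k (P.under R)) ω := by
    ext1
    ext1 g
    rw [coeff_mapRingHom, coeff_mapRingHom, coeff_mapRingHom]
    rfl
  rw [h2] at h1
  let fr : ℕ → (MonoidAlgebra (B ⧸ P) G →+* MonoidAlgebra (B ⧸ P) G) := fun j =>
    mapRingHom G (FiniteField.frobeniusAlgHom k (B ⧸ P) ^ j).toRingHom
  have hfr : ∀ j x g, (fr j x).coeff g = x.coeff g ^ Fintype.card k ^ j := fun j x g => by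
    simp only [fr, coeff_mapRingHom]
    change (FiniteField.frobeniusAlgHom k (B ⧸ P) ^ j) _ = _
    rw [AlgHom.coe_pow, FiniteField.coe_frobeniusAlgHom, pow_iterate]
  let red := mapRingHom G (Ideal.Quotient.mk P)
  let w := red (mapRingHom G (algebraMap R B) ω)
  have h3 : ∀ j : Fin (Module.finrank k (R ⧸ P.under R)), mapRingHom G (s j).toRingHom
      (mapRingHom G (Ideal.Quotient.mk (P.under R)) ω) = fr j w := by
    intro j
    ext g
    rw [hfr, coeff_mapRingHom, coeff_mapRingHom, coeff_mapRingHom, coeff_mapRingHom]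
    change ι ((FiniteField.frobeniusAlgHom k _ ^ j.1) _) = _
    rw [AlgHom.coe_pow, FiniteField.coe_frobeniusAlgHom, pow_iterate, map_pow, hι]
  have h4 : fr 1 (red η) = w * red η := by
    rw [← map_mul, ← hφ]
    ext g
    rw [hfr, coeff_mapRingHom, coeff_mapRingHom, coeff_mapRingHom, pow_one, ← map_pow]
    rfl
  have h5 : ∀ m, fr m (red η) = (∏ j ∈ Finset.range m, fr j w) * red η := by
    intro m
    induction m with
    | zero =>
      ext g
      rw [hfr]
      simp
    | succ m ih =>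
      have : fr (m + 1) (red η) = fr m (fr 1 (red η)) := by
        ext g
        rw [hfr, hfr, hfr, ← pow_mul, pow_one, ← pow_succ']
      rw [this, h4, map_mul, ih, Finset.prod_range_succ]
      ring
  have h6 : fr (Module.finrank k (R ⧸ P.under R)) (red η) = of _ G σ * red η := by
    have : of (B ⧸ P) G σ = red (of B G σ) := by simp [red]
    rw [this, ← map_mul, ← hact]
    ext g
    rw [hfr, coeff_mapRingHom, coeff_mapRingHom, coeff_mapRingHom, ← Nat.card_eq_fintype_card,
      ← Module.natCard_eq_pow_finrank]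
    exact (hσ.mk_apply _).symm
  rw [h5, (hη.map red).mul_left_inj, Finset.prod_range] at h6
  rw [Finset.prod_congr rfl fun j _ => h3 j, h6] at h1
  apply map_injective (algebraMap k (B ⧸ P)).toAddMonoidHom (algebraMap k (B ⧸ P)).injective
  change mapRingHom G (algebraMap k (B ⧸ P)) _ = mapRingHom G (algebraMap k (B ⧸ P)) _
  rw [DD, h1]
  simp

theorem exists_artin {K : Type*} [IsDedekindDomain R] [Infinite R] [Ring.HasFiniteQuotients R]
    [IsDomain B] [Ring.HasFiniteQuotients B] [Field K] [Algebra k K] [Algebra R K]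
    [IsScalarTower k R K] [IsFractionRing R K] (F : Filt k R K)
    {p n : ℕ} [Fact p.Prime] [CharP k p] (hexp : ∀ g : G, g ^ p ^ n = 1)
    (hin : ∀ P : Ideal B, P.IsMaximal → P.inertia G = ⊥) :
    ∃ a : Ideal R → G, IsMult a ∧
      (∀ P : Ideal B, P.IsPrime → P ≠ ⊥ → IsArithFrobAt R (a (P.under R)) P) ∧
      ∃ M : ℤ, (F.κ : ℤ) < M ∧ ∀ I J : Ideal R, I ≠ ⊥ → F.Rel M I J → a I = a J := by
  classical
  have := Algebra.IsInvariant.isIntegral R B G
  obtain ⟨η, ω, ω', hη, hω, hact, hφ⟩ := exists_eta k (R := R) hexp hin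
  have hm := isMult_DD k ω
  have hprime : ∀ P : Ideal B, P.IsPrime → P ≠ ⊥ → ∃ σ : G, IsArithFrobAt R σ P ∧
      DD k ω (P.under R) = of k G σ := by
    intro P hP hP0
    have := Ring.HasFiniteQuotients.maximalOfPrime hP0
    have := Ring.HasFiniteQuotients.finiteQuotient hP0
    obtain ⟨σ, hσ⟩ := IsArithFrobAt.exists_of_isInvariant R G P
    exact ⟨σ, hσ, DD_prime k hη hact hφ P (Ideal.under_ne_bot R hP0) hσ⟩
  have hex : ∀ I : Ideal R, I ≠ ⊥ → ∃ g, DD k ω I = of k G g := by
    intro I hI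
    induction I using UniqueFactorizationMonoid.induction_on_prime with
    | h₁ => exact absurd rfl hI
    | h₂ I hu => exact ⟨1, by rw [Ideal.isUnit_iff.1 hu, hm.top, map_one]⟩
    | h₃ I Q hI' hQ ih =>
      obtain ⟨g, hg⟩ := ih hI'
      have : Q.IsMaximal := (Ideal.isPrime_of_prime hQ).isMaximal hQ.ne_zero
      obtain ⟨P, hP, hPQ⟩ := Ideal.exists_maximal_ideal_liesOver_of_isIntegral (S := B) Q
      obtain ⟨σ, -, hσ⟩ := hprime P hP.isPrime (Ideal.ne_bot_of_liesOver_of_ne_bot hQ.ne_zero P)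
      rw [← hPQ.over] at hσ
      exact ⟨σ * g, by rw [hm.mul _ _ hQ.ne_zero hI', hσ, hg, map_mul]⟩
  let a : Ideal R → G := fun I => if h : I ≠ ⊥ then (hex I h).choose else 1
  have ha : ∀ I, I ≠ ⊥ → DD k ω I = of k G (a I) := fun I hI => by
    simp only [a, dif_pos hI]
    exact (hex I hI).choose_spec
  have ham : IsMult a := by
    refine ⟨of_injective (R := k) ?_, fun I J hI hJ => of_injective (R := k) ?_⟩
    · rw [← ha _ top_ne_bot, hm.top, map_one]
    · rw [map_mul, ← ha _ hI, ← ha _ hJ, ← ha _ (mul_ne_zero hI hJ), hm.mul _ _ hI hJ]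
  refine ⟨a, ham, fun P hP hP0 => ?_, F.exists_rel_eq hω ham ha⟩
  obtain ⟨σ, hσ, h⟩ := hprime P hP hP0
  rw [ha _ (Ideal.under_ne_bot R hP0)] at h
  rwa [of_injective h]

end

end Pool.Agent.MP_51ecca_nt
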