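import Pool.Agent.MP_51ecca_nt.LogDer

set_option linter.unusedSectionVars false

namespace Pool.Agent.MP_51ecca_nt

open Polynomial

lemma le_card_of_sum_eq {Ω : Type*} [Field Ω] [CharZero Ω] (s : Multiset Ω)
    (hs : ∀ z ∈ s, IsOfFinOrder z) {m : ℕ} (h : s.sum = m) : m ≤ s.card := by
  let A := algebraicClosure ℚ Ω
  have : Algebra.IsAlgebraic ℚ A := algebraicClosure.isAlgebraic ℚ Ω
  let φ : A →ₐ[ℚ] ℂ := IsAlgClosed.lift
  have hmem : ∀ z ∈ s, z ∈ A := fun z hz => by
    obtain ⟨n, hn, h1⟩ := (hs z hz).exists_pow_eq_one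
    rw [mem_algebraicClosure_iff']
    exact IsIntegral.of_pow hn (h1 ▸ isIntegral_one)
  let t : Multiset A := s.attach.map fun z => ⟨z.1, hmem z.1 z.2⟩
  have ht : t.map (algebraMap A Ω) = s := by
    rw [Multiset.map_map]
    exact Multiset.attach_map_val s
  have h1 : t.sum = m := by
    apply (algebraMap A Ω).injective
    rw [map_multiset_sum, ht, h, map_natCast]
  have h2 : (t.map φ).sum = m := by rw [← map_multiset_sum, h1, map_natCast]
  have h3 := norm_multiset_sum_le (t.map φ)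
  rw [h2, Complex.norm_natCast, Multiset.map_map,
    Multiset.map_congr rfl (g := fun _ => (1 : ℝ)), Multiset.map_const', Multiset.sum_replicate,
    nsmul_eq_mul, mul_one, Nat.cast_le] at h3
  · rwa [← ht, Multiset.card_map]
  · intro z hz
    have hz' : IsOfFinOrder (algebraMap A Ω z) := hs _ (ht ▸ Multiset.mem_map_of_mem _ hz)
    have : IsOfFinOrder z :=
      (Function.Injective.isOfFinOrder_iff (f := (algebraMap A Ω).toMonoidHom)
        (algebraMap A Ω).injective).1 hz'
    exact (φ.toRingHom.toMonoidHom.isOfFinOrder this).norm_eq_one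

lemma isOfFinOrder_inv₀ {Ω : Type*} [Field Ω] {z : Ω} (h : IsOfFinOrder z) : IsOfFinOrder z⁻¹ := by
  obtain ⟨n, hn, h1⟩ := h.exists_pow_eq_one
  exact isOfFinOrder_iff_pow_eq_one.2 ⟨n, hn, by rw [inv_pow, h1, inv_one]⟩

lemma isOfFinOrder_neg' {Ω : Type*} [Field Ω] {z : Ω} (h : IsOfFinOrder z) : IsOfFinOrder (-z) := by
  rw [← neg_one_mul]
  exact (isOfFinOrder_iff_pow_eq_one.2 ⟨2, two_pos, neg_one_sq⟩).mul h

lemma isOfFinOrder_addChar {Ω : Type*} [Field Ω] {N : ℕ} [NeZero N] (ψ : AddChar (ZMod N) Ω)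
    (x : ZMod N) : IsOfFinOrder (ψ x) :=
  isOfFinOrder_iff_pow_eq_one.2 ⟨N, NeZero.pos N, by
    rw [← AddChar.map_nsmul_eq_pow, nsmul_eq_mul, ZMod.natCast_self, zero_mul,
      AddChar.map_zero_eq_one]⟩

theorem core {Ω : Type*} [Field Ω] [IsAlgClosed Ω] [CharZero Ω] {N : ℕ} [NeZero N]
    {ψ : AddChar (ZMod N) Ω} (hψ : ψ.IsPrimitive) {ι : Type*} {deg : ι → ℕ}
    (hfin : ∀ d, {i | deg i ≤ d}.Finite) (α : ι → ZMod N) (L : ZMod N → Polynomial Ω)
    (hL0 : ∀ j, j ≠ 0 → (L j).coeff 0 = 1)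
    (hL : ∀ j, j ≠ 0 → LD (L j : PowerSeries Ω) (psum deg fun v => ψ (j * α v)))
    {P E Q : Polynomial Ω} (hPE : P * E ≠ 0) (hid : P * E = Q * ∏ j ∈ Finset.univ.erase 0, L j)
    (hE : ∀ z ∈ E.roots, IsOfFinOrder z) {ρ : ℕ} (hEd : E.natDegree ≤ ρ * N)
    (τ : Ω →+* Ω) (hτ : ∀ z ∈ P.roots, τ z = z) {u : ZMod N} (hu : ∀ x, τ (ψ x) = ψ (u * x))
    (x : ι) (hx : 2 * ρ < deg x) :
    ∃ v, deg v ≤ deg x ∧ u * ((deg x / deg v : ℕ) * α v) = α x := by
  classical
  by_contra! hne
  set r := deg x with hr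
  have hr0 : r ≠ 0 := by omega
  let T := (hfin r).toFinset
  have hT : ∀ i, deg i ≤ r ↔ i ∈ T := fun i => by simp [T]
  let w : ι → ℕ := fun v => if deg v ∣ r then deg v else 0
  let β : ι → ZMod N := fun v => (r / deg v : ℕ) * α v
  let S : ZMod N → Ω := fun j => PowerSeries.coeff r (psum deg fun v => ψ (j * α v))
  have hS : ∀ j, S j = ∑ v ∈ T, (w v : Ω) * ψ (j * β v) := fun j => by
    simp only [S]
    rw [coeff_psum _ _ T fun i => (hT i).1]
    refine Finset.sum_congr rfl fun v _ => ?_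
    rw [coeff_geom]
    by_cases h : deg v ∣ r
    · rw [if_pos ⟨hr0, h⟩, ← AddChar.map_nsmul_eq_pow, nsmul_eq_mul]
      simp only [w, β, if_pos h]
      rw [mul_left_comm]
    · rw [if_neg fun h' => h h'.2]
      simp [w, h]
  let bad : ZMod N → Multiset Ω := fun j => (L j).roots.filter fun z => z ∉ P.roots
  have h1 : ∀ j, j ≠ 0 → S j - τ (S j) = ((bad j).map fun z => (τ z)⁻¹ ^ r - z⁻¹ ^ r).sum := by
    intro j hj
    have e : S j = -((L j).roots.map fun z => z⁻¹ ^ r).sum :=
      LD.coeff_eq_roots (hL0 j hj) (hL j hj) hr0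
    rw [e, map_neg, map_multiset_sum, Multiset.map_map, neg_sub_neg, ← Multiset.sum_map_sub,
      ← Multiset.filter_add_not (fun z => z ∉ P.roots) (L j).roots, Multiset.map_add,
      Multiset.sum_add, Multiset.sum_eq_zero (s := Multiset.map _ (Multiset.filter
        (fun z => ¬ z ∉ P.roots) _)), add_zero]
    · simp [bad]
    · intro y hy
      obtain ⟨z, hz, rfl⟩ := Multiset.mem_map.1 hy
      rw [Multiset.mem_filter, not_not] at hz
      simp [hτ z hz.2]
  have h2 : ∑ j ∈ Finset.univ.erase 0, bad j ≤ E.roots := by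
    have hQ : Q * ∏ j ∈ Finset.univ.erase 0, L j ≠ 0 := hid ▸ hPE
    have e := congrArg (fun f => f.roots.filter fun z => z ∉ P.roots) hid
    simp only [roots_mul hPE, roots_mul hQ, roots_prod _ _ (right_ne_zero_of_mul hQ),
      Multiset.filter_add] at e
    rw [Multiset.filter_eq_nil.2 fun a ha => not_not.2 ha, zero_add] at e
    refine le_trans ?_ (Multiset.filter_le (fun z => z ∉ P.roots) _)
    rw [e]
    refine le_trans (le_of_eq ?_) (Multiset.le_add_left _ _)
    rw [Multiset.filter_bind]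
    rfl
  have hbad : ∀ j ∈ Finset.univ.erase 0, ∀ z ∈ bad j, IsOfFinOrder z := fun j hj z hz =>
    hE z (Multiset.mem_of_le ((Finset.single_le_sum (f := bad) (fun _ _ => Multiset.zero_le _)
      hj).trans h2) hz)
  let s : Multiset Ω := ∑ j ∈ Finset.univ.erase 0,
    (((bad j).map fun z => ψ (j * -α x) * (τ z)⁻¹ ^ r) +
      (bad j).map fun z => -(ψ (j * -α x) * z⁻¹ ^ r))
  have hs : ∀ z ∈ s, IsOfFinOrder z := by
    intro y hy
    obtain ⟨j, hj, hy⟩ := Multiset.mem_sum.1 hy
    rcases Multiset.mem_add.1 hy with hy | hy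
    · obtain ⟨z, hz, rfl⟩ := Multiset.mem_map.1 hy
      exact (isOfFinOrder_addChar ψ _).mul
        (isOfFinOrder_inv₀ (τ.toMonoidHom.isOfFinOrder (hbad j hj z hz))).pow
    · obtain ⟨z, hz, rfl⟩ := Multiset.mem_map.1 hy
      exact isOfFinOrder_neg' ((isOfFinOrder_addChar ψ _).mul
        (isOfFinOrder_inv₀ (hbad j hj z hz)).pow)
  have hcard : s.card ≤ 2 * ρ * N := by
    have e := Multiset.card_le_card h2
    rw [Multiset.card_sum] at e
    have e' := (card_roots' E).trans hEd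
    simp only [s, Multiset.card_sum, Multiset.card_add, Multiset.card_map, Finset.sum_add_distrib]
    rw [mul_assoc]
    omega
  have hsum : s.sum = (N * ∑ v ∈ T.filter (fun v => β v = α x), w v : ℕ) := by
    have e1 : s.sum = ∑ j, ψ (j * -α x) * (S j - τ (S j)) := by
      rw [← Finset.sum_erase Finset.univ (a := 0), ← Multiset.coe_sumAddMonoidHom, map_sum]
      · refine Finset.sum_congr rfl fun j hj => ?_
        rw [h1 j (Finset.ne_of_mem_erase hj), Multiset.coe_sumAddMonoidHom, Multiset.sum_add,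
          ← Multiset.sum_map_add, ← Multiset.sum_map_mul_left]
        congr 1
        refine Multiset.map_congr rfl fun z _ => ?_
        ring
      · simp [hS]
    have e2 : ∀ j, ψ (j * -α x) * (S j - τ (S j)) =
        ∑ v ∈ T, (w v : Ω) * (ψ (j * (β v - α x)) - ψ (j * (u * β v - α x))) := by
      intro j
      rw [hS, map_sum, ← Finset.sum_sub_distrib, Finset.mul_sum]
      refine Finset.sum_congr rfl fun v _ => ?_
      rw [map_mul τ, map_natCast, hu, show j * (β v - α x) = j * -α x + j * β v by ring,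
        show j * (u * β v - α x) = j * -α x + u * (j * β v) by ring, AddChar.map_add_eq_mul,
        AddChar.map_add_eq_mul]
      ring
    rw [e1, Finset.sum_congr rfl fun j _ => e2 j, Finset.sum_comm, Finset.sum_filter]
    push_cast
    rw [Finset.mul_sum]
    refine Finset.sum_congr rfl fun v hv => ?_
    rw [← Finset.mul_sum, Finset.sum_sub_distrib, AddChar.sum_mulShift _ hψ,
      AddChar.sum_mulShift _ hψ, if_neg (c := u * β v - α x = 0)
        fun h => hne v ((hT v).2 hv) (sub_eq_zero.1 h), ZMod.card]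
    simp only [sub_eq_zero]
    split_ifs <;> simp [mul_comm]
  have h3 := (le_card_of_sum_eq s hs hsum).trans hcard
  have h4 : r ≤ ∑ v ∈ T.filter (fun v => β v = α x), w v := by
    refine le_trans (le_of_eq ?_) (Finset.single_le_sum (f := w) (fun _ _ => Nat.zero_le _)
      (a := x) ?_)
    · simp [w, hr]
    · rw [Finset.mem_filter, ← hT]
      refine ⟨le_rfl, ?_⟩
      simp [β, ← hr, Nat.div_self (Nat.pos_of_ne_zero hr0)]
  rw [mul_comm N] at h3
  have := Nat.le_of_mul_le_mul_right h3 (NeZero.pos N)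
  omega

end Pool.Agent.MP_51ecca_nt
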