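import Pool.Agent.MP_51ecca_nt.Split
import Pool.Agent.MP_51ecca_nt.Artin
import Pool.Agent.MP_51ecca_nt.Core

set_option linter.unusedSectionVars false

namespace Pool.Agent.MP_51ecca_nt

open IsDedekindDomain PowerSeries

lemma exists_eq_mul_of_not_isUnit {p n : ℕ} [Fact p.Prime] {b : ZMod (p ^ n)} (hb : ¬ IsUnit b) :
    ∃ c, b = p * c := by
  have : NeZero (p ^ n) := ⟨pow_ne_zero _ (Fact.out : p.Prime).ne_zero⟩
  rw [← ZMod.natCast_zmod_val b, ZMod.isUnit_iff_coprime] at hb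
  have h1 : p ∣ b.val := by
    by_contra h
    exact hb (((Nat.Prime.coprime_iff_not_dvd Fact.out).2 h).symm.pow_right n)
  obtain ⟨c, hc⟩ := h1
  exact ⟨c, by rw [← ZMod.natCast_zmod_val b, hc, Nat.cast_mul]⟩

variable (k : Type*) {R B G : Type*} [Field k] [Finite k] [CommRing R] [CommRing B]
  [IsDedekindDomain R] [IsDedekindDomain B] [Infinite R] [Infinite B]
  [Ring.HasFiniteQuotients R] [Ring.HasFiniteQuotients B]
  [Algebra R B] [Algebra.IsIntegral R B] [Algebra k R] [Algebra k B] [IsScalarTower k R B]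
  [FaithfulSMul R B] [CommGroup G] [Finite G] [MulSemiringAction G B] [IsGaloisGroup G R B]

lemma isMult_char {Ω : Type*} [Field Ω] {N : ℕ} (ψ : AddChar (ZMod N) Ω)
    (e : G ≃* Multiplicative (ZMod N)) {a : Ideal R → G} (ha : IsMult a) (j : ZMod N) :
    IsMult fun I => ψ (j * (e (a I)).toAdd) :=
  ha.comp ((ψ.mulShift j).toMonoidHom.comp e.toMonoidHom)

theorem lser_eq_prod {Ω : Type*} [Field Ω] [CharZero Ω] {N : ℕ} [NeZero N]
    {ψ : AddChar (ZMod N) Ω} (hψ : ψ.IsPrimitive) (e : G ≃* Multiplicative (ZMod N))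
    (hin : ∀ w : HeightOneSpectrum B, w.asIdeal.inertia G = ⊥) {a : Ideal R → G} (ha : IsMult a)
    (hfrob : ∀ w : HeightOneSpectrum B, IsArithFrobAt R (a (w.under R).asIdeal) w.asIdeal) :
    lser k (fun _ : Ideal B => (1 : Ω)) =
      ∏ j : ZMod N, lser k fun I : Ideal R => ψ (j * (e (a I)).toAdd) := by
  classical
  refine LD.unique_left (constantCoeff_psum _ _) (ld_lser k IsMult.one) ?_ ?_
  · convert LD.prod Finset.univ _ _ fun j _ => ld_lser k (isMult_char ψ e ha j) using 1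
    ext r
    let T := (finite_pdeg_le k (R := R) r).toFinset
    have hT : ∀ v, pdeg k v ≤ r → v ∈ T := fun v hv => by simp [T, hv]
    rw [coeff_psum_eq_sum_fiber k T hT, map_sum,
      Finset.sum_congr rfl fun j _ => coeff_psum _ _ T hT, Finset.sum_comm]
    refine Finset.sum_congr rfl fun v _ => ?_
    rw [sum_fiber_geom k v (σ := a v.asIdeal) (fun w _ => hin w) fun w hw => hw ▸ hfrob w]
    simp only [coeff_geom]
    by_cases h : r ≠ 0 ∧ pdeg k v ∣ r
    · simp only [if_pos h]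
      rw [← Finset.mul_sum]
      simp_rw [← AddChar.map_nsmul_eq_pow, ← mul_smul_comm]
      rw [AddChar.sum_mulShift _ hψ, ← toAdd_pow, ← map_pow, ZMod.card, Nat.card_congr e.toEquiv,
        Nat.card_eq_fintype_card, Fintype.card_multiplicative, ZMod.card]
      simp only [toAdd_eq_zero, map_eq_one_iff _ e.injective]
      split_ifs <;> simp [mul_comm]
    · simp [h]
  · rw [map_prod, constantCoeff_lser k IsMult.one, Finset.prod_eq_one]
    exact fun j _ => constantCoeff_lser k (isMult_char ψ e ha j)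

theorem ncard_le {K K₁ B₁ G₁ : Type*} [Field K] [Algebra k K] [Algebra R K]
    [IsScalarTower k R K] [IsFractionRing R K] [CommRing B₁] [IsDedekindDomain B₁] [Infinite B₁]
    [Ring.HasFiniteQuotients B₁] [Algebra R B₁] [Algebra.IsIntegral R B₁] [Algebra k B₁]
    [IsScalarTower k R B₁] [FaithfulSMul R B₁] [Group G₁] [Finite G₁] [MulSemiringAction G₁ B₁]
    [IsGaloisGroup G₁ R B₁] [Field K₁] [Algebra k K₁] [Algebra B₁ K₁]
    [IsScalarTower k B₁ K₁] [IsFractionRing B₁ K₁] [Algebra B₁ B] [IsScalarTower R B₁ B]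
    [FaithfulSMul B₁ B] (F : Filt k R K) (F₁ : Filt k B₁ K₁) {p n : ℕ} [Fact p.Prime] [CharP k p]
    (hin₁ : ∀ w : HeightOneSpectrum B₁, w.asIdeal.inertia G₁ = ⊥)
    (hin : ∀ w : HeightOneSpectrum B, w.asIdeal.inertia G = ⊥)
    (hG₁ : 1 < Nat.card G₁) (hexp₁ : ∀ g : G₁, g ^ p = 1) (e : G ≃* Multiplicative (ZMod (p ^ n)))
    (hS₁ : ∃ y : HeightOneSpectrum B₁, ¬ p ∣ pdeg k y)
    (x₁ : HeightOneSpectrum B₁) (hx₁ : ¬ IsArithFrobAt R (1 : G₁) x₁.asIdeal) {ρ : ℕ}
    (hρ : 2 * ρ < pdeg k (x₁.under R)) {P E Q : Polynomial ℚ}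
    (hP : ((P * E : Polynomial ℚ) : ℚ⟦X⟧) =
      (1 - X) * (1 - (Nat.card k : ℚ⟦X⟧) * X) * lser k fun _ : Ideal B => (1 : ℚ))
    (hQ : (Q : ℚ⟦X⟧) = (1 - (Nat.card k : ℚ⟦X⟧) * X) * lser k fun _ : Ideal R => (1 : ℚ))
    {Ω : Type*} [Field Ω] [IsAlgClosed Ω] [CharZero Ω]
    (hE : ∀ z ∈ (E.map (algebraMap ℚ Ω)).roots, IsOfFinOrder z) (hEd : E.natDegree ≤ ρ * p ^ n)
    {ψ : AddChar (ZMod (p ^ n)) Ω} (hψ : ψ.IsPrimitive) :
    {u : ZMod (p ^ n) | ∃ τ : Ω →+* Ω, (∀ z ∈ (P.map (algebraMap ℚ Ω)).roots, τ z = z) ∧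
      ∀ y, τ (ψ y) = ψ (u * y)}.ncard ≤
      {v : HeightOneSpectrum R | pdeg k v ≤ pdeg k (x₁.under R)}.ncard := by
  classical
  have : NeZero (p ^ n) := ⟨pow_ne_zero _ (Fact.out : p.Prime).ne_zero⟩
  let := Fintype.ofFinite k
  let := Fintype.ofFinite G
  have : Algebra.IsIntegral B₁ B := Algebra.IsIntegral.tower_top R
  obtain ⟨a, ha, hfrob, M, hM, hrel⟩ := exists_artin k (B := B) (G := G) F (p := p) (n := n)
    (fun g => e.injective (by
      rw [map_pow, map_one, ← ofAdd_toAdd (e g), ← ofAdd_nsmul, nsmul_eq_mul, ZMod.natCast_self,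
        zero_mul, ofAdd_zero]))
    (fun P hP => by
      by_cases hP0 : P = ⊥
      · rw [eq_bot_iff]
        intro σ hσ
        have := (IsGaloisGroup.faithful (G := G) (A := R) (B := B))
        refine eq_of_smul_eq_smul (α := B) fun x => ?_
        have := hσ x
        rw [hP0] at this
        rw [one_smul]
        exact sub_eq_zero.1 this
      · exact hin ⟨P, hP.isPrime, hP0⟩)
  replace hfrob : ∀ w : HeightOneSpectrum B, IsArithFrobAt R (a (w.under R).asIdeal) w.asIdeal :=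
    fun w => hfrob _ w.isPrime w.ne_bot
  let res := IsGaloisGroup.restrictHom G G₁ R B₁ B
  have hfrob₁ : ∀ w : HeightOneSpectrum B₁,
      IsArithFrobAt R (res (a (w.under R).asIdeal)) w.asIdeal := by
    intro w y
    have := w.isMaximal
    obtain ⟨P, hP, hPw⟩ := Ideal.exists_maximal_ideal_liesOver_of_isIntegral (S := B) w.asIdeal
    let w' : HeightOneSpectrum B := ⟨P, hP.isPrime, Ideal.ne_bot_of_liesOver_of_ne_bot w.ne_bot P⟩
    have h1 : P.under R = w.asIdeal.under R := by rw [hPw.over, Ideal.under_under]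
    have h2 := hfrob w' (algebraMap B₁ B y)
    change a (P.under R) • algebraMap B₁ B y - algebraMap B₁ B y ^ Nat.card (R ⧸ P.under R) ∈ P
      at h2
    rw [h1, ← IsGaloisGroup.algebraMap_restrictHom_smul G G₁ R B₁ B, ← map_pow, ← map_sub] at h2
    exact (Ideal.mem_of_liesOver P w.asIdeal _).2 h2
  have hunit : ∀ g : G, res g ≠ 1 → IsUnit (e g).toAdd := by
    intro g hg
    by_contra hu
    obtain ⟨c, hc⟩ := exists_eq_mul_of_not_isUnit hu
    apply hg
    have : g = e.symm (Multiplicative.ofAdd c) ^ p := e.injective (by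
      rw [map_pow, e.apply_symm_apply, ← ofAdd_nsmul, nsmul_eq_mul, ← hc, ofAdd_toAdd])
    rw [this, map_pow, hexp₁]
  obtain ⟨A, A', hA, hA', hd, hne⟩ : ∃ A A' : Ideal R, A ≠ ⊥ ∧ A' ≠ ⊥ ∧ ideg k A = ideg k A' ∧
      res (a A) ≠ res (a A') := by
    by_contra! hall
    obtain ⟨y, hy⟩ := hS₁
    rw [pdeg_eq_mul k (R := R) y] at hy
    have h1 : y.asIdeal.inertiaDeg R = 1 :=
      ((Nat.dvd_prime Fact.out).1
        ((frob_pow_eq_one_iff y (hin₁ y) (hfrob₁ y) p).1 (hexp₁ _))).resolve_right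
        fun h => hy (h ▸ Dvd.intro_left _ rfl)
    have h2 := (frob_pow_eq_one_iff y (hin₁ y) (hfrob₁ y) 1).2 (h1 ▸ dvd_rfl)
    rw [pow_one] at h2
    rw [h1, mul_one] at hy
    refine not_finite_nonsplit k F F₁ hin₁ hG₁ ∅ fun w _ => ?_
    have h3 := hall ((w.under R).asIdeal ^ pdeg k (y.under R))
      ((y.under R).asIdeal ^ pdeg k (w.under R)) (pow_ne_zero _ (w.under R).ne_bot)
      (pow_ne_zero _ (y.under R).ne_bot) (by
        rw [ideg_pow k (w.under R).ne_bot, ideg_pow k (y.under R).ne_bot, mul_comm]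
        rfl)
    rw [ha.pow (w.under R).ne_bot, ha.pow (y.under R).ne_bot, map_pow, map_pow, h2, one_pow] at h3
    have h4 : res (a (w.under R).asIdeal) = 1 := by
      rw [← orderOf_eq_one_iff]
      exact Nat.eq_one_of_dvd_coprimes ((Nat.Prime.coprime_iff_not_dvd Fact.out).2 hy)
        (orderOf_dvd_of_pow_eq_one (hexp₁ _)) (orderOf_dvd_of_pow_eq_one h3)
    exact h4 ▸ hfrob₁ w
  have hL : ∀ j : ZMod (p ^ n), ∃ L : Polynomial Ω, j ≠ 0 →
      (L : Ω⟦X⟧) = lser k fun I : Ideal R => ψ (j * (e (a I)).toAdd) := by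
    intro j
    by_cases hj : j = 0
    · exact ⟨0, fun h => absurd hj h⟩
    obtain ⟨L, hL⟩ := F.exists_poly_lser hM (isMult_char ψ e ha j)
      (fun I J hI h => by rw [hrel I J hI h]) hA hA' hd fun h => by
        have h1 := hunit (a A / a A') (by rwa [map_div, Ne, div_eq_one])
        have h2 : ψ (j * (e (a A / a A')).toAdd) = 1 := by
          rw [map_div, toAdd_div, mul_sub, AddChar.map_sub_eq_div, h,
            div_self (isOfFinOrder_addChar ψ _).isUnit.ne_zero]
        rw [hψ.zmod_char_eq_one_iff, h1.mul_left_eq_zero] at h2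
        exact hj h2
    exact ⟨L, fun _ => hL⟩
  choose L hL using hL
  have hmap : ∀ f : Polynomial ℚ, ((f.map (algebraMap ℚ Ω) : Polynomial Ω) : Ω⟦X⟧) =
      PowerSeries.map (algebraMap ℚ Ω) f := fun f => by
    ext d
    simp [Polynomial.coeff_coe]
  have hid : P.map (algebraMap ℚ Ω) * E.map (algebraMap ℚ Ω) =
      ((1 - Polynomial.X) * Q.map (algebraMap ℚ Ω)) * ∏ j ∈ Finset.univ.erase 0, L j := by
    apply Polynomial.coe_injective
    rw [← Polynomial.map_mul, hmap, hP, Polynomial.coe_mul, Polynomial.coe_mul, hmap, hQ,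
      ← Polynomial.coeToPowerSeries.ringHom_apply (φ := ∏ _ ∈ _, _), map_prod]
    simp only [map_mul, map_sub, map_one, map_natCast, map_X, map_lser,
      Polynomial.coeToPowerSeries.ringHom_apply, Polynomial.coe_sub, Polynomial.coe_one,
      Polynomial.coe_X]
    rw [lser_eq_prod k hψ e hin ha hfrob, ← Finset.mul_prod_erase _ _ (Finset.mem_univ 0),
      Finset.prod_congr rfl fun j hj => hL j (Finset.ne_of_mem_erase hj)]
    simp only [zero_mul, AddChar.map_zero_eq_one]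
    ring
  have hPE : P.map (algebraMap ℚ Ω) * E.map (algebraMap ℚ Ω) ≠ 0 := by
    rw [← Polynomial.map_mul, Polynomial.map_ne_zero_iff (algebraMap ℚ Ω).injective]
    intro h0
    have := congrArg constantCoeff hP
    rw [h0, map_mul, constantCoeff_lser k IsMult.one] at this
    simp at this
  have hx : IsUnit (e (a (x₁.under R).asIdeal)).toAdd :=
    hunit _ fun h => hx₁ (h ▸ hfrob₁ x₁)
  refine le_trans (Set.ncard_le_ncard ?_ ((finite_pdeg_le k (pdeg k (x₁.under R))).image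
    fun v : HeightOneSpectrum R => (e (a (x₁.under R).asIdeal)).toAdd * Ring.inverse
      (((pdeg k (x₁.under R) / pdeg k v : ℕ) : ZMod (p ^ n)) * (e (a v.asIdeal)).toAdd)))
    (Set.ncard_image_le (finite_pdeg_le k _))
  rintro u ⟨τ, hτ, hu⟩
  obtain ⟨v, hv, hv'⟩ := core hψ (finite_pdeg_le k (R := R))
    (fun v => (e (a v.asIdeal)).toAdd) L
    (fun j hj => by
      rw [← Polynomial.constantCoeff_coe, hL j hj, constantCoeff_lser k (isMult_char ψ e ha j)])
    (fun j hj => by rw [hL j hj]; exact ld_lser k (isMult_char ψ e ha j))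
    hPE hid hE (by rwa [Polynomial.natDegree_map]) τ hτ hu (x₁.under R) hρ
  refine ⟨v, hv, ?_⟩
  simp only
  rw [← hv'] at hx
  rw [← hv', mul_assoc, Ring.mul_inverse_cancel _ (isUnit_of_mul_isUnit_right hx), mul_one]

end Pool.Agent.MP_51ecca_nt
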