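import Pool.Agent.MP_51ecca_nt.Schmidt
import Pool.Agent.MP_51ecca_nt.Layer

set_option linter.unusedSectionVars false

namespace Pool.Agent.MP_51ecca_nt

open IsDedekindDomain IntermediateField Polynomial

lemma isOfFinOrder_of_mem_roots {Ω ι : Type*} [Field Ω] [CharZero Ω] (T : Finset ι) {deg : ι → ℕ}
    (hpos : ∀ i, 0 < deg i) :
    ∀ z ∈ ((∏ i ∈ T, (1 - X ^ deg i : ℚ[X])).map (algebraMap ℚ Ω)).roots, IsOfFinOrder z := by
  intro z hz
  have h1 := (isRoot_of_mem_roots hz).eq_zero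
  rw [Polynomial.map_prod, eval_prod, Finset.prod_eq_zero_iff] at h1
  obtain ⟨i, -, hi⟩ := h1
  refine isOfFinOrder_iff_pow_eq_one.2 ⟨deg i, hpos i, ?_⟩
  symm
  simpa [sub_eq_zero] using hi

lemma natDegree_prod_one_sub_le {ι : Type*} (T : Finset ι) (deg : ι → ℕ) :
    (∏ i ∈ T, (1 - X ^ deg i : ℚ[X])).natDegree ≤ ∑ i ∈ T, deg i :=
  (natDegree_prod_le _ _).trans (Finset.sum_le_sum fun i _ =>
    (natDegree_sub_le _ _).trans (by simp))

theorem exists_bound (p : ℕ) [Fact p.Prime] {k K : Type} (K₁ : Type) [Field k] [Finite k]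
    [CharP k p] [Field K] [Algebra k K] [Field K₁] [Algebra K K₁] [Algebra k K₁]
    [IsScalarTower k K K₁] [FiniteDimensional K K₁] [IsGalois K K₁] {h : K} (hh : IsChart k h)
    (R : Type) [CommRing R] [Algebra R K] [Algebra k R] [IsScalarTower k R K]
    [IsIntegralClosure R (Algebra.adjoin k {h}) K]
    (hgeom : algebraicClosure k K = ⊥) (hgeom₁ : algebraicClosure k K₁ = ⊥)
    (hG₁ : 1 < Nat.card (K₁ ≃ₐ[K] K₁)) (hexp₁ : ∀ g : K₁ ≃ₐ[K] K₁, g ^ p = 1)
    (hun₁ : ∀ y : Place k K₁, algebraMap K K₁ h ∈ y.1 → y.1.inertiaSubgroup K = ⊥) :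
    ∃ N : ℕ, ∀ (n : ℕ) (K' : Type) [Field K'] [Algebra K K'] [Algebra K₁ K'] [Algebra k K']
      [IsScalarTower k K K'] [IsScalarTower K K₁ K'] [FiniteDimensional K K'] [IsGalois K K']
      (_ : (K' ≃ₐ[K] K') ≃* Multiplicative (ZMod (p ^ n)))
      (_ : ∀ y : Place k K', algebraMap K K' h ∈ y.1 → y.1.inertiaSubgroup K = ⊥)
      (P : ℚ[X]) (_ : (P : PowerSeries ℚ) = (1 - PowerSeries.X) *
        (1 - (Nat.card k : PowerSeries ℚ) * PowerSeries.X) * zetaSeries k K')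
      (Ω : Type) [Field Ω] [IsAlgClosed Ω] [CharZero Ω] (ψ : AddChar (ZMod (p ^ n)) Ω)
      (_ : ψ.IsPrimitive),
      {u : ZMod (p ^ n) | ∃ τ : Ω →+* Ω, (∀ z ∈ (P.map (algebraMap ℚ Ω)).roots, τ z = z) ∧
        ∀ y, τ (ψ y) = ψ (u * y)}.ncard ≤ N := by
  have hM := hh.isModel R
  have := hM.ded
  have := hM.frac
  have := hM.finq
  have := hM.inf
  let : Algebra R K₁ := ((algebraMap K K₁).comp (algebraMap R K)).toAlgebra
  have : IsScalarTower R K K₁ := .of_algebraMap_eq fun _ => rfl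
  have : IsScalarTower k R K₁ := .of_algebraMap_eq fun c => by
    rw [IsScalarTower.algebraMap_apply k K K₁, IsScalarTower.algebraMap_apply R K K₁,
      ← IsScalarTower.algebraMap_apply k R K]
  let G₁ := K₁ ≃ₐ[K] K₁
  have := smulCommClass_of_isGaloisGroup (K := K) K₁ R G₁
  have := faithfulSMul_integralClosure (K := K) K₁ R
  let B₁ := integralClosure R K₁
  have hM₁ : IsModel k B₁ _ := hh.isModel_map K₁ R
  have := hM₁.ded
  have := hM₁.frac
  have := hM₁.finq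
  have := hM₁.inf
  have : IsGaloisGroup G₁ R B₁ := IsGaloisGroup.of_isFractionRing G₁ R B₁ K K₁
  have hin₁ : ∀ w : HeightOneSpectrum B₁, w.asIdeal.inertia G₁ = ⊥ := fun w =>
    inertia_eq_bot (k := k) (K := K₁) (K₀ := K) (fun _ _ => rfl) w
      (hun₁ _ ((hM₁.mem_iff _).2 (algebraMap_mem_plc w)))
  obtain ⟨F, -⟩ := hM.filt
  obtain ⟨F₁, -⟩ := hM₁.filt
  obtain ⟨x₁, hρ, hx₁⟩ : ∃ x₁ : HeightOneSpectrum B₁,
      2 * Module.finrank k⟮h⟯ K < pdeg k (x₁.under R) ∧ ¬ IsArithFrobAt R (1 : G₁) x₁.asIdeal := by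
    by_contra! hall
    refine not_finite_nonsplit k F F₁ hin₁ hG₁
      (finite_pdeg_le k (2 * Module.finrank k⟮h⟯ K)).toFinset fun w hw => hall w ?_
    simpa using hw
  have hS₁ : ∃ y : HeightOneSpectrum B₁, ¬ p ∣ pdeg k y :=
    have := isIntegralClosure_map K₁ h R B₁ (k := k)
    (hh.map K₁).exists_not_dvd hgeom₁ B₁ Fact.out
  obtain ⟨Q, hQ⟩ := hh.exists_poly_lser_one hgeom R
  refine ⟨{v : HeightOneSpectrum R | pdeg k v ≤ pdeg k (x₁.under R)}.ncard, ?_⟩
  intro n K' _ _ _ _ _ _ _ _ e hun P hP Ω _ _ _ ψ hψ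
  have : NeZero (p ^ n) := ⟨pow_ne_zero _ (Fact.out : p.Prime).ne_zero⟩
  let : Algebra R K' := ((algebraMap K K').comp (algebraMap R K)).toAlgebra
  have : IsScalarTower R K K' := .of_algebraMap_eq fun _ => rfl
  have : IsScalarTower k R K' := .of_algebraMap_eq fun c => by
    rw [IsScalarTower.algebraMap_apply k K K', IsScalarTower.algebraMap_apply R K K',
      ← IsScalarTower.algebraMap_apply k R K]
  have : IsScalarTower R K₁ K' := .of_algebraMap_eq fun c => by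
    rw [IsScalarTower.algebraMap_apply R K K', IsScalarTower.algebraMap_apply R K K₁,
      ← IsScalarTower.algebraMap_apply K K₁ K']
  let G := Multiplicative (ZMod (p ^ n))
  let : MulSemiringAction G K' := MulSemiringAction.compHom K' e.symm.toMonoidHom
  have hGal : IsGaloisGroup G K K' := IsGaloisGroup.of_mulEquiv_algEquiv e.symm fun _ _ => rfl
  have := hGal.faithful
  have := smulCommClass_of_isGaloisGroup (K := K) K' R G
  have := faithfulSMul_integralClosure (K := K) K' R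
  let B := integralClosure R K'
  have hM' : IsModel k B _ := hh.isModel_map K' R
  have := hM'.ded
  have := hM'.frac
  have := hM'.finq
  have := hM'.inf
  have : IsGaloisGroup G R B := IsGaloisGroup.of_isFractionRing G R B K K'
  have hin : ∀ w : HeightOneSpectrum B, w.asIdeal.inertia G = ⊥ := fun w =>
    inertia_eq_bot (k := k) (K := K') (K₀ := K) (fun _ _ => rfl) w
      (hun _ ((hM'.mem_iff _).2 (algebraMap_mem_plc w)))
  let f := (IsScalarTower.toAlgHom R K₁ K').mapIntegralClosure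
  let : Algebra B₁ B := f.toRingHom.toAlgebra
  have : IsScalarTower R B₁ B := .of_algebraMap_eq fun r => (f.commutes r).symm
  have : FaithfulSMul B₁ B := (faithfulSMul_iff_algebraMap_injective B₁ B).2 fun x y hxy =>
    Subtype.ext ((algebraMap K₁ K').injective (congrArg Subtype.val hxy))
  obtain ⟨Pl, -, -, hpos, hdeg, hZ⟩ := zeta_mul_eq (hh.map K') hM'
  refine ncard_le k (B := B) (G := G) F F₁ hin₁ hin hG₁ hexp₁ (MulEquiv.refl _) hS₁ x₁ hx₁ hρ
    (E := ∏ O ∈ Pl, (1 - X ^ O.degree)) ?_ hQ (isOfFinOrder_of_mem_roots Pl hpos) ?_ hψ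
  · rw [Polynomial.coe_mul, hP, mul_assoc, hZ]
  · refine (natDegree_prod_one_sub_le _ _).trans (hdeg.trans (le_of_eq ?_))
    rw [finrank_adjoin_map, ← IsGalois.card_aut_eq_finrank K K', Nat.card_congr e.toEquiv,
      Nat.card_eq_fintype_card, Fintype.card_multiplicative, ZMod.card]

lemma finrank_adjoin_le (F Ω : Type*) [Field F] [CharZero F] [Field Ω] [Algebra F Ω]
    [IsAlgClosure F Ω] {N : ℕ} [NeZero N] {ζ : Ω} (hζ : IsPrimitiveRoot ζ N) :
    Module.finrank F F⟮ζ⟯ ≤ {u : ZMod N | ∃ τ : Ω ≃ₐ[F] Ω, τ ζ = ζ ^ u.val}.ncard := by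
  have := IsAlgClosure.isAlgClosed F (K := Ω)
  have hi : IsIntegral F ζ := Algebra.IsIntegral.isIntegral ζ
  rw [adjoin.finrank hi, ← card_rootSet_eq_natDegree (K := Ω)
    (Algebra.IsSeparable.isSeparable F ζ) (IsAlgClosed.splits _), ← Nat.card_eq_fintype_card,
    Nat.card_coe_set_eq]
  refine le_trans (Set.ncard_le_ncard ?_ ((Set.toFinite _).image fun u : ZMod N => ζ ^ u.val))
    (Set.ncard_image_le (Set.toFinite _))
  intro z hz
  obtain ⟨τ, hτ⟩ := minpoly.exists_algEquiv_of_root' hi.isAlgebraic (aeval_eq_zero_of_mem_rootSet hz)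
  obtain ⟨i, hi, hi'⟩ := hζ.eq_pow_of_pow_eq_one (ξ := z) (by
    rw [← hτ, ← map_pow, hζ.pow_eq_one, map_one])
  refine ⟨i, ⟨τ, ?_⟩, ?_⟩
  · rw [ZMod.val_cast_of_lt hi, hi', hτ]
  · simp only
    rw [ZMod.val_cast_of_lt hi, hi']

end Pool.Agent.MP_51ecca_nt
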