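import Pool.Agent.Mg.F43e117.G4b00aa

set_option linter.unusedSectionVars false

namespace Pool.Agent.MP_51ecca_nt

section
open Polynomial

theorem core2 {Ω : Type*} [Field Ω] [IsAlgClosed Ω] [CharZero Ω] {N : ℕ} [NeZero N]
    {ψ : AddChar (ZMod N) Ω} (hψ : ψ.IsPrimitive) {ι : Type*} {deg : ι → ℕ}
    (hfin : ∀ d, {i | deg i ≤ d}.Finite) (α : ι → ZMod N) (L : ZMod N → Polynomial Ω)
    (hL0 : ∀ j, j ≠ 0 → (L j).coeff 0 = 1)
    (hL : ∀ j, j ≠ 0 → LD (L j : PowerSeries Ω) (psum deg fun v => ψ (j * α v)))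
    {P E Q : Polynomial Ω} (hPE : P * E ≠ 0) (hid : P * E = Q * ∏ j ∈ Finset.univ.erase 0, L j)
    (hE : ∀ z ∈ E.roots, IsOfFinOrder z) {ρ : ℕ} (hEd : E.natDegree ≤ ρ * N)
    {u : ZMod N} (hu : IsUnit u)
    (hτ : ∀ z ∈ P.roots, ∃ τ : Ω →+* Ω, τ z = z ∧ ∀ x, τ (ψ x) = ψ (u * x))
    (x : ι) (hx : 2 * ρ < deg x) :
    ∃ v, deg v ≤ deg x ∧ u * ((deg x / deg v : ℕ) * α v) = α x := by
  classical
  by_contra! hne
  set r := deg x with hr
  have hr0 : r ≠ 0 := by omega
  let T := (hfin r).toFinset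
  have hT : ∀ i, deg i ≤ r ↔ i ∈ T := fun i => by simp [T]
  let w : ι → ℕ := fun v => if deg v ∣ r then deg v else 0
  let β : ι → ZMod N := fun v => (r / deg v : ℕ) * α v
  let S : ZMod N → Ω := fun j => PowerSeries.coeff r (psum deg fun v => ψ (j * α v))
  have hS : ∀ j, S j = ∑ v ∈ T, (w v : Ω) * ψ (j * β v) := fun j => by
    simp only [S]
    rw [coeff_psum _ _ T fun i => (hT i).1]
    refine Finset.sum_congr rfl fun v _ => ?_
    rw [coeff_geom]
    by_cases h : deg v ∣ r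
    · rw [if_pos ⟨hr0, h⟩, ← AddChar.map_nsmul_eq_pow, nsmul_eq_mul]
      simp only [w, β, if_pos h]
      rw [mul_left_comm]
    · rw [if_neg fun h' => h h'.2]
      simp [w, h]
  let bad : ZMod N → Multiset Ω := fun j => (L j).roots.filter fun z => z ∉ P.roots
  have huj : ∀ j, j ≠ 0 → u * j ≠ 0 := fun j hj h => hj (hu.mul_right_eq_zero.1 h)
  have hmapL : ∀ j, j ≠ 0 → ∀ τ : Ω →+* Ω, (∀ x, τ (ψ x) = ψ (u * x)) →
      (L j).map τ = L (u * j) := by
    intro j hj τ hτ
    apply Polynomial.coe_injective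
    have e0 : (((L j).map τ : Polynomial Ω) : PowerSeries Ω) = PowerSeries.map τ (L j) := by
      ext d
      simp [Polynomial.coeff_coe]
    have e1 : PowerSeries.map τ (psum deg fun v => ψ (j * α v)) =
        psum deg fun v => ψ (u * j * α v) := by
      ext d
      have hT' : ∀ i, deg i ≤ d → i ∈ (hfin d).toFinset := fun i hi => by simpa using hi
      rw [PowerSeries.coeff_map, coeff_psum _ _ _ hT', coeff_psum _ _ _ hT', map_sum]
      refine Finset.sum_congr rfl fun v _ => ?_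
      rw [coeff_geom, coeff_geom]
      split_ifs
      · rw [map_mul, map_pow, map_natCast, hτ, mul_assoc]
      · simp
    refine LD.unique_left (constantCoeff_psum _ _) ?_ (hL _ (huj j hj)) ?_
    · rw [e0, ← e1]
      exact (hL j hj).map τ
    · simp only [Polynomial.constantCoeff_coe, Polynomial.coeff_map, hL0 j hj, hL0 _ (huj j hj),
        map_one]
  have hgood : ∀ j, j ≠ 0 → (L (u * j)).roots.filter (fun z => ¬ z ∉ P.roots) =
      (L j).roots.filter (fun z => ¬ z ∉ P.roots) := by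
    intro j hj
    ext z
    rw [Multiset.count_filter, Multiset.count_filter]
    split_ifs with hz
    · rfl
    · obtain ⟨τ, h1, h2⟩ := hτ z (not_not.1 hz)
      rw [count_roots, count_roots, ← hmapL j hj τ h2, eq_rootMultiplicity_map (p := L j) τ.injective z,
        h1]
  have h1 : ∀ j, j ≠ 0 → S j - S (u * j) =
      ((bad (u * j)).map fun z => z⁻¹ ^ r).sum - ((bad j).map fun z => z⁻¹ ^ r).sum := by
    intro j hj
    have e : ∀ j, j ≠ 0 → S j = -((L j).roots.map fun z => z⁻¹ ^ r).sum := fun j hj =>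
      LD.coeff_eq_roots (hL0 j hj) (hL j hj) hr0
    rw [e j hj, e _ (huj j hj), ← Multiset.filter_add_not (fun z => z ∉ P.roots) (L j).roots,
      ← Multiset.filter_add_not (fun z => z ∉ P.roots) (L (u * j)).roots, hgood j hj]
    simp only [Multiset.map_add, Multiset.sum_add, bad]
    ring
  have h2 : ∑ j ∈ Finset.univ.erase 0, bad j ≤ E.roots := by
    have hQ : Q * ∏ j ∈ Finset.univ.erase 0, L j ≠ 0 := hid ▸ hPE
    have e := congrArg (fun f => f.roots.filter fun z => z ∉ P.roots) hid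
    simp only [roots_mul hPE, roots_mul hQ, roots_prod _ _ (right_ne_zero_of_mul hQ),
      Multiset.filter_add] at e
    rw [Multiset.filter_eq_nil.2 fun a ha => not_not.2 ha, zero_add] at e
    refine le_trans ?_ (Multiset.filter_le (fun z => z ∉ P.roots) _)
    rw [e]
    refine le_trans (le_of_eq ?_) (Multiset.le_add_left _ _)
    rw [Multiset.filter_bind]
    rfl
  have hbad : ∀ j ∈ Finset.univ.erase 0, ∀ z ∈ bad j, IsOfFinOrder z := fun j hj z hz =>
    hE z (Multiset.mem_of_le ((Finset.single_le_sum (f := bad) (fun _ _ => Multiset.zero_le _)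
      hj).trans h2) hz)
  let s : Multiset Ω := ∑ j ∈ Finset.univ.erase 0,
    (((bad (u * j)).map fun z => ψ (j * -α x) * z⁻¹ ^ r) +
      (bad j).map fun z => -(ψ (j * -α x) * z⁻¹ ^ r))
  have hs : ∀ z ∈ s, IsOfFinOrder z := by
    intro y hy
    obtain ⟨j, hj, hy⟩ := Multiset.mem_sum.1 hy
    rcases Multiset.mem_add.1 hy with hy | hy
    · obtain ⟨z, hz, rfl⟩ := Multiset.mem_map.1 hy
      exact (isOfFinOrder_addChar ψ _).mul
        (isOfFinOrder_inv₀ (hbad (u * j) (Finset.mem_erase.2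
          ⟨huj j (Finset.ne_of_mem_erase hj), Finset.mem_univ _⟩) z hz)).pow
    · obtain ⟨z, hz, rfl⟩ := Multiset.mem_map.1 hy
      exact isOfFinOrder_neg' ((isOfFinOrder_addChar ψ _).mul
        (isOfFinOrder_inv₀ (hbad j hj z hz)).pow)
  have hcard : s.card ≤ 2 * ρ * N := by
    have e := Multiset.card_le_card h2
    rw [Multiset.card_sum] at e
    have e' := (card_roots' E).trans hEd
    have e'' : ∑ j ∈ Finset.univ.erase 0, (bad (u * j)).card =
        ∑ j ∈ Finset.univ.erase 0, (bad j).card := by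
      refine Finset.sum_equiv hu.unit.mulLeft (fun j => ?_) fun j _ => rfl
      simp [hu.mul_right_eq_zero]
    simp only [s, Multiset.card_sum, Multiset.card_add, Multiset.card_map, Finset.sum_add_distrib]
    rw [mul_assoc]
    omega
  have hsum : s.sum = (N * ∑ v ∈ T.filter (fun v => β v = α x), w v : ℕ) := by
    have e1 : s.sum = ∑ j, ψ (j * -α x) * (S j - S (u * j)) := by
      rw [← Finset.sum_erase Finset.univ (a := 0), ← Multiset.coe_sumAddMonoidHom, map_sum]
      · refine Finset.sum_congr rfl fun j hj => ?_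
        rw [h1 j (Finset.ne_of_mem_erase hj), Multiset.coe_sumAddMonoidHom, Multiset.sum_add,
          Multiset.sum_map_neg, Multiset.sum_map_mul_left, Multiset.sum_map_mul_left]
        ring
      · simp
    have e2 : ∀ j, ψ (j * -α x) * (S j - S (u * j)) =
        ∑ v ∈ T, (w v : Ω) * (ψ (j * (β v - α x)) - ψ (j * (u * β v - α x))) := by
      intro j
      rw [hS, hS, ← Finset.sum_sub_distrib, Finset.mul_sum]
      refine Finset.sum_congr rfl fun v _ => ?_
      rw [show j * (β v - α x) = j * -α x + j * β v by ring,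
        show j * (u * β v - α x) = j * -α x + u * j * β v by ring, AddChar.map_add_eq_mul,
        AddChar.map_add_eq_mul]
      ring
    rw [e1, Finset.sum_congr rfl fun j _ => e2 j, Finset.sum_comm, Finset.sum_filter]
    push_cast
    rw [Finset.mul_sum]
    refine Finset.sum_congr rfl fun v hv => ?_
    rw [← Finset.mul_sum, Finset.sum_sub_distrib, AddChar.sum_mulShift _ hψ,
      AddChar.sum_mulShift _ hψ, if_neg (c := u * β v - α x = 0)
        fun h => hne v ((hT v).2 hv) (sub_eq_zero.1 h), ZMod.card]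
    simp only [sub_eq_zero]
    split_ifs <;> simp [mul_comm]
  have h3 := (le_card_of_sum_eq s hs hsum).trans hcard
  have h4 : r ≤ ∑ v ∈ T.filter (fun v => β v = α x), w v := by
    refine le_trans (le_of_eq ?_) (Finset.single_le_sum (f := w) (fun _ _ => Nat.zero_le _)
      (a := x) ?_)
    · simp [w, hr]
    · rw [Finset.mem_filter, ← hT]
      refine ⟨le_rfl, ?_⟩
      simp [β, ← hr, Nat.div_self (Nat.pos_of_ne_zero hr0)]
  rw [mul_comm N] at h3
  have := Nat.le_of_mul_le_mul_right h3 (NeZero.pos N)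
  omega

end

section
open IsDedekindDomain PowerSeries

variable (k : Type*) {R B G : Type*} [Field k] [Finite k] [CommRing R] [CommRing B]
  [IsDedekindDomain R] [IsDedekindDomain B] [Infinite R] [Infinite B]
  [Ring.HasFiniteQuotients R] [Ring.HasFiniteQuotients B]
  [Algebra R B] [Algebra.IsIntegral R B] [Algebra k R] [Algebra k B] [IsScalarTower k R B]
  [FaithfulSMul R B] [CommGroup G] [Finite G] [MulSemiringAction G B] [IsGaloisGroup G R B]

theorem frob_res {B₁ G₁ : Type*} [CommRing B₁] [IsDedekindDomain B₁] [Algebra R B₁]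
    [Algebra.IsIntegral R B₁] [FaithfulSMul R B₁] [Group G₁] [Finite G₁] [MulSemiringAction G₁ B₁]
    [IsGaloisGroup G₁ R B₁] [Algebra B₁ B] [IsScalarTower R B₁ B] [FaithfulSMul B₁ B]
    {a : Ideal R → G}
    (hfrob : ∀ w : HeightOneSpectrum B, IsArithFrobAt R (a (w.under R).asIdeal) w.asIdeal)
    (w : HeightOneSpectrum B₁) :
    IsArithFrobAt R (IsGaloisGroup.restrictHom G G₁ R B₁ B (a (w.under R).asIdeal)) w.asIdeal := by
  have : Algebra.IsIntegral B₁ B := Algebra.IsIntegral.tower_top R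
  intro y
  have := w.isMaximal
  obtain ⟨P, hP, hPw⟩ := Ideal.exists_maximal_ideal_liesOver_of_isIntegral (S := B) w.asIdeal
  let w' : HeightOneSpectrum B := ⟨P, hP.isPrime, Ideal.ne_bot_of_liesOver_of_ne_bot w.ne_bot P⟩
  have h1 : P.under R = w.asIdeal.under R := by rw [hPw.over, Ideal.under_under]
  have h2 := hfrob w' (algebraMap B₁ B y)
  change a (P.under R) • algebraMap B₁ B y - algebraMap B₁ B y ^ Nat.card (R ⧸ P.under R) ∈ P
    at h2
  rw [h1, ← IsGaloisGroup.algebraMap_restrictHom_smul G G₁ R B₁ B, ← map_pow, ← map_sub] at h2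
  exact (Ideal.mem_of_liesOver P w.asIdeal _).2 h2

theorem exists_wit {K K₁ B₁ G₁ : Type*} [Field K] [Algebra k K] [Algebra R K]
    [IsScalarTower k R K] [IsFractionRing R K] [CommRing B₁] [IsDedekindDomain B₁] [Infinite B₁]
    [Ring.HasFiniteQuotients B₁] [Algebra R B₁] [Algebra.IsIntegral R B₁] [Algebra k B₁]
    [IsScalarTower k R B₁] [FaithfulSMul R B₁] [Group G₁] [Finite G₁] [MulSemiringAction G₁ B₁]
    [IsGaloisGroup G₁ R B₁] [Field K₁] [Algebra k K₁] [Algebra B₁ K₁]
    [IsScalarTower k B₁ K₁] [IsFractionRing B₁ K₁] [Algebra B₁ B] [IsScalarTower R B₁ B]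
    [FaithfulSMul B₁ B] (F : Filt k R K) (F₁ : Filt k B₁ K₁) {p n : ℕ} [Fact p.Prime] [CharP k p]
    (hin₁ : ∀ w : HeightOneSpectrum B₁, w.asIdeal.inertia G₁ = ⊥)
    (hin : ∀ w : HeightOneSpectrum B, w.asIdeal.inertia G = ⊥)
    (hG₁ : 1 < Nat.card G₁) (hexp₁ : ∀ g : G₁, g ^ p = 1) (e : G ≃* Multiplicative (ZMod (p ^ n)))
    (hS₁ : ∃ y : HeightOneSpectrum B₁, ¬ p ∣ pdeg k y)
    (x₁ : HeightOneSpectrum B₁) (hx₁ : ¬ IsArithFrobAt R (1 : G₁) x₁.asIdeal) {ρ : ℕ}
    (hρ : 2 * ρ < pdeg k (x₁.under R)) {P E Q : Polynomial ℚ}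
    (hP : ((P * E : Polynomial ℚ) : ℚ⟦X⟧) =
      (1 - X) * (1 - (Nat.card k : ℚ⟦X⟧) * X) * lser k fun _ : Ideal B => (1 : ℚ))
    (hQ : (Q : ℚ⟦X⟧) = (1 - (Nat.card k : ℚ⟦X⟧) * X) * lser k fun _ : Ideal R => (1 : ℚ))
    {Ω : Type*} [Field Ω] [IsAlgClosed Ω] [CharZero Ω]
    (hE : ∀ z ∈ (E.map (algebraMap ℚ Ω)).roots, IsOfFinOrder z) (hEd : E.natDegree ≤ ρ * p ^ n)
    {ψ : AddChar (ZMod (p ^ n)) Ω} (hψ : ψ.IsPrimitive) {u : ZMod (p ^ n)} (hu : IsUnit u)
    (hτ : ∀ z ∈ (P.map (algebraMap ℚ Ω)).roots, ∃ τ : Ω →+* Ω, τ z = z ∧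
      ∀ y, τ (ψ y) = ψ (u * y)) :
    ∃ a : Ideal R → G,
      (∀ w : HeightOneSpectrum B, IsArithFrobAt R (a (w.under R).asIdeal) w.asIdeal) ∧
      IsUnit (e (a (x₁.under R).asIdeal)).toAdd ∧ ∃ v : HeightOneSpectrum R,
        pdeg k v ≤ pdeg k (x₁.under R) ∧
        u * (((pdeg k (x₁.under R) / pdeg k v : ℕ) : ZMod (p ^ n)) * (e (a v.asIdeal)).toAdd) =
          (e (a (x₁.under R).asIdeal)).toAdd := by
  classical
  have : NeZero (p ^ n) := ⟨pow_ne_zero _ (Fact.out : p.Prime).ne_zero⟩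
  let := Fintype.ofFinite k
  let := Fintype.ofFinite G
  have : Algebra.IsIntegral B₁ B := Algebra.IsIntegral.tower_top R
  obtain ⟨a, ha, hfrob, M, hM, hrel⟩ := exists_artin k (B := B) (G := G) F (p := p) (n := n)
    (fun g => e.injective (by
      rw [map_pow, map_one, ← ofAdd_toAdd (e g), ← ofAdd_nsmul, nsmul_eq_mul, ZMod.natCast_self,
        zero_mul, ofAdd_zero]))
    (fun P hP => by
      by_cases hP0 : P = ⊥
      · rw [eq_bot_iff]
        intro σ hσ
        have := (IsGaloisGroup.faithful (G := G) (A := R) (B := B))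
        refine eq_of_smul_eq_smul (α := B) fun x => ?_
        have := hσ x
        rw [hP0] at this
        rw [one_smul]
        exact sub_eq_zero.1 this
      · exact hin ⟨P, hP.isPrime, hP0⟩)
  replace hfrob : ∀ w : HeightOneSpectrum B, IsArithFrobAt R (a (w.under R).asIdeal) w.asIdeal :=
    fun w => hfrob _ w.isPrime w.ne_bot
  let res := IsGaloisGroup.restrictHom G G₁ R B₁ B
  have hfrob₁ : ∀ w : HeightOneSpectrum B₁,
      IsArithFrobAt R (res (a (w.under R).asIdeal)) w.asIdeal := frob_res hfrob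
  have hunit : ∀ g : G, res g ≠ 1 → IsUnit (e g).toAdd := by
    intro g hg
    by_contra hu
    obtain ⟨c, hc⟩ := exists_eq_mul_of_not_isUnit hu
    apply hg
    have : g = e.symm (Multiplicative.ofAdd c) ^ p := e.injective (by
      rw [map_pow, e.apply_symm_apply, ← ofAdd_nsmul, nsmul_eq_mul, ← hc, ofAdd_toAdd])
    rw [this, map_pow, hexp₁]
  obtain ⟨A, A', hA, hA', hd, hne⟩ : ∃ A A' : Ideal R, A ≠ ⊥ ∧ A' ≠ ⊥ ∧ ideg k A = ideg k A' ∧
      res (a A) ≠ res (a A') := by
    by_contra! hall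
    obtain ⟨y, hy⟩ := hS₁
    rw [pdeg_eq_mul k (R := R) y] at hy
    have h1 : y.asIdeal.inertiaDeg R = 1 :=
      ((Nat.dvd_prime Fact.out).1
        ((frob_pow_eq_one_iff y (hin₁ y) (hfrob₁ y) p).1 (hexp₁ _))).resolve_right
        fun h => hy (h ▸ Dvd.intro_left _ rfl)
    have h2 := (frob_pow_eq_one_iff y (hin₁ y) (hfrob₁ y) 1).2 (h1 ▸ dvd_rfl)
    rw [pow_one] at h2
    rw [h1, mul_one] at hy
    refine not_finite_nonsplit k F F₁ hin₁ hG₁ ∅ fun w _ => ?_
    have h3 := hall ((w.under R).asIdeal ^ pdeg k (y.under R))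
      ((y.under R).asIdeal ^ pdeg k (w.under R)) (pow_ne_zero _ (w.under R).ne_bot)
      (pow_ne_zero _ (y.under R).ne_bot) (by
        rw [ideg_pow k (w.under R).ne_bot, ideg_pow k (y.under R).ne_bot, mul_comm]
        rfl)
    rw [ha.pow (w.under R).ne_bot, ha.pow (y.under R).ne_bot, map_pow, map_pow, h2, one_pow] at h3
    have h4 : res (a (w.under R).asIdeal) = 1 := by
      rw [← orderOf_eq_one_iff]
      exact Nat.eq_one_of_dvd_coprimes ((Nat.Prime.coprime_iff_not_dvd Fact.out).2 hy)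
        (orderOf_dvd_of_pow_eq_one (hexp₁ _)) (orderOf_dvd_of_pow_eq_one h3)
    exact h4 ▸ hfrob₁ w
  have hL : ∀ j : ZMod (p ^ n), ∃ L : Polynomial Ω, j ≠ 0 →
      (L : Ω⟦X⟧) = lser k fun I : Ideal R => ψ (j * (e (a I)).toAdd) := by
    intro j
    by_cases hj : j = 0
    · exact ⟨0, fun h => absurd hj h⟩
    obtain ⟨L, hL⟩ := F.exists_poly_lser hM (isMult_char ψ e ha j)
      (fun I J hI h => by rw [hrel I J hI h]) hA hA' hd fun h => by
        have h1 := hunit (a A / a A') (by rwa [map_div, Ne, div_eq_one])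
        have h2 : ψ (j * (e (a A / a A')).toAdd) = 1 := by
          rw [map_div, toAdd_div, mul_sub, AddChar.map_sub_eq_div, h,
            div_self (isOfFinOrder_addChar ψ _).isUnit.ne_zero]
        rw [hψ.zmod_char_eq_one_iff, h1.mul_left_eq_zero] at h2
        exact hj h2
    exact ⟨L, fun _ => hL⟩
  choose L hL using hL
  have hmap : ∀ f : Polynomial ℚ, ((f.map (algebraMap ℚ Ω) : Polynomial Ω) : Ω⟦X⟧) =
      PowerSeries.map (algebraMap ℚ Ω) f := fun f => by
    ext d
    simp [Polynomial.coeff_coe]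
  have hid : P.map (algebraMap ℚ Ω) * E.map (algebraMap ℚ Ω) =
      ((1 - Polynomial.X) * Q.map (algebraMap ℚ Ω)) * ∏ j ∈ Finset.univ.erase 0, L j := by
    apply Polynomial.coe_injective
    rw [← Polynomial.map_mul, hmap, hP, Polynomial.coe_mul, Polynomial.coe_mul, hmap, hQ,
      ← Polynomial.coeToPowerSeries.ringHom_apply (φ := ∏ _ ∈ _, _), map_prod]
    simp only [map_mul, map_sub, map_one, map_natCast, map_X, map_lser,
      Polynomial.coeToPowerSeries.ringHom_apply, Polynomial.coe_sub, Polynomial.coe_one,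
      Polynomial.coe_X]
    rw [lser_eq_prod k hψ e hin ha hfrob, ← Finset.mul_prod_erase _ _ (Finset.mem_univ 0),
      Finset.prod_congr rfl fun j hj => hL j (Finset.ne_of_mem_erase hj)]
    simp only [zero_mul, AddChar.map_zero_eq_one]
    ring
  have hPE : P.map (algebraMap ℚ Ω) * E.map (algebraMap ℚ Ω) ≠ 0 := by
    rw [← Polynomial.map_mul, Polynomial.map_ne_zero_iff (algebraMap ℚ Ω).injective]
    intro h0
    have := congrArg constantCoeff hP
    rw [h0, map_mul, constantCoeff_lser k IsMult.one] at this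
    simp at this
  have hx : IsUnit (e (a (x₁.under R).asIdeal)).toAdd :=
    hunit _ fun h => hx₁ (h ▸ hfrob₁ x₁)
  exact ⟨a, hfrob, hx, core2 hψ (finite_pdeg_le k (R := R))
    (fun v => (e (a v.asIdeal)).toAdd) L
    (fun j hj => by
      rw [← Polynomial.constantCoeff_coe, hL j hj, constantCoeff_lser k (isMult_char ψ e ha j)])
    (fun j hj => by rw [hL j hj]; exact ld_lser k (isMult_char ψ e ha j))
    hPE hid hE (by rwa [Polynomial.natDegree_map]) hu hτ (x₁.under R) hρ⟩

end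

end Pool.Agent.MP_51ecca_nt
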