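import Pool.Agent.MP_51ecca_nt.By1

set_option linter.unusedSectionVars false

namespace Pool.Agent.MP_51ecca_nt

open IsDedekindDomain IntermediateField Polynomial

/-- the `m`-th power of the Frobenius at `I` is the Frobenius at `J` in the layer `K'` -/
def FrEq (R K K' : Type) [CommRing R] [Field K] [Field K'] [Algebra R K] [Algebra K K']
    [Algebra R K'] [IsScalarTower R K K'] (I J : Ideal R) (m : ℕ) : Prop :=
  ∀ (σ τ : K' ≃ₐ[K] K') (P Q : Ideal (integralClosure R K')), P.IsPrime → Q.IsPrime →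
    P.under R = I → Q.under R = J → IsArithFrobAt R σ P → IsArithFrobAt R τ Q → σ ^ m = τ

theorem exists_layer (p : ℕ) [Fact p.Prime] {k K : Type} (K₁ : Type) [Field k] [Finite k]
    [CharP k p] [Field K] [Algebra k K] [Field K₁] [Algebra K K₁] [Algebra k K₁]
    [IsScalarTower k K K₁] [FiniteDimensional K K₁] [IsGalois K K₁] {h : K} (hh : IsChart k h)
    (R : Type) [CommRing R] [Algebra R K] [Algebra k R] [IsScalarTower k R K]
    [IsIntegralClosure R (Algebra.adjoin k {h}) K]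
    (hgeom : algebraicClosure k K = ⊥) (hgeom₁ : algebraicClosure k K₁ = ⊥)
    (hG₁ : 1 < Nat.card (K₁ ≃ₐ[K] K₁)) (hexp₁ : ∀ g : K₁ ≃ₐ[K] K₁, g ^ p = 1)
    (hun₁ : ∀ y : Place k K₁, algebraMap K K₁ h ∈ y.1 → y.1.inertiaSubgroup K = ⊥) :
    ∃ (x : Ideal R) (V : Set (Ideal R × ℕ)), V.Finite ∧ ∀ (n : ℕ) (_ : 1 ≤ n) (K' : Type) [Field K']
      [Algebra K K'] [Algebra K₁ K'] [Algebra k K']
      [IsScalarTower k K K'] [IsScalarTower K K₁ K'] [FiniteDimensional K K'] [IsGalois K K']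
      [Algebra R K'] [IsScalarTower R K K']
      (_ : (K' ≃ₐ[K] K') ≃* Multiplicative (ZMod (p ^ (n + 1))))
      (_ : ∀ y : Place k K', algebraMap K K' h ∈ y.1 → y.1.inertiaSubgroup K = ⊥)
      (P : ℚ[X]) (_ : (P : PowerSeries ℚ) = (1 - PowerSeries.X) *
        (1 - (Nat.card k : PowerSeries ℚ) * PowerSeries.X) * zetaSeries k K')
      (Ω : Type) [Field Ω] [IsAlgClosed Ω] [CharZero Ω] (ψ : AddChar (ZMod (p ^ (n + 1))) Ω)
      (_ : ψ.IsPrimitive),
      (∀ z ∈ (P.map (algebraMap ℚ Ω)).roots, ∃ τ : Ω →+* Ω, τ z = z ∧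
        ∀ y, τ (ψ y) = ψ ((1 + p ^ n) * y)) →
      ∃ v ∈ V, ¬ FrEq R K K' v.1 x v.2 ∧ ∀ (K₂ : Type) [Field K₂] [Algebra K K₂] [Algebra K₂ K']
        [Algebra k K₂] [IsScalarTower k K K₂] [IsScalarTower K K₂ K'] [FiniteDimensional K K₂]
        [IsGalois K K₂] [Algebra R K₂] [IsScalarTower R K K₂],
        (∀ g : K₂ ≃ₐ[K] K₂, g ^ p ^ n = 1) →
        (∀ y : Place k K₂, algebraMap K K₂ h ∈ y.1 → y.1.inertiaSubgroup K = ⊥) →
        FrEq R K K₂ v.1 x v.2 := by
  have hM := hh.isModel R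
  have := hM.ded
  have := hM.frac
  have := hM.finq
  have := hM.inf
  let : Algebra R K₁ := ((algebraMap K K₁).comp (algebraMap R K)).toAlgebra
  have : IsScalarTower R K K₁ := .of_algebraMap_eq fun _ => rfl
  have : IsScalarTower k R K₁ := .of_algebraMap_eq fun c => by
    rw [IsScalarTower.algebraMap_apply k K K₁, IsScalarTower.algebraMap_apply R K K₁,
      ← IsScalarTower.algebraMap_apply k R K]
  let G₁ := K₁ ≃ₐ[K] K₁
  have := smulCommClass_of_isGaloisGroup (K := K) K₁ R G₁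
  have := faithfulSMul_integralClosure (K := K) K₁ R
  let B₁ := integralClosure R K₁
  have hM₁ : IsModel k B₁ _ := hh.isModel_map K₁ R
  have := hM₁.ded
  have := hM₁.frac
  have := hM₁.finq
  have := hM₁.inf
  have : IsGaloisGroup G₁ R B₁ := IsGaloisGroup.of_isFractionRing G₁ R B₁ K K₁
  have hin₁ : ∀ w : HeightOneSpectrum B₁, w.asIdeal.inertia G₁ = ⊥ := fun w =>
    inertia_eq_bot (k := k) (K := K₁) (K₀ := K) (fun _ _ => rfl) w
      (hun₁ _ ((hM₁.mem_iff _).2 (algebraMap_mem_plc w)))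
  obtain ⟨F, -⟩ := hM.filt
  obtain ⟨F₁, -⟩ := hM₁.filt
  obtain ⟨x₁, hρ, hx₁⟩ : ∃ x₁ : HeightOneSpectrum B₁,
      2 * Module.finrank k⟮h⟯ K < pdeg k (x₁.under R) ∧ ¬ IsArithFrobAt R (1 : G₁) x₁.asIdeal := by
    by_contra! hall
    refine not_finite_nonsplit k F F₁ hin₁ hG₁
      (finite_pdeg_le k (2 * Module.finrank k⟮h⟯ K)).toFinset fun w hw => hall w ?_
    simpa using hw
  have hS₁ : ∃ y : HeightOneSpectrum B₁, ¬ p ∣ pdeg k y :=
    have := isIntegralClosure_map K₁ h R B₁ (k := k)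
    (hh.map K₁).exists_not_dvd hgeom₁ B₁ Fact.out
  obtain ⟨Q, hQ⟩ := hh.exists_poly_lser_one hgeom R
  refine ⟨(x₁.under R).asIdeal, _, (finite_pdeg_le k (pdeg k (x₁.under R))).image
    fun v : HeightOneSpectrum R => (v.asIdeal, pdeg k (x₁.under R) / pdeg k v), ?_⟩
  intro n hn K' _ _ _ _ _ _ _ _ _ _ e hun P hP Ω _ _ _ ψ hψ hτ
  have hp : p.Prime := Fact.out
  have : NeZero (p ^ (n + 1)) := ⟨pow_ne_zero _ hp.ne_zero⟩
  have : IsScalarTower k R K' := .of_algebraMap_eq fun c => by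
    rw [IsScalarTower.algebraMap_apply k K K', IsScalarTower.algebraMap_apply R K K',
      ← IsScalarTower.algebraMap_apply k R K]
  have : IsScalarTower R K₁ K' := .of_algebraMap_eq fun c => by
    rw [IsScalarTower.algebraMap_apply R K K', IsScalarTower.algebraMap_apply R K K₁,
      ← IsScalarTower.algebraMap_apply K K₁ K']
  let G := Multiplicative (ZMod (p ^ (n + 1)))
  let : MulSemiringAction G K' := MulSemiringAction.compHom K' e.symm.toMonoidHom
  have hGal : IsGaloisGroup G K K' := IsGaloisGroup.of_mulEquiv_algEquiv e.symm fun _ _ => rfl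
  have := hGal.faithful
  have := smulCommClass_of_isGaloisGroup (K := K) K' R G
  have := faithfulSMul_integralClosure (K := K) K' R
  let B := integralClosure R K'
  have hM' : IsModel k B _ := hh.isModel_map K' R
  have := hM'.ded
  have := hM'.frac
  have := hM'.finq
  have := hM'.inf
  have : IsGaloisGroup G R B := IsGaloisGroup.of_isFractionRing G R B K K'
  have hin : ∀ w : HeightOneSpectrum B, w.asIdeal.inertia G = ⊥ := fun w =>
    inertia_eq_bot (k := k) (K := K') (K₀ := K) (fun _ _ => rfl) w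
      (hun _ ((hM'.mem_iff _).2 (algebraMap_mem_plc w)))
  let f := (IsScalarTower.toAlgHom R K₁ K').mapIntegralClosure
  let : Algebra B₁ B := f.toRingHom.toAlgebra
  have : IsScalarTower R B₁ B := .of_algebraMap_eq fun r => (f.commutes r).symm
  have : FaithfulSMul B₁ B := (faithfulSMul_iff_algebraMap_injective B₁ B).2 fun x y hxy =>
    Subtype.ext ((algebraMap K₁ K').injective (congrArg Subtype.val hxy))
  obtain ⟨Pl, -, -, hpos, hdeg, hZ⟩ := zeta_mul_eq (hh.map K') hM'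
  have hu : IsUnit (1 + p ^ n : ZMod (p ^ (n + 1))) := by
    refine IsNilpotent.isUnit_one_add ⟨n + 1, ?_⟩
    rw [← pow_mul, mul_comm, pow_mul, ← Nat.cast_pow, ZMod.natCast_self, zero_pow (by omega)]
  obtain ⟨a, hfrob, hx, v, hv, hv'⟩ := exists_wit k (B := B) (G := G) F F₁ hin₁ hin hG₁ hexp₁
    (MulEquiv.refl _) hS₁ x₁ hx₁ hρ (E := ∏ O ∈ Pl, (1 - X ^ O.degree))
    (by rw [Polynomial.coe_mul, hP, mul_assoc, hZ]) hQ (isOfFinOrder_of_mem_roots Pl hpos) (by
      refine (natDegree_prod_one_sub_le _ _).trans (hdeg.trans (le_of_eq ?_))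
      rw [finrank_adjoin_map, ← IsGalois.card_aut_eq_finrank K K', Nat.card_congr e.toEquiv,
        Nat.card_eq_fintype_card, Fintype.card_multiplicative, ZMod.card]) hψ hu hτ
  simp only [MulEquiv.refl_apply] at hx hv'
  have hpow : (a v.asIdeal ^ (pdeg k (x₁.under R) / pdeg k v)) ^ (1 + p ^ n) =
      a (x₁.under R).asIdeal := by
    apply Multiplicative.toAdd.injective
    rw [toAdd_pow, toAdd_pow, nsmul_eq_mul, nsmul_eq_mul, ← hv']
    push_cast
    rfl
  have hlift : ∀ y : HeightOneSpectrum R, ∃ w : HeightOneSpectrum B, w.under R = y := by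
    intro y
    have := y.isMaximal
    obtain ⟨P, hP, hPw⟩ := Ideal.exists_maximal_ideal_liesOver_of_isIntegral (S := B) y.asIdeal
    exact ⟨⟨P, hP.isPrime, Ideal.ne_bot_of_liesOver_of_ne_bot y.ne_bot P⟩,
      HeightOneSpectrum.ext hPw.over.symm⟩
  refine ⟨_, ⟨v, hv, rfl⟩, fun hE => ?_, ?_⟩
  · obtain ⟨w, hw⟩ := hlift v
    obtain ⟨w', hw'⟩ := hlift (x₁.under R)
    have h1 := hfrob w
    have h2 := hfrob w'
    rw [hw] at h1
    rw [hw'] at h2
    have h3 := hE (e.symm (a v.asIdeal)) (e.symm (a (x₁.under R).asIdeal)) w.asIdeal w'.asIdeal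
      w.isPrime w'.isPrime (congrArg HeightOneSpectrum.asIdeal hw)
      (congrArg HeightOneSpectrum.asIdeal hw') (fun y => h1 y) (fun y => h2 y)
    rw [← map_pow, e.symm.injective.eq_iff] at h3
    simp only at h3
    rw [h3, pow_add _ 1 (p ^ n), pow_one, mul_eq_left] at hpow
    have h4 := congrArg Multiplicative.toAdd hpow
    rw [toAdd_pow, nsmul_eq_mul, toAdd_one, hx.mul_left_eq_zero, ZMod.natCast_eq_zero_iff,
      Nat.pow_dvd_pow_iff_le_right hp.one_lt] at h4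
    omega
  · intro K₂ _ _ _ _ _ _ _ _ _ _ hexp₂ hun₂
    have : IsScalarTower k R K₂ := .of_algebraMap_eq fun c => by
      rw [IsScalarTower.algebraMap_apply k K K₂, IsScalarTower.algebraMap_apply R K K₂,
        ← IsScalarTower.algebraMap_apply k R K]
    have : IsScalarTower R K₂ K' := .of_algebraMap_eq fun c => by
      rw [IsScalarTower.algebraMap_apply R K K', IsScalarTower.algebraMap_apply R K K₂,
        ← IsScalarTower.algebraMap_apply K K₂ K']
    let G₂ := K₂ ≃ₐ[K] K₂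
    have := faithfulSMul_integralClosure (K := K) K₂ R
    let B₂ := integralClosure R K₂
    have hM₂ : IsModel k B₂ _ := hh.isModel_map K₂ R
    have := hM₂.ded
    have := hM₂.frac
    have := hM₂.finq
    have := hM₂.inf
    have : IsGaloisGroup G₂ R B₂ := IsGaloisGroup.of_isFractionRing G₂ R B₂ K K₂
    have hin₂ : ∀ w : HeightOneSpectrum B₂, w.asIdeal.inertia G₂ = ⊥ := fun w =>
      inertia_eq_bot (k := k) (K := K₂) (K₀ := K) (fun _ _ => rfl) w
        (hun₂ _ ((hM₂.mem_iff _).2 (algebraMap_mem_plc w)))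
    let f₂ := (IsScalarTower.toAlgHom R K₂ K').mapIntegralClosure
    let : Algebra B₂ B := f₂.toRingHom.toAlgebra
    have : IsScalarTower R B₂ B := .of_algebraMap_eq fun r => (f₂.commutes r).symm
    have : FaithfulSMul B₂ B := (faithfulSMul_iff_algebraMap_injective B₂ B).2 fun x y hxy =>
      Subtype.ext ((algebraMap K₂ K').injective (congrArg Subtype.val hxy))
    have huniq : ∀ (y : HeightOneSpectrum R) (σ : G₂) (P : Ideal B₂), P.IsPrime →
        P.under R = y.asIdeal → IsArithFrobAt R σ P →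
        σ = IsGaloisGroup.restrictHom G G₂ R B₂ B (a y.asIdeal) := by
      intro y σ P hP hPy hσ
      have hP0 : P ≠ ⊥ := by
        rintro rfl
        exact y.ne_bot (by rw [← hPy, Ideal.under_bot])
      have h1 := frob_res (G₁ := G₂) hfrob (⟨P, hP, hP0⟩ : HeightOneSpectrum B₂)
      have h2 := hσ.mul_inv_mem_inertia h1
      rw [hin₂ ⟨P, hP, hP0⟩, Subgroup.mem_bot, mul_inv_eq_one] at h2
      rw [h2, ← hPy]
      rfl
    intro σ τ P Q hP hQ hPv hQx hσ hτ'
    rw [huniq v σ P hP hPv hσ, huniq _ τ Q hQ hQx hτ', ← hpow, map_pow, map_pow,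
      pow_add _ 1 (p ^ n), pow_one, hexp₂, mul_one]

lemma exists_pow_eq {p n q : ℕ} (hp : p.Prime) (hn : 1 ≤ n) (hq : q ∣ p ^ (n + 1)) (hq1 : 1 < q)
    (hs : ∀ s c, q ∣ p ^ s * c → ¬ p ∣ c → 1 ≤ s ∧ s + 2 ≤ s * p) (w : ZMod (p ^ (n + 1)))
    (h1 : ZMod.castHom hq (ZMod q) w = 1) (h2 : w ≠ 1) : ∃ t : ℕ, w ^ t = 1 + p ^ n := by
  have : NeZero (p ^ (n + 1)) := ⟨pow_ne_zero _ hp.ne_zero⟩
  obtain ⟨m, hm, rfl⟩ : ∃ m < p ^ (n + 1), (m : ZMod (p ^ (n + 1))) = w :=
    ⟨w.val, w.val_lt, ZMod.natCast_zmod_val w⟩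
  rw [map_natCast, ← Nat.cast_one, ZMod.natCast_eq_natCast_iff] at h1
  have hm0 : 1 ≤ m := by
    rcases Nat.eq_zero_or_pos m with rfl | h
    · have := Nat.le_of_dvd one_pos ((Nat.modEq_iff_dvd' zero_le_one).1 h1)
      omega
    · exact h
  have hm1 : m - 1 ≠ 0 := fun h => h2 (by rw [show m = 1 by omega, Nat.cast_one])
  obtain ⟨s, c, hc, hsc⟩ := Nat.exists_eq_pow_mul_and_not_dvd hm1 p hp.ne_one
  obtain ⟨s1, s2⟩ := hs s c (hsc ▸ (Nat.modEq_iff_dvd' hm0).1 h1.symm) hc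
  have hc0 : 0 < c := Nat.pos_of_ne_zero (by rintro rfl; simp at hc)
  have s3 : s ≤ n := by
    have : p ^ s < p ^ (n + 1) := lt_of_le_of_lt (Nat.le_mul_of_pos_right _ hc0) (by omega)
    have := (Nat.pow_lt_pow_iff_right hp.one_lt).1 this
    omega
  have e0 : (p : ZMod (p ^ (n + 1))) ^ n * p = 0 := by
    rw [← pow_succ, ← Nat.cast_pow, ZMod.natCast_self]
  obtain ⟨y, hy⟩ := ZMod.exists_one_add_mul_pow_prime_pow_eq (R := ZMod (p ^ (n + 1)))
    (u := (p : ZMod (p ^ (n + 1))) ^ s) (v := p) hp (dvd_pow_self _ (by omega))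
    (by rw [← pow_succ', ← pow_succ, ← pow_mul]; exact pow_dvd_pow _ s2) c (n - s)
  have e1 : (m : ZMod (p ^ (n + 1))) ^ p ^ (n - s) = 1 + p ^ n * c := by
    have : (m : ZMod (p ^ (n + 1))) = 1 + p ^ s * c := by
      rw [show m = 1 + p ^ s * c by omega]
      push_cast
      rfl
    rw [this, hy, ← pow_add, Nat.sub_add_cancel s3]
    linear_combination y * e0
  have e2 : ∀ t : ℕ, (1 + p ^ n * c : ZMod (p ^ (n + 1))) ^ t = 1 + p ^ n * (c * t) := by
    intro t
    obtain ⟨n', rfl⟩ : ∃ n', n = n' + 1 := ⟨n - 1, by omega⟩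
    induction t with
    | zero => simp
    | succ t ih =>
      rw [pow_succ _ t, ih]
      push_cast
      linear_combination ((p : ZMod (p ^ (n' + 1 + 1))) ^ n' * c * c * t) * e0
  have hcu : IsUnit (c : ZMod (p ^ (n + 1))) :=
    (ZMod.isUnit_iff_coprime _ _).2 ((hp.coprime_iff_not_dvd.2 hc).symm.pow_right _)
  obtain ⟨d, hd⟩ := hcu.exists_right_inv
  refine ⟨p ^ (n - s) * d.val, ?_⟩
  rw [pow_mul, e1, e2, ZMod.natCast_zmod_val, hd, mul_one]

lemma ncard_le_totient {p n : ℕ} (hp : p.Prime) (hn : 1 ≤ n) (H : Submonoid (ZMod (p ^ (n + 1))))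
    (hH : ∀ u ∈ H, IsUnit u) (h0 : (1 + p ^ n : ZMod (p ^ (n + 1))) ∉ H) :
    (H : Set (ZMod (p ^ (n + 1)))).ncard ≤ (2 * p).totient := by
  have : NeZero (p ^ (n + 1)) := ⟨pow_ne_zero _ hp.ne_zero⟩
  obtain ⟨q, hq, hq1, hqt, hs⟩ : ∃ q, q ∣ p ^ (n + 1) ∧ 1 < q ∧ q.totient = (2 * p).totient ∧
      ∀ s c, q ∣ p ^ s * c → ¬ p ∣ c → 1 ≤ s ∧ s + 2 ≤ s * p := by
    rcases hp.eq_two_or_odd' with rfl | hodd
    · refine ⟨2 ^ 2, pow_dvd_pow _ (by omega), by norm_num, rfl, fun s c h hc => ?_⟩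
      have h1 := Nat.Coprime.dvd_of_dvd_mul_right
        ((Nat.prime_two.coprime_iff_not_dvd.2 hc).pow_left 2) h
      have := (Nat.pow_dvd_pow_iff_le_right one_lt_two).1 h1
      omega
    · refine ⟨p, dvd_pow_self _ (by omega), hp.one_lt, (Nat.totient_two_mul_of_odd hodd).symm,
        fun s c h hc => ?_⟩
      have h1 : 1 ≤ s := by
        rcases Nat.eq_zero_or_pos s with rfl | h1
        · exact absurd (by simpa using h) hc
        · exact h1
      have h3 : 3 ≤ p := by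
        have := hp.two_le
        obtain ⟨r, hr⟩ := hodd
        omega
      exact ⟨h1, by nlinarith⟩
  have : NeZero q := ⟨by omega⟩
  have hc : (Set.range (Units.val : (ZMod q)ˣ → ZMod q)).ncard = q.totient := by
    rw [Set.ncard_range_of_injective Units.val_injective, Nat.card_eq_fintype_card,
      ZMod.card_units_eq_totient]
  rw [← hqt, ← hc]
  refine Set.ncard_le_ncard_of_injOn (ZMod.castHom hq (ZMod q))
    (fun u hu => ((hH u hu).map (ZMod.castHom hq (ZMod q)))) ?_ (Set.toFinite _)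
  intro u hu u' hu' he
  obtain ⟨m, hm, hm1⟩ := (isOfFinOrder_iff_isUnit.2 (hH u' hu')).exists_pow_eq_one
  obtain ⟨m, rfl⟩ : ∃ m', m = m' + 1 := ⟨m - 1, by omega⟩
  by_contra hne
  obtain ⟨t, ht⟩ := exists_pow_eq hp hn hq hq1 hs (u * u' ^ m)
    (by rw [map_mul, he, ← map_mul, ← pow_succ', hm1, map_one])
    (fun h => hne (by rw [← mul_one u, ← hm1, pow_succ u' m, ← mul_assoc, h, one_mul]))
  exact h0 (ht ▸ pow_mem (mul_mem hu (pow_mem hu' m)) t)

lemma exists_factor (p n : ℕ) [Fact p.Prime] (hn : 1 ≤ n) (F : Type) [Field F] [CharZero F]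
    (P : ℚ[X])
    (hP : ∀ (ψ : AddChar (ZMod (p ^ (n + 1))) (AlgebraicClosure F)) (_ : ψ.IsPrimitive),
      ¬ ∀ z ∈ (P.map (algebraMap ℚ (AlgebraicClosure F))).roots,
        ∃ τ : AlgebraicClosure F →+* AlgebraicClosure F, τ z = z ∧
          ∀ y, τ (ψ y) = ψ ((1 + p ^ n) * y)) :
    ∃ f : F[X], Irreducible f ∧ f ∣ P.map (algebraMap ℚ F) ∧
      Module.finrank F (CyclotomicField (p ^ (n + 1)) F) ≤ (2 * p).totient * f.natDegree := by
  have hp : p.Prime := Fact.out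
  have : NeZero (p ^ (n + 1)) := ⟨pow_ne_zero _ hp.ne_zero⟩
  let Ω := AlgebraicClosure F
  obtain ⟨ζ, hζ⟩ := HasEnoughRootsOfUnity.exists_primitiveRoot Ω (p ^ (n + 1))
  obtain ⟨ψ, hψd⟩ : ∃ ψ, AddChar.zmodChar (p ^ (n + 1)) hζ.pow_eq_one = ψ := ⟨_, rfl⟩
  have hψ : ψ.IsPrimitive := hψd ▸ AddChar.zmodChar_primitive_of_primitive_root _ hζ
  have h1 := hP ψ hψ
  have hψζ : ∀ y, ψ y = ζ ^ y.val := fun y => by rw [← hψd, AddChar.zmodChar_apply]
  push Not at h1
  obtain ⟨z, hz, hzτ⟩ := h1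
  have hi : IsIntegral F z := Algebra.IsIntegral.isIntegral z
  refine ⟨minpoly F z, minpoly.irreducible hi, minpoly.dvd F z ?_, ?_⟩
  · have := (isRoot_of_mem_roots hz).eq_zero
    rw [aeval_def, eval₂_map, ← eval_map, Subsingleton.elim
      ((algebraMap F Ω).comp (algebraMap ℚ F)) (algebraMap ℚ Ω)]
    exact this
  have := adjoin.finiteDimensional hi
  let H : Submonoid (ZMod (p ^ (n + 1))) :=
    { carrier := {u | ∃ τ : Ω ≃ₐ[F⟮z⟯] Ω, ∀ y, τ (ψ y) = ψ (u * y)}
      mul_mem' := by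
        rintro u u' ⟨τ, hτ⟩ ⟨τ', hτ'⟩
        exact ⟨τ * τ', fun y => by rw [AlgEquiv.mul_apply, hτ', hτ, mul_assoc]⟩
      one_mem' := ⟨1, fun y => by simp⟩ }
  have h2 := ncard_le_totient hp hn H ?_ ?_
  · have : IsAlgClosure F⟮z⟯ Ω := ⟨inferInstance, Algebra.IsAlgebraic.tower_top (K := F) _⟩
    have h3 := finrank_adjoin_le F⟮z⟯ Ω hζ
    have h4 : Module.finrank F⟮z⟯ F⟮z⟯⟮ζ⟯ ≤ (2 * p).totient := by
      refine h3.trans (le_trans (Set.ncard_le_ncard ?_ (Set.toFinite _)) h2)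
      rintro u ⟨τ, hτ⟩
      refine ⟨τ, fun y => ?_⟩
      conv_rhs => rw [← ZMod.natCast_zmod_val u, ← ZMod.natCast_zmod_val y, ← Nat.cast_mul, ← hψd]
      rw [AddChar.zmodChar_apply', hψζ, map_pow, pow_mul, hτ]
    have hi' : IsIntegral F⟮z⟯ ζ := Algebra.IsIntegral.isIntegral ζ
    have := adjoin.finiteDimensional hi'
    have : FiniteDimensional F F⟮z⟯⟮ζ⟯ := Module.Finite.trans F⟮z⟯ _
    have hζ' : IsPrimitiveRoot (AdjoinSimple.gen F⟮z⟯ ζ) (p ^ (n + 1)) :=
      IsPrimitiveRoot.of_map_of_injective (f := algebraMap F⟮z⟯⟮ζ⟯ Ω) hζ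
        (algebraMap F⟮z⟯⟮ζ⟯ Ω).injective
    have := hζ'.intermediateField_adjoin_isCyclotomicExtension F
    rw [(IsCyclotomicExtension.algEquiv {p ^ (n + 1)} F (CyclotomicField (p ^ (n + 1)) F)
      F⟮AdjoinSimple.gen F⟮z⟯ ζ⟯).toLinearEquiv.finrank_eq, ← adjoin.finrank hi, mul_comm]
    refine le_trans ?_ (Nat.mul_le_mul_left _ h4)
    rw [Module.finrank_mul_finrank]
    exact Submodule.finrank_le (F⟮AdjoinSimple.gen F⟮z⟯ ζ⟯).toSubalgebra.toSubmodule
  · rintro u ⟨τ, hτ⟩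
    refine (IsLeftRegular.isUnit_of_finite ?_)
    refine isLeftRegular_of_non_zero_divisor u fun y hy => ?_
    have := hτ y
    rw [hy, AddChar.map_zero_eq_one, map_eq_one_iff _ τ.injective] at this
    exact (hψ.zmod_char_eq_one_iff _ y).1 this
  · rintro ⟨τ, hτ⟩
    obtain ⟨y, hy⟩ := hzτ τ.toRingEquiv.toRingHom (τ.commutes (AdjoinSimple.gen F z))
    exact hy (hτ y)

theorem one_root (p : ℕ) [Fact p.Prime] (k K L : Type) [Field k] [Finite k] [CharP k p]
    [Field K] [Field L] [Algebra k K] [Algebra K L] [Algebra k L] [IsScalarTower k K L]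
    [Algebra.EssFiniteType k K] (htr : Algebra.trdeg k K = 1)
    (T : ℕ → IntermediateField K L) (hmono : Monotone T)
    (hgal : ∀ n, IsGalois K (T n))
    (hcyc : ∀ n, Nonempty ((T n ≃ₐ[K] T n) ≃* Multiplicative (ZMod (p ^ n))))
    (hgeom : ∀ n, algebraicClosure k (T n) = ⊥)
    (hS : (ramificationLocus k T).Finite) :
    ∃ P : ℕ → ℚ[X],
      (∀ n, (P n : PowerSeries ℚ) =
        (1 - PowerSeries.X) * (1 - (Nat.card k : PowerSeries ℚ) * PowerSeries.X) *
          zetaSeries k (T n)) ∧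
      ∀ᶠ n in Filter.atTop, ∀ (F : Type) [Field F] [CharZero F], ∃ f : F[X], Irreducible f ∧
        f ∣ (P n).map (algebraMap ℚ F) ∧
        Module.finrank F (CyclotomicField (p ^ n) F) ≤ (2 * p).totient * f.natDegree := by
  have hp : p.Prime := Fact.out
  have hcard : ∀ n, Nat.card (T n ≃ₐ[K] T n) = p ^ n := fun n => by
    obtain ⟨e⟩ := hcyc n
    rw [Nat.card_congr e.toEquiv, Nat.card_congr Multiplicative.toAdd, Nat.card_zmod]
  have hfd : ∀ n, FiniteDimensional K (T n) := fun n => by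
    have : Finite (T n ≃ₐ[K] T n) :=
      Nat.finite_of_card_ne_zero (hcard n ▸ pow_ne_zero _ hp.ne_zero)
    exact IsGaloisGroup.finiteDimensional (T n ≃ₐ[K] T n) K (T n)
  have hgeom₀ : algebraicClosure k K = ⊥ := by
    rw [eq_bot_iff]
    intro x hx
    have : algebraMap K (T 0) x ∈ algebraicClosure k (T 0) :=
      mem_algebraicClosure_iff.2 ((mem_algebraicClosure_iff.1 hx).algebraMap)
    rw [hgeom 0, IntermediateField.mem_bot] at this
    obtain ⟨c, hc⟩ := this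
    rw [IsScalarTower.algebraMap_apply k K (T 0)] at hc
    exact ⟨c, (algebraMap K (T 0)).injective hc⟩
  obtain ⟨h₀, hh₀⟩ := exists_isChart htr
  obtain ⟨h, hh, hSh⟩ := hh₀.exists_poles_superset p hS
  have hun : ∀ n, ∀ y : Place k (T n), algebraMap K (T n) h ∈ y.1 →
      y.1.inertiaSubgroup K = ⊥ := by
    intro n y hy
    by_contra hne
    let x : Place k K := ⟨y.1.comap (algebraMap K (T n)), fun htop => y.2.1 (eq_top_iff.2
      fun z _ => mem_valuationSubring_of_isIntegral y.1 (A := K)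
        (fun a => ValuationSubring.mem_comap.1 (htop ▸ ValuationSubring.mem_top a))
        (Algebra.IsIntegral.isIntegral z)), fun c => by
      rw [ValuationSubring.mem_comap, ← IsScalarTower.algebraMap_apply]
      exact y.2.2 c⟩
    exact hSh x ⟨n, y, rfl, hne⟩ hy
  have hch : ∀ n, IsChart k (algebraMap K (T n) h) := fun n =>
    have := (hgal n).to_isSeparable
    hh.map (T n)
  choose P hP using fun n => (hch n).exists_poly_zetaSeries p (hgeom n)
  refine ⟨P, hP, ?_⟩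
  obtain ⟨x, V, hV, hlay⟩ := exists_layer p (T 1) hh (Rg k h) hgeom₀ (hgeom 1)
    (by rw [hcard, pow_one]; exact hp.one_lt)
    (fun g => by have := pow_card_eq_one' (x := g); rwa [hcard, pow_one] at this) (hun 1)
  have hev : ∀ v ∈ V, ∀ᶠ n in Filter.atTop, FrEq (Rg k h) K (T (n + 1)) v.1 x v.2 ∨
      ∃ m ≤ n, ¬ FrEq (Rg k h) K (T m) v.1 x v.2 := by
    intro v _
    by_cases hv : ∀ m, FrEq (Rg k h) K (T m) v.1 x v.2
    · exact Filter.Eventually.of_forall fun n => Or.inl (hv _)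
    · obtain ⟨m, hm⟩ := not_forall.1 hv
      filter_upwards [Filter.eventually_ge_atTop m] with n hn using Or.inr ⟨m, hn, hm⟩
  obtain ⟨n₀, hn₀⟩ := Filter.eventually_atTop.1 ((Filter.eventually_all_finite hV).2 hev)
  filter_upwards [Filter.eventually_ge_atTop (n₀ + 2)] with n hn F _ _
  obtain ⟨n, rfl⟩ : ∃ m, n = m + 1 := ⟨n - 1, by omega⟩
  obtain ⟨e⟩ := hcyc (n + 1)
  let : Algebra (T 1) (T (n + 1)) :=
    (IntermediateField.inclusion (hmono (by omega : 1 ≤ n + 1))).toRingHom.toAlgebra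
  have : IsScalarTower K (T 1) (T (n + 1)) := .of_algebraMap_eq fun _ => rfl
  have := hfd (n + 1)
  have := hgal (n + 1)
  refine exists_factor p n (by omega) F (P (n + 1)) fun ψ hψ hτ => ?_
  have : CharZero (AlgebraicClosure F) :=
    charZero_of_injective_algebraMap (algebraMap F (AlgebraicClosure F)).injective
  obtain ⟨v, hv, h1, h2⟩ := hlay n (by omega) (T (n + 1)) e (hun (n + 1)) (P (n + 1)) (hP (n + 1))
    (AlgebraicClosure F) ψ hψ hτ
  obtain ⟨m, hm, h3⟩ := (hn₀ n (by omega) v hv).resolve_left h1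
  let : Algebra (T m) (T (n + 1)) :=
    (IntermediateField.inclusion (hmono (by omega : m ≤ n + 1))).toRingHom.toAlgebra
  have : IsScalarTower K (T m) (T (n + 1)) := .of_algebraMap_eq fun _ => rfl
  have := hfd m
  have := hgal m
  refine h3 (h2 (T m) (fun g => ?_) (hun m))
  obtain ⟨c, rfl⟩ := Nat.exists_eq_add_of_le hm
  have := pow_card_eq_one' (x := g)
  rw [hcard] at this
  rw [pow_add, pow_mul, this, one_pow]

end Pool.Agent.MP_51ecca_nt
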