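import Pool.Agent.MP_51ecca_nt.Count2

set_option linter.unusedSectionVars false

namespace Pool.Agent.MP_51ecca_nt

open PowerSeries IsDedekindDomain

lemma exists_poly_of_eventually_zero {Ω : Type*} [CommRing Ω] (f : Ω⟦X⟧) (d₀ : ℕ)
    (h : ∀ d, d₀ ≤ d → coeff d f = 0) : ∃ Q : Polynomial Ω, (Q : Ω⟦X⟧) = f := by
  refine ⟨trunc d₀ f, ?_⟩
  ext d
  rw [Polynomial.coeff_coe, coeff_trunc]
  split_ifs with hd
  · rfl
  · exact (h d (by omega)).symm

lemma constantCoeff_geom {Ω : Type*} [CommRing Ω] (a : Ω) (d : ℕ) :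
    constantCoeff (geom a d) = 0 := by
  rw [← coeff_zero_eq_constantCoeff_apply, coeff_geom]
  simp

namespace Filt

variable {k R K : Type*} [Field k] [Finite k] [CommRing R] [IsDedekindDomain R] [Infinite R]
  [Ring.HasFiniteQuotients R] [Field K] [Algebra k K] [Algebra R K] [Algebra k R]
  [IsScalarTower k R K] [IsFractionRing R K] (F : Filt k R K)

lemma rho_pos : 0 < F.ρ := by
  obtain ⟨j, hj⟩ := F.exhaust (algebraMap R K 1)
  have h1 : (1 : R) ∈ F.V (j.toNat + 1) := F.mem_V.2 (F.mono (by push_cast; omega) hj)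
  have : Nontrivial (F.V (j.toNat + 1)) := ⟨⟨⟨1, h1⟩, 0, by simp⟩⟩
  have h2 : 0 < Module.finrank k (F.V (j.toNat + 1)) := Module.finrank_pos
  rw [F.finrank_V] at h2
  exact Nat.pos_of_mul_pos_right h2

lemma exists_ideg_eq_rho : ∃ A : Ideal R, A ≠ ⊥ ∧ ideg k A = F.ρ := by
  obtain ⟨t, ht, h⟩ := F.exists_deg_one
  exact ⟨Ideal.span {t}, by simpa using ht, by simpa using F.ideg_span ht (n := 1) h⟩

lemma exists_poly_lser {Ω : Type*} [CommRing Ω] [IsDomain Ω] [CharZero Ω] {M : ℤ}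
    (hM : (F.κ : ℤ) < M) {ψ : Ideal R → Ω} (hψ : IsMult ψ)
    (hrel : ∀ I J : Ideal R, I ≠ ⊥ → F.Rel M I J → ψ I = ψ J) {A A' : Ideal R} (hA : A ≠ ⊥)
    (hA' : A' ≠ ⊥) (hd : ideg k A = ideg k A') (hne : ψ A ≠ ψ A') :
    ∃ L : Polynomial Ω, (L : Ω⟦X⟧) = lser k ψ := by
  obtain ⟨d₁, h₁⟩ := coeff_lser_add hM hψ hrel hA
  obtain ⟨d₂, h₂⟩ := coeff_lser_add hM hψ hrel hA'
  refine exists_poly_of_eventually_zero _ (max d₁ d₂) fun d hd' => ?_
  have e := (h₁ d (le_of_max_le_left hd')).symm.trans (hd ▸ h₂ d (le_of_max_le_right hd'))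
  have hq : (Nat.card k : Ω) ^ ideg k A ≠ 0 := pow_ne_zero _ (by exact_mod_cast Nat.card_pos.ne')
  rw [mul_assoc, mul_assoc, mul_right_inj' hq, mul_eq_mul_right_iff] at e
  exact e.resolve_left hne

include F in
lemma coeff_zeta_add {A : Ideal R} (hA : A ≠ ⊥) : ∃ d₀ : ℕ, ∀ d, d₀ ≤ d →
    coeff (d + ideg k A) (lser k fun _ : Ideal R => (1 : ℚ)) =
      (Nat.card k : ℚ) ^ ideg k A * coeff d (lser k fun _ : Ideal R => (1 : ℚ)) := by
  simpa using coeff_lser_add (F := F) (M := F.κ + 1) (by omega) (IsMult.one (M := ℚ))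
    (fun _ _ _ _ => rfl) hA

include F in
lemma exists_poly_zeta {A : Ideal R} (hA : A ≠ ⊥) (hpos : 0 < ideg k A) :
    ∃ Q : Polynomial ℚ, (Q : ℚ⟦X⟧) =
      (1 - C ((Nat.card k : ℚ) ^ ideg k A) * X ^ ideg k A) * lser k (fun _ : Ideal R => (1 : ℚ)) ∧
      Q.eval (Nat.card k : ℚ)⁻¹ ≠ 0 := by
  obtain ⟨d₀, hd₀⟩ := F.coeff_zeta_add hA
  set δ := ideg k A with hδ
  set Z := lser k (fun _ : Ideal R => (1 : ℚ)) with hZ
  set q : ℚ := (Nat.card k : ℚ) with hq
  have hq0 : 0 < q := by rw [hq]; exact_mod_cast Nat.card_pos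
  obtain ⟨Q, hQ⟩ := exists_poly_of_eventually_zero ((1 - C (q ^ δ) * X ^ δ) * Z) (d₀ + δ)
    fun d hd => by
      obtain ⟨d, rfl⟩ : ∃ d', d = d' + δ := ⟨d - δ, by omega⟩
      rw [sub_mul, one_mul, map_sub, mul_assoc, coeff_C_mul, coeff_X_pow_mul, hd₀ d (by omega),
        sub_self]
  refine ⟨Q, hQ, fun h0 => ?_⟩
  obtain ⟨Q₁, hQ₁⟩ := Polynomial.dvd_iff_isRoot.2 h0
  have hne : (X - C q⁻¹ : ℚ⟦X⟧) ≠ 0 := by
    intro h
    have := congrArg (coeff 1) h
    simp [coeff_one_X] at this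
  have h1 : (∑ i ∈ Finset.range δ, C (q ^ (i + 1)) * X ^ i) * Z = -(Q₁ : ℚ⟦X⟧) := by
    apply mul_left_cancel₀ hne
    rw [mul_neg, ← Polynomial.coe_X, ← Polynomial.coe_C, ← Polynomial.coe_sub, ← Polynomial.coe_mul,
      ← hQ₁, hQ, Polynomial.coe_sub, Polynomial.coe_X, Polynomial.coe_C, ← mul_assoc, ← neg_mul]
    congr 1
    have h2 := mul_geom_sum (C q * X : ℚ⟦X⟧) δ
    have h3 : (X - C q⁻¹ : ℚ⟦X⟧) * C q = C q * X - 1 := by
      rw [sub_mul, ← map_mul, inv_mul_cancel₀ hq0.ne', map_one, mul_comm]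
    rw [neg_sub, map_pow, ← mul_pow, ← h2, ← h3, mul_assoc (X - C q⁻¹ : ℚ⟦X⟧)]
    congr 1
    rw [Finset.mul_sum]
    refine Finset.sum_congr rfl fun i _ => ?_
    rw [mul_pow, map_pow, pow_succ', mul_assoc]
  have hnn : ∀ d, 0 ≤ coeff d Z := fun d => by
    rw [hZ, coeff_lser]
    positivity
  have h4 := congrArg (coeff ((Q₁.natDegree + 1) * δ)) h1
  rw [map_neg, Polynomial.coeff_coe, Polynomial.coeff_eq_zero_of_natDegree_lt (by nlinarith),
    neg_zero, Finset.sum_mul, map_sum, Finset.sum_eq_zero_iff_of_nonneg] at h4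
  · have h5 := h4 0 (Finset.mem_range.2 hpos)
    rw [pow_zero, mul_one, coeff_C_mul, mul_eq_zero, hZ, coeff_lser] at h5
    refine h5.elim (by positivity) fun h6 => ?_
    rw [Finset.sum_const, nsmul_eq_mul, mul_one, Nat.cast_eq_zero, Finset.card_eq_zero] at h6
    have : A ^ (Q₁.natDegree + 1) ∈ idealsOfDeg k R ((Q₁.natDegree + 1) * δ) :=
      (mem_idealsOfDeg k).2 ⟨pow_ne_zero _ hA, ideg_pow k hA _⟩
    simp [h6] at this
  · intro i _
    rw [mul_assoc, coeff_C_mul, coeff_X_pow_mul']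
    split_ifs
    · exact mul_nonneg (by positivity) (hnn _)
    · simp

end Filt

section Galois

variable (k : Type*) {R B G : Type*} [Field k] [Finite k] [CommRing R] [CommRing B]
  [IsDedekindDomain R] [IsDedekindDomain B] [Infinite R] [Infinite B]
  [Ring.HasFiniteQuotients R] [Ring.HasFiniteQuotients B]
  [Algebra R B] [Algebra.IsIntegral R B] [Algebra k R] [Algebra k B] [IsScalarTower k R B]

lemma pdeg_eq_mul (w : HeightOneSpectrum B) :
    pdeg k w = pdeg k (w.under R) * w.asIdeal.inertiaDeg R := by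
  have := w.isMaximal
  have : (w.asIdeal.under R).IsMaximal := (w.under R).isMaximal
  let : Field (R ⧸ w.asIdeal.under R) := Ideal.Quotient.field _
  rw [Ideal.inertiaDeg_eq_of_isMaximal (w.asIdeal.under R)]
  exact (Module.finrank_mul_finrank k (R ⧸ w.asIdeal.under R) (B ⧸ w.asIdeal)).symm

variable [FaithfulSMul R B]

variable (B) in
lemma finite_fiber (v : HeightOneSpectrum R) :
    {w : HeightOneSpectrum B | w.under R = v}.Finite := by
  obtain ⟨t, htv, ht⟩ := Submodule.exists_mem_ne_zero_of_ne_bot v.ne_bot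
  refine (Ring.HasFiniteQuotients.finite_setOfPred_mem (algebraMap R B t)
    (by simpa using ht)).of_injOn (f := fun w => w.asIdeal) ?_ ?_
  · rintro w rfl
    exact htv
  · intro v _ w _ h
    exact HeightOneSpectrum.ext h

variable (B) in
/-- The primes above a given prime. -/
noncomputable def fiber (v : HeightOneSpectrum R) : Finset (HeightOneSpectrum B) :=
  (finite_fiber B v).toFinset

lemma mem_fiber {v : HeightOneSpectrum R} {w : HeightOneSpectrum B} :
    w ∈ fiber B v ↔ w.under R = v := by simp [fiber]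

lemma card_fiber (v : HeightOneSpectrum R) :
    (fiber B v).card = (v.asIdeal.primesOver B).ncard := by
  rw [← Set.ncard_coe_finset]
  refine Set.ncard_congr (fun w _ => w.asIdeal) ?_ ?_ ?_
  · intro w hw
    rw [Finset.mem_coe, mem_fiber] at hw
    subst hw
    exact ⟨w.isPrime, ⟨rfl⟩⟩
  · intro v w _ _ h
    exact HeightOneSpectrum.ext h
  · rintro P ⟨h1, h2⟩
    refine ⟨⟨P, h1, Ideal.ne_bot_of_liesOver_of_ne_bot v.ne_bot P⟩, ?_, rfl⟩
    rw [Finset.mem_coe, mem_fiber]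
    exact HeightOneSpectrum.ext h2.over.symm

lemma coeff_psum_eq_sum_fiber {Ω : Type*} [CommRing Ω] {r : ℕ} (T : Finset (HeightOneSpectrum R))
    (hT : ∀ v, pdeg k v ≤ r → v ∈ T) :
    coeff r (psum (pdeg k) fun _ : HeightOneSpectrum B => (1 : Ω)) =
      ∑ v ∈ T, ∑ w ∈ fiber B v, coeff r (geom (1 : Ω) (pdeg k w)) := by
  classical
  rw [← Finset.sum_biUnion]
  · refine coeff_psum _ _ _ fun w hw => ?_
    refine Finset.mem_biUnion.2 ⟨w.under R, hT _ ?_, mem_fiber.2 rfl⟩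
    have h1 := pdeg_eq_mul k (R := R) w
    have h2 := pdeg_pos k w
    rw [h1] at h2 hw
    exact (Nat.le_mul_of_pos_right _ (Nat.pos_of_mul_pos_left h2)).trans hw
  · intro v _ v' _ hne
    rw [Function.onFun, Finset.disjoint_left]
    intro w h h'
    exact hne ((mem_fiber.1 h).symm.trans (mem_fiber.1 h'))

variable [Group G] [Finite G] [MulSemiringAction G B] [IsGaloisGroup G R B]

omit [Algebra k R] [Algebra k B] [IsScalarTower k R B] in
lemma frob_pow_eq_one_iff (w : HeightOneSpectrum B) (hin : w.asIdeal.inertia G = ⊥) {σ : G}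
    (hσ : IsArithFrobAt R σ w.asIdeal) (m : ℕ) : σ ^ m = 1 ↔ w.asIdeal.inertiaDeg R ∣ m := by
  have := w.isMaximal
  have : (w.asIdeal.under R).IsMaximal := (w.under R).isMaximal
  let : Field (R ⧸ w.asIdeal.under R) := Ideal.Quotient.field _
  let : Field (B ⧸ w.asIdeal) := Ideal.Quotient.field _
  have := Ring.HasFiniteQuotients.finiteQuotient w.ne_bot
  have : Finite (R ⧸ w.asIdeal.under R) :=
    Ring.HasFiniteQuotients.finiteQuotient (w.under R).ne_bot
  let := Fintype.ofFinite (R ⧸ w.asIdeal.under R)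
  have key : ∀ (m : ℕ) (x : B), Ideal.Quotient.mk w.asIdeal (σ ^ m • x) =
      (FiniteField.frobeniusAlgHom (R ⧸ w.asIdeal.under R) (B ⧸ w.asIdeal) ^ m)
        (Ideal.Quotient.mk w.asIdeal x) := by
    intro m x
    induction m with
    | zero => simp
    | succ m ih =>
      rw [pow_succ', pow_succ', mul_smul, AlgHom.mul_apply, ← ih,
        FiniteField.coe_frobeniusAlgHom, ← Nat.card_eq_fintype_card]
      exact hσ.mk_apply _
  rw [Ideal.inertiaDeg_eq_of_isMaximal (w.asIdeal.under R), ← FiniteField.orderOf_frobeniusAlgHom,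
    orderOf_dvd_iff_pow_eq_one]
  constructor
  · intro h
    ext1 x
    obtain ⟨x, rfl⟩ := Ideal.Quotient.mk_surjective x
    rw [← key, h, one_smul, AlgHom.one_apply]
  · intro h
    rw [← Subgroup.mem_bot, ← hin]
    intro x
    have := key m x
    rw [h, AlgHom.one_apply, Ideal.Quotient.eq] at this
    exact this

open Classical in
lemma sum_fiber_geom {Ω : Type*} [CommRing Ω] (v : HeightOneSpectrum R) {σ : G}
    (hin : ∀ w : HeightOneSpectrum B, w.under R = v → w.asIdeal.inertia G = ⊥)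
    (hσ : ∀ w : HeightOneSpectrum B, w.under R = v → IsArithFrobAt R σ w.asIdeal) (r : ℕ) :
    ∑ w ∈ fiber B v, coeff r (geom (1 : Ω) (pdeg k w)) =
      if σ ^ (r / pdeg k v) = 1 then (Nat.card G : Ω) * coeff r (geom (1 : Ω) (pdeg k v))
      else 0 := by
  have hf : ∀ w ∈ fiber B v, w.asIdeal.inertiaDeg R = orderOf σ := fun w hw =>
    Nat.dvd_antisymm
      ((frob_pow_eq_one_iff w (hin w (mem_fiber.1 hw)) (hσ w (mem_fiber.1 hw)) _).1
        (pow_orderOf_eq_one σ))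
      (orderOf_dvd_of_pow_eq_one
        ((frob_pow_eq_one_iff w (hin w (mem_fiber.1 hw)) (hσ w (mem_fiber.1 hw)) _).2 dvd_rfl))
  have hd : ∀ w ∈ fiber B v, pdeg k w = pdeg k v * orderOf σ := fun w hw => by
    rw [pdeg_eq_mul k (R := R) w, mem_fiber.1 hw, hf w hw]
  have hcard : (fiber B v).card * orderOf σ = Nat.card G := by
    have := v.isMaximal
    obtain ⟨P, hP, hPv⟩ := Ideal.exists_maximal_ideal_liesOver_of_isIntegral (S := B) v.asIdeal
    let w : HeightOneSpectrum B := ⟨P, hP.isPrime, Ideal.ne_bot_of_liesOver_of_ne_bot v.ne_bot P⟩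
    have hw : w.under R = v := HeightOneSpectrum.ext hPv.over.symm
    have := Ring.HasFiniteQuotients.finiteQuotient v.ne_bot
    have h1 := Ideal.ncard_primesOver_mul_card_inertia_mul_finrank (G := G) v.asIdeal P
    have h2 : P.inertia G = ⊥ := hin w hw
    have h3 : P.inertiaDeg R = orderOf σ := hf w (mem_fiber.2 hw)
    rw [h2, h3, Subgroup.card_bot, mul_one, ← card_fiber] at h1
    exact h1
  rw [Finset.sum_congr rfl fun w hw => by rw [hd w hw], Finset.sum_const, coeff_geom, coeff_geom,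
    ← hcard, ← orderOf_dvd_iff_pow_eq_one]
  by_cases h1 : r ≠ 0 ∧ pdeg k v ∣ r
  · rw [if_pos h1]
    by_cases h2 : orderOf σ ∣ r / pdeg k v
    · rw [if_pos h2, if_pos ⟨h1.1, (Nat.dvd_div_iff_mul_dvd h1.2).1 h2⟩]
      simp only [one_pow, nsmul_eq_mul]
      push_cast
      ring
    · rw [if_neg h2, if_neg fun h => h2 ((Nat.dvd_div_iff_mul_dvd h1.2).2 h.2), smul_zero]
  · rw [if_neg h1, if_neg fun h => h1 ⟨h.1, (Dvd.intro _ rfl).trans h.2⟩]
    simp

lemma eval_prod_ne_zero {ι : Type*} (T : Finset ι) {deg : ι → ℕ} (hpos : ∀ i, 0 < deg i) :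
    (∏ i ∈ T, (1 - Polynomial.X ^ deg i : Polynomial ℚ)).eval (Nat.card k : ℚ)⁻¹ ≠ 0 := by
  rw [Polynomial.eval_prod, Finset.prod_ne_zero_iff]
  intro i _
  have h1 : (1 : ℚ) < Nat.card k := by exact_mod_cast one_lt_card k
  have h2 : (Nat.card k : ℚ)⁻¹ ^ deg i < 1 :=
    pow_lt_one₀ (by positivity) (inv_lt_one_of_one_lt₀ h1) (hpos i).ne'
  simp only [Polynomial.eval_sub, Polynomial.eval_one, Polynomial.eval_pow, Polynomial.eval_X]
  exact (sub_pos.2 h2).ne'

lemma ld_prod_one_sub {ι Ω : Type*} [CommRing Ω] (T : Finset ι) {deg : ι → ℕ}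
    (hpos : ∀ i, 0 < deg i) :
    LD ((∏ i ∈ T, (1 - Polynomial.X ^ deg i : Polynomial Ω) : Polynomial Ω) : Ω⟦X⟧)
      (-∑ i ∈ T, geom 1 (deg i)) := by
  rw [← Polynomial.coeToPowerSeries.ringHom_apply, map_prod, ← Finset.sum_neg_distrib]
  refine LD.prod T _ _ fun i _ => ?_
  simpa using LD.factor (1 : Ω) (hpos i)

lemma constantCoeff_prod_one_sub {ι Ω : Type*} [CommRing Ω] (T : Finset ι) {deg : ι → ℕ}
    (hpos : ∀ i, 0 < deg i) :
    constantCoeff
      ((∏ i ∈ T, (1 - Polynomial.X ^ deg i : Polynomial Ω) : Polynomial Ω) : Ω⟦X⟧) = 1 := by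
  rw [← Polynomial.coeToPowerSeries.ringHom_apply, map_prod, map_prod]
  refine Finset.prod_eq_one fun i _ => ?_
  simp [(hpos i).ne']

theorem not_finite_nonsplit {K K' : Type*} [Field K] [Algebra k K] [Algebra R K]
    [IsScalarTower k R K] [IsFractionRing R K] [Field K'] [Algebra k K'] [Algebra B K']
    [IsScalarTower k B K'] [IsFractionRing B K'] (F : Filt k R K) (F' : Filt k B K')
    (hin : ∀ w : HeightOneSpectrum B, w.asIdeal.inertia G = ⊥) (hG : 1 < Nat.card G)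
    (T : Finset (HeightOneSpectrum R))
    (hT : ∀ w : HeightOneSpectrum B, w.under R ∉ T → IsArithFrobAt R (1 : G) w.asIdeal) :
    False := by
  classical
  obtain ⟨A, hA, hAd⟩ := F.exists_ideg_eq_rho
  obtain ⟨A', hA', hAd'⟩ := F'.exists_ideg_eq_rho
  have hd : ideg k (A ^ F'.ρ) = F'.ρ * F.ρ := by rw [ideg_pow k hA, hAd]
  have hd' : ideg k (A' ^ F.ρ) = F'.ρ * F.ρ := by rw [ideg_pow k hA', hAd', mul_comm]
  have hpos : 0 < F'.ρ * F.ρ := Nat.mul_pos F'.rho_pos F.rho_pos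
  obtain ⟨Q, hQ, hQ0⟩ := F.exists_poly_zeta (pow_ne_zero F'.ρ hA) (hd ▸ hpos)
  obtain ⟨Q', hQ', -⟩ := F'.exists_poly_zeta (pow_ne_zero F.ρ hA') (hd' ▸ hpos)
  rw [hd] at hQ
  rw [hd'] at hQ'
  set δ := F'.ρ * F.ρ
  set q : ℚ := (Nat.card k : ℚ) with hq
  set Z := lser k fun _ : Ideal R => (1 : ℚ)
  set Z' := lser k fun _ : Ideal B => (1 : ℚ)
  set E : Polynomial ℚ := ∏ v ∈ T, (1 - Polynomial.X ^ pdeg k v) with hE
  set E' : Polynomial ℚ := ∏ w ∈ T.biUnion (fiber B), (1 - Polynomial.X ^ pdeg k w) with hE'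
  obtain ⟨m, hm⟩ : ∃ m, Nat.card G = m + 2 := ⟨Nat.card G - 2, by omega⟩
  have h1 := (ld_lser k (R := B) (IsMult.one (M := ℚ))).mul
    (ld_prod_one_sub (T.biUnion (fiber B)) (pdeg_pos k))
  have h2 := ((ld_lser k (R := R) (IsMult.one (M := ℚ))).mul
    (ld_prod_one_sub T (pdeg_pos k))).pow (m + 2)
  have h3 : Z' * E' = (Z * E) ^ (m + 2) := by
    refine LD.unique_left ?_ h1 ?_ ?_
    · simp [constantCoeff_psum, constantCoeff_geom]
    · convert h2 using 1
      ext r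
      let U := (finite_pdeg_le k (R := R) r).toFinset ∪ T
      have hU : ∀ v, pdeg k v ≤ r → v ∈ U := fun v hv => by simp [U, hv]
      have hTU : T ⊆ U := Finset.subset_union_right
      rw [map_add, map_neg, map_sum, coeff_psum_eq_sum_fiber k U hU, Finset.sum_biUnion,
        map_nsmul, map_add, map_neg, map_sum, coeff_psum _ _ U hU, ← sub_eq_add_neg,
        ← sub_eq_add_neg, ← Finset.sum_sdiff_eq_sub hTU, ← Finset.sum_sdiff_eq_sub hTU,
        Finset.smul_sum]
      · refine Finset.sum_congr rfl fun v hv => ?_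
        rw [sum_fiber_geom k v (σ := (1 : G)) (fun w _ => hin w)
          (fun w hw => hT w (hw ▸ (Finset.mem_sdiff.1 hv).2)), one_pow, if_pos rfl, hm,
          nsmul_eq_mul]
      · intro v _ v' _ hne
        rw [Function.onFun, Finset.disjoint_left]
        intro w h h'
        exact hne ((mem_fiber.1 h).symm.trans (mem_fiber.1 h'))
    · rw [map_mul, map_pow, map_mul, constantCoeff_lser k IsMult.one,
        constantCoeff_lser k IsMult.one, constantCoeff_prod_one_sub _ (pdeg_pos k),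
        constantCoeff_prod_one_sub _ (pdeg_pos k)]
      simp
  have h4 : Q' * E' * (1 - Polynomial.C (q ^ δ) * Polynomial.X ^ δ) ^ (m + 1) =
      (Q * E) ^ (m + 2) := by
    apply Polynomial.coe_injective
    simp only [Polynomial.coe_mul, Polynomial.coe_pow, Polynomial.coe_sub, Polynomial.coe_one,
      Polynomial.coe_C, Polynomial.coe_X, hQ, hQ']
    rw [mul_assoc _ Z', h3, mul_assoc _ Z, mul_pow _ (Z * E)]
    ring
  have h5 := congrArg (Polynomial.eval q⁻¹) h4
  have hq0 : q ≠ 0 := by rw [hq]; exact_mod_cast Nat.card_pos.ne'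
  simp only [Polynomial.eval_mul, Polynomial.eval_pow, Polynomial.eval_sub, Polynomial.eval_one,
    Polynomial.eval_C, Polynomial.eval_X] at h5
  rw [← mul_pow, mul_inv_cancel₀ hq0, one_pow, sub_self, zero_pow (by omega), mul_zero] at h5
  exact pow_ne_zero _ (mul_ne_zero hQ0 (eval_prod_ne_zero k T (pdeg_pos k))) h5.symm

end Galois

end Pool.Agent.MP_51ecca_nt
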