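import Pool.Agent.MP_51ecca_nt.Places
import Pool.Agent.MP_51ecca_nt.Split

set_option linter.unusedSectionVars false

namespace Pool.Agent.MP_51ecca_nt

open IsDedekindDomain IntermediateField Polynomial

instance hasFiniteQuotients_polynomial (k : Type*) [Field k] [Finite k] :
    Ring.HasFiniteQuotients k[X] where
  finiteQuotient {I} hI := by
    obtain ⟨f, rfl⟩ := (IsPrincipalIdealRing.principal I).principal
    have hf : f ≠ 0 := by
      rintro rfl
      simp at hI
    have : Module.Finite k (AdjoinRoot f) := (AdjoinRoot.powerBasis hf).finite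
    exact Module.finite_of_finite k (M := AdjoinRoot f)

lemma mem_valuationSubring_of_isIntegral {A K : Type*} [CommRing A] [Field K] [Algebra A K]
    (O : ValuationSubring K) (hO : ∀ a : A, algebraMap A K a ∈ O) {x : K} (hx : IsIntegral A x) :
    x ∈ O := by
  let : Algebra A O := ((algebraMap A K).codRestrict O hO).toAlgebra
  have : IsScalarTower A O K := .of_algebraMap_eq fun _ => rfl
  obtain ⟨y, rfl⟩ := IsIntegrallyClosed.isIntegral_iff.1 (hx.tower_top (A := O))
  exact y.2

variable (k : Type) {K : Type} [Field k] [Field K] [Algebra k K]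

/-- A separating transcendental element. -/
structure IsChart (h : K) : Prop where
  tr : Transcendental k h
  fd : FiniteDimensional k⟮h⟯ K
  sep : Algebra.IsSeparable k⟮h⟯ K

/-- The properties of the affine ring attached to a chart. -/
structure IsModel (R : Type*) [CommRing R] [Algebra R K] (h : K) : Prop where
  ded : IsDedekindDomain R
  frac : IsFractionRing R K
  finq : Ring.HasFiniteQuotients R
  inf : Infinite R
  mem_iff : ∀ O : Place k K, h ∈ O.1 ↔ ∀ r : R, algebraMap R K r ∈ O.1
  exists_eq : ∃ t : R, algebraMap R K t = h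
  filt : ∃ F : Filt k R K, F.ρ = Module.finrank k⟮h⟯ K ∧
    (∀ (j : ℤ) (x : K), x ∈ F.Λ j ↔ h * x ∈ F.Λ (j + 1)) ∧
    ∀ O : Place k K, h ∉ O.1 → ∀ x ∈ F.Λ (-F.κ), x ∈ O.1

variable {k}

lemma Place.aeval_mem (O : Place k K) {h : K} (hh : h ∈ O.1) (f : k[X]) : aeval h f ∈ O.1 := by
  rw [aeval_eq_sum_range]
  refine sum_mem fun i _ => ?_
  rw [Algebra.smul_def]
  exact mul_mem (O.2.2 _) (pow_mem hh _)

lemma Place.transcendental (O : Place k K) {h : K} (hh : h ∉ O.1) : Transcendental k h :=
  fun h' => hh (mem_valuationSubring_of_isIntegral O.1 O.2.2 h'.isIntegral)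

theorem IsChart.isModel [Finite k] {h : K} (hh : IsChart k h) (R : Type*) [CommRing R]
    [Algebra R K] [Algebra k R] [IsScalarTower k R K]
    [IsIntegralClosure R (Algebra.adjoin k {h}) K] : IsModel k R h := by
  have := hh.fd
  have := hh.sep
  let e := RatFunc.algEquivOfTranscendental h hh.tr
  let : Algebra (RatFunc k) K := ((algebraMap k⟮h⟯ K).comp e.toRingEquiv.toRingHom).toAlgebra
  let : Algebra k[X] K := (aeval h : k[X] →ₐ[k] K).toRingHom.toAlgebra
  have hX : ∀ f : k[X], algebraMap k[X] K f = aeval h f := fun _ => rfl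
  have : IsScalarTower k[X] (RatFunc k) K := .of_algebraMap_eq fun f => by
    change aeval h f = algebraMap k⟮h⟯ K (e (algebraMap k[X] (RatFunc k) f))
    rw [RatFunc.algEquivOfTranscendental_algebraMap, ← aeval_algebraMap_apply]
    rfl
  have : IsScalarTower k k[X] K := .of_algebraMap_eq fun c => by simp [hX]
  have he : (algebraMap (RatFunc k) K).comp (e.toRingEquiv.symm : k⟮h⟯ →+* RatFunc k) =
      (RingEquiv.refl K : K →+* K).comp (algebraMap k⟮h⟯ K) := by
    ext x
    change algebraMap k⟮h⟯ K (e (e.symm x)) = _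
    simp
  have : FiniteDimensional (RatFunc k) K :=
    Module.Finite.of_equiv_equiv e.toRingEquiv.symm (RingEquiv.refl K) he
  have : Algebra.IsSeparable (RatFunc k) K :=
    Algebra.IsSeparable.of_equiv_equiv e.toRingEquiv.symm (RingEquiv.refl K) he
  have hrank : Module.finrank k⟮h⟯ K = Module.finrank (RatFunc k) K :=
    Algebra.finrank_eq_of_equiv_equiv e.toRingEquiv.symm (RingEquiv.refl K) he
  let e' := Polynomial.algEquivOfTranscendental k h hh.tr
  let : Algebra k[X] (Algebra.adjoin k {h}) := e'.toRingEquiv.toRingHom.toAlgebra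
  have : IsScalarTower k[X] (Algebra.adjoin k {h}) K := .of_algebraMap_eq fun f => by
    change aeval h f = (e' f : K)
    simp [e']
  have : Algebra.IsIntegral k[X] (Algebra.adjoin k {h}) :=
    Algebra.isIntegral_of_surjective e'.surjective
  have : IsIntegralClosure R k[X] K :=
    ⟨IsIntegralClosure.algebraMap_injective R (Algebra.adjoin k {h}) K, fun {x} => by
      rw [← IsIntegralClosure.isIntegral_iff (R := Algebra.adjoin k {h})]
      exact ⟨fun hx => hx.tower_top, fun hx => isIntegral_trans x hx⟩⟩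
  obtain ⟨t, ht⟩ : ∃ t : R, algebraMap R K t = h :=
    (IsIntegralClosure.isIntegral_iff (R := k[X])).1 (by
      simpa [hX] using isIntegral_algebraMap (R := k[X]) (A := K) (x := X))
  let : Algebra k[X] R := (aeval t : k[X] →ₐ[k] R).toRingHom.toAlgebra
  have : IsScalarTower k[X] R K := .of_algebraMap_eq fun f => by
    change aeval h f = algebraMap R K (aeval t f)
    rw [← aeval_algebraMap_apply, ht]
  have : IsDomain R :=
    (IsIntegralClosure.algebraMap_injective R k[X] K).isDomain (algebraMap R K)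
  have : Module.Finite k[X] R := IsIntegralClosure.finite k[X] (RatFunc k) K R
  have : Module.IsTorsionFree k[X] K := .trans_faithfulSMul k[X] (RatFunc k) K
  have : Module.IsTorsionFree k[X] R := IsIntegralClosure.isTorsionFree k[X] K
  refine ⟨IsIntegralClosure.isDedekindDomain k[X] (RatFunc k) K R,
    IsIntegralClosure.isFractionRing_of_finite_extension k[X] (RatFunc k) K R,
    Ring.HasFiniteQuotients.of_module_finite k[X] R,
    Infinite.of_injective _ (FaithfulSMul.algebraMap_injective k[X] R),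
    fun O => ⟨fun hO r => ?_, fun hO => ht ▸ hO t⟩, ⟨t, ht⟩, ?_⟩
  · exact mem_valuationSubring_of_isIntegral O.1 (A := k[X]) (O.aeval_mem hO)
      (IsIntegralClosure.isIntegral_iff.2 ⟨r, rfl⟩)
  · obtain ⟨F, h1, h2, h3⟩ := exists_filt k R K
    refine ⟨F, h1.trans hrank.symm, by simpa [hX] using h2, fun O hO => h3 O.1 O.2.2 ?_⟩
    simpa [hX] using hO

variable (k) in
/-- The standard affine ring of a chart. -/
abbrev Rg (h : K) : Type := integralClosure (Algebra.adjoin k {h}) K

lemma IsChart.inv {h : K} (hh : IsChart k h) : IsChart k h⁻¹ := by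
  have e : k⟮h⁻¹⟯ = k⟮h⟯ := by
    apply le_antisymm <;> rw [adjoin_simple_le_iff]
    · exact inv_mem (mem_adjoin_simple_self k h)
    · simpa using inv_mem (mem_adjoin_simple_self k h⁻¹)
  refine ⟨fun h' => hh.tr (by simpa using h'.inv), e ▸ hh.fd, e ▸ hh.sep⟩

lemma sum_pdeg_le {R : Type*} [CommRing R] [Finite k] [Algebra k R] [IsDedekindDomain R]
    [Infinite R] [Ring.HasFiniteQuotients R] {I : Ideal R} (hI : I ≠ ⊥)
    (T : Finset (HeightOneSpectrum R)) (hT : ∀ v ∈ T, I ≤ v.asIdeal) :
    ∑ v ∈ T, pdeg k v ≤ ideg k I := by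
  classical
  have h1 : ∏ v ∈ T, v.asIdeal ∣ I :=
    Finset.prod_dvd_of_coprime
      (fun v _ w _ hne => Ideal.isCoprime_iff_sup_eq.2
        (v.isMaximal.coprime_of_ne w.isMaximal fun h => hne (HeightOneSpectrum.ext h)))
      fun v hv => Ideal.dvd_iff_le.2 (hT v hv)
  have h2 : ∀ T : Finset (HeightOneSpectrum R), ideg k (∏ v ∈ T, v.asIdeal) = ∑ v ∈ T, pdeg k v := by
    intro T
    induction T using Finset.induction_on with
    | empty => simp [ideg_top]
    | insert v T hv ih =>
      rw [Finset.prod_insert hv, Finset.sum_insert hv,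
        ideg_mul k v.ne_bot (Finset.prod_ne_zero_iff.2 fun w _ => w.ne_bot), ih, pdeg]
  obtain ⟨J, rfl⟩ := h1
  rw [ideg_mul k (left_ne_zero_of_mul hI) (right_ne_zero_of_mul hI), h2]
  exact Nat.le_add_right _ _

theorem IsChart.exists_poles [Finite k] {h : K} (hh : IsChart k h) :
    ∃ Pl : Finset (Place k K), (∀ O, O ∈ Pl ↔ h ∉ O.1) ∧ Pl.Nonempty ∧
      (∀ O ∈ Pl, 0 < O.degree) ∧ ∑ O ∈ Pl, O.degree ≤ Module.finrank k⟮h⟯ K := by
  classical
  have hM := hh.inv.isModel (Rg k h⁻¹)
  have := hM.ded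
  have := hM.frac
  have := hM.finq
  have := hM.inf
  obtain ⟨t, ht⟩ := hM.exists_eq
  obtain ⟨F, h1, h2, -⟩ := hM.filt
  have h0 : h ≠ 0 := fun h0 => hh.tr (h0 ▸ isAlgebraic_zero)
  have ht0 : t ≠ 0 := by
    rintro rfl
    rw [map_zero, eq_comm, inv_eq_zero] at ht
    exact h0 ht
  have e : k⟮h⁻¹⟯ = k⟮h⟯ := by
    apply le_antisymm <;> rw [adjoin_simple_le_iff]
    · exact inv_mem (mem_adjoin_simple_self k h)
    · simpa using inv_mem (mem_adjoin_simple_self k h⁻¹)
  have hd : ideg k (Ideal.span {t}) = Module.finrank k⟮h⟯ K := by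
    rw [F.ideg_span ht0 (n := 1) (by simpa [ht] using h2), mul_one, h1, e]
  have hfin : {v : HeightOneSpectrum (Rg k h⁻¹) | t ∈ v.asIdeal}.Finite :=
    (Ring.HasFiniteQuotients.finite_setOfPred_mem t ht0).of_injOn (f := fun w => w.asIdeal)
      (fun _ hw => hw) fun _ _ _ _ h => HeightOneSpectrum.ext h
  have hplc : ∀ v : HeightOneSpectrum (Rg k h⁻¹), h ∉ (plc k K v).1 ↔ t ∈ v.asIdeal := fun v => by
    have := inv_mem_plc_iff (k := k) (K := K) (v := v) ht0
    rw [ht, inv_inv] at this
    rw [this, not_not]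
  refine ⟨hfin.toFinset.image (plc k K), fun O => ?_, ?_, ?_, ?_⟩
  · simp only [Finset.mem_image, Set.Finite.mem_toFinset, Set.mem_ofPred_eq]
    constructor
    · rintro ⟨v, hv, rfl⟩
      exact (hplc v).2 hv
    · intro hO
      obtain ⟨v, rfl⟩ := exists_plc_eq O ((hM.mem_iff O).1 ((O.1.mem_or_inv_mem h).resolve_left hO))
      exact ⟨v, (hplc v).1 hO, rfl⟩
  · have hne : Ideal.span {t} ≠ ⊤ := by
      rw [Ne, ← ideg_eq_zero_iff k (by simpa using ht0), hd]
      have := hh.fd
      exact Module.finrank_pos.ne'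
    obtain ⟨P, hP, hle⟩ := Ideal.exists_le_maximal _ hne
    have htP : t ∈ P := hle (Ideal.mem_span_singleton_self t)
    refine ⟨plc k K ⟨P, hP.isPrime, fun h => ht0 (by simpa [h] using htP)⟩,
      Finset.mem_image_of_mem _ (by simpa using htP)⟩
  · intro O hO
    obtain ⟨v, -, rfl⟩ := Finset.mem_image.1 hO
    rw [degree_plc]
    exact pdeg_pos k v
  · rw [Finset.sum_image fun _ _ _ _ h => plc_injective h, ← hd]
    simp_rw [degree_plc]
    refine sum_pdeg_le (by simpa using ht0) _ fun v hv => ?_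
    simpa using hv

end Pool.Agent.MP_51ecca_nt
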