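import Pool.Agent.MP_51ecca_nt.Chart

set_option linter.unusedSectionVars false

namespace Pool.Agent.MP_51ecca_nt

open IsDedekindDomain IntermediateField Polynomial

lemma isSeparable_of_adjoin_pow {E K : Type*} [Field E] [Field K] [Algebra E K]
    [FiniteDimensional E K] (p : ℕ) [Fact p.Prime] [CharP E p]
    (h : adjoin E (Set.range fun x : K => x ^ p) = ⊤) : Algebra.IsSeparable E K := by
  have : CharP K p := charP_of_injective_algebraMap (algebraMap E K).injective p
  have key : ∀ n, ∀ x : K, x ∈ adjoin E (Set.range fun x : K => x ^ p ^ n) := by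
    intro n
    induction n with
    | zero => exact fun x => subset_adjoin _ _ ⟨x, by simp⟩
    | succ n ih =>
      have h1 : ∀ y ∈ adjoin E (Set.range fun x : K => x ^ p ^ n),
          y ^ p ∈ adjoin E (Set.range fun x : K => x ^ p ^ (n + 1)) := by
        intro y hy
        induction hy using adjoin_induction with
        | mem x hx =>
          obtain ⟨z, rfl⟩ := hx
          exact subset_adjoin _ _ ⟨z, by simp [pow_succ, pow_mul]⟩
        | algebraMap x => exact pow_mem (IntermediateField.algebraMap_mem _ x) _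
        | add x y _ _ hx hy => rw [add_pow_char]; exact add_mem hx hy
        | inv x _ hx => rw [inv_pow]; exact inv_mem hx
        | mul x y _ _ hx hy => rw [mul_pow]; exact mul_mem hx hy
      intro x
      have : (⊤ : IntermediateField E K) ≤ adjoin E (Set.range fun x : K => x ^ p ^ (n + 1)) := by
        rw [← h, adjoin_le_iff]
        rintro _ ⟨y, rfl⟩
        exact h1 y (ih y)
      exact this mem_top
  rw [← separableClosure.eq_top_iff, eq_top_iff]
  intro x _
  have : CharP (separableClosure E K) p :=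
    charP_of_injective_algebraMap (algebraMap E _).injective p
  have : adjoin E (Set.range fun x : K =>
      x ^ p ^ IsPurelyInseparable.exponent (separableClosure E K) K) ≤ separableClosure E K := by
    rw [adjoin_le_iff]
    rintro _ ⟨y, rfl⟩
    obtain ⟨z, hz⟩ := IsPurelyInseparable.exponent_def' (separableClosure E K) p y
    simp only [← hz]
    exact z.2
  exact this (key _ x)

variable {k K : Type} [Field k] [Field K] [Algebra k K]

lemma exists_isChart [Finite k] [Algebra.EssFiniteType k K] (htr : Algebra.trdeg k K = 1) :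
    ∃ h : K, IsChart k h := by
  obtain ⟨s, hs, hsep⟩ := exists_isTranscendenceBasis_and_isSeparable_of_perfectField k K
  have h1 := hs.cardinalMk_eq_trdeg
  rw [htr, Cardinal.mk_coe_finset, Nat.cast_eq_one, Finset.card_eq_one] at h1
  obtain ⟨h, rfl⟩ := h1
  rw [Finset.coe_singleton] at hsep
  have : Algebra.EssFiniteType k⟮h⟯ K := Algebra.EssFiniteType.of_comp k k⟮h⟯ K
  exact ⟨h, hs.1.transcendental ⟨h, Finset.mem_singleton_self h⟩,
    Algebra.finite_of_essFiniteType_of_isAlgebraic, hsep⟩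

lemma IsChart.finiteDimensional {h₀ h : K} (hh : IsChart k h₀) (ht : Transcendental k h) :
    FiniteDimensional k⟮h⟯ K := by
  have := hh.fd
  let e := RatFunc.algEquivOfTranscendental h₀ hh.tr
  let : Algebra (RatFunc k) K := ((algebraMap k⟮h₀⟯ K).comp e.toRingEquiv.toRingHom).toAlgebra
  have he : (algebraMap (RatFunc k) K).comp (e.toRingEquiv.symm : k⟮h₀⟯ →+* RatFunc k) =
      (RingEquiv.refl K : K →+* K).comp (algebraMap k⟮h₀⟯ K) := by
    ext x
    change algebraMap k⟮h₀⟯ K (e (e.symm x)) = _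
    simp
  have : FiniteDimensional (RatFunc k) K :=
    Module.Finite.of_equiv_equiv e.toRingEquiv.symm (RingEquiv.refl K) he
  have : IsScalarTower k (RatFunc k) K := .of_algebraMap_eq fun c => by
    change _ = algebraMap k⟮h₀⟯ K (e _)
    rw [e.commutes, ← IsScalarTower.algebraMap_apply]
  exact FunctionField.finiteDimensional_of_adjoin_transcendental ht

lemma IsChart.of_mem (p : ℕ) [Fact p.Prime] [CharP k p] {h₀ h : K} (hh : IsChart k h₀)
    (ht : Transcendental k h) (hm : h₀ ∈ adjoin k⟮h⟯ (Set.range fun x : K => x ^ p)) :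
    IsChart k h := by
  have hfd := hh.finiteDimensional ht
  have := hh.sep
  have : CharP k⟮h⟯ p := charP_of_injective_algebraMap (algebraMap k _).injective p
  have : CharP k⟮h₀⟯ p := charP_of_injective_algebraMap (algebraMap k _).injective p
  refine ⟨ht, hfd, isSeparable_of_adjoin_pow p ?_⟩
  rw [eq_top_iff]
  intro x _
  have h1 := adjoin_eq_adjoin_pow_expChar_of_isSeparable' k⟮h₀⟯ K Set.univ p
  rw [adjoin_univ, Set.image_univ] at h1
  have h2 : x ∈ adjoin k⟮h₀⟯ (Set.range fun x : K => x ^ p) := h1 ▸ mem_top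
  have h3 : k⟮h₀⟯ ≤ (adjoin k⟮h⟯ (Set.range fun x : K => x ^ p)).restrictScalars k := by
    rwa [adjoin_simple_le_iff]
  induction h2 using adjoin_induction with
  | mem x hx => exact subset_adjoin _ _ hx
  | algebraMap x => exact h3 x.2
  | add x y _ _ hx hy => exact add_mem (hx mem_top) (hy mem_top)
  | inv x _ hx => exact inv_mem (hx mem_top)
  | mul x y _ _ hx hy => exact mul_mem (hx mem_top) (hy mem_top)

section Map

variable (K' : Type) [Field K'] [Algebra K K'] [Algebra k K'] [IsScalarTower k K K']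

lemma surjective_adjoin (h : K) :
    Function.Surjective (algebraMap k⟮h⟯ k⟮algebraMap K K' h⟯) := by
  rintro ⟨y, hy⟩
  have : k⟮algebraMap K K' h⟯ = k⟮h⟯.map (IsScalarTower.toAlgHom k K K') := by
    rw [adjoin_map, Set.image_singleton]
    rfl
  rw [this] at hy
  obtain ⟨x, hx, rfl⟩ := hy
  exact ⟨⟨x, hx⟩, rfl⟩

lemma IsChart.map [FiniteDimensional K K'] [Algebra.IsSeparable K K'] {h : K} (hh : IsChart k h) :
    IsChart k (algebraMap K K' h) := by
  have := hh.fd
  have := hh.sep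
  have : FiniteDimensional k⟮h⟯ K' := Module.Finite.trans K K'
  have : Algebra.IsSeparable k⟮h⟯ K' := Algebra.IsSeparable.trans k⟮h⟯ K K'
  exact ⟨(transcendental_algebraMap_iff (algebraMap K K').injective).2 hh.tr,
    .of_restrictScalars_finite k⟮h⟯ _ _,
    Algebra.isSeparable_tower_top_of_isSeparable k⟮h⟯ _ _⟩

lemma finrank_adjoin_map (h : K) :
    Module.finrank k⟮algebraMap K K' h⟯ K' = Module.finrank k⟮h⟯ K * Module.finrank K K' := by
  rw [Module.finrank_mul_finrank, ← Module.finrank_mul_finrank k⟮h⟯ k⟮algebraMap K K' h⟯ K',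
    Module.finrank_of_bijective_algebraMap
      ⟨(algebraMap k⟮h⟯ k⟮algebraMap K K' h⟯).injective, surjective_adjoin K' h⟩, one_mul]

lemma isIntegralClosure_map (h : K) (R B : Type*) [CommRing R] [CommRing B] [Algebra R K]
    [Algebra R K'] [IsScalarTower R K K'] [Algebra B K'] [IsIntegralClosure B R K']
    [IsIntegralClosure R (Algebra.adjoin k {h}) K] :
    IsIntegralClosure B (Algebra.adjoin k {algebraMap K K' h}) K' := by
  refine ⟨IsIntegralClosure.algebraMap_injective B R K', fun {x} => ?_⟩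
  rw [← IsIntegralClosure.isIntegral_iff (R := R)]
  let f : Algebra.adjoin k {h} →+* R :=
    { toFun := fun a => IsIntegralClosure.mk' R (a : K) (isIntegral_algebraMap (x := a))
      map_one' := IsIntegralClosure.algebraMap_injective R (Algebra.adjoin k {h}) K (by simp)
      map_zero' := IsIntegralClosure.algebraMap_injective R (Algebra.adjoin k {h}) K (by simp)
      map_mul' := fun _ _ =>
        IsIntegralClosure.algebraMap_injective R (Algebra.adjoin k {h}) K (by simp)
      map_add' := fun _ _ =>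
        IsIntegralClosure.algebraMap_injective R (Algebra.adjoin k {h}) K (by simp) }
  let : Algebra (Algebra.adjoin k {h}) R := f.toAlgebra
  have : IsScalarTower (Algebra.adjoin k {h}) R K := .of_algebraMap_eq fun a =>
    (IsIntegralClosure.algebraMap_mk' R (a : K) (isIntegral_algebraMap (x := a))).symm
  have : IsScalarTower (Algebra.adjoin k {h}) R K' := .of_algebraMap_eq fun a => by
    rw [IsScalarTower.algebraMap_apply R K K', ← IsScalarTower.algebraMap_apply _ R K,
      ← IsScalarTower.algebraMap_apply]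
  have : Algebra.IsIntegral (Algebra.adjoin k {h}) R :=
    IsIntegralClosure.isIntegral_algebra _ K
  have : Algebra.IsIntegral (Algebra.adjoin k {h}) (Algebra.adjoin k {algebraMap K K' h}) := by
    refine Algebra.isIntegral_of_surjective ?_
    rintro ⟨y, hy⟩
    have : Algebra.adjoin k {algebraMap K K' h} =
        (Algebra.adjoin k {h}).map (IsScalarTower.toAlgHom k K K') := by
      rw [AlgHom.map_adjoin, Set.image_singleton]
      rfl
    rw [this] at hy
    obtain ⟨x, hx, rfl⟩ := hy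
    exact ⟨⟨x, hx⟩, rfl⟩
  exact ⟨fun hx => (isIntegral_trans (R := Algebra.adjoin k {h}) x hx).tower_top,
    fun hx => (isIntegral_trans (R := Algebra.adjoin k {h}) x hx).tower_top⟩

end Map

lemma Place.mem_of_aeval_mem (O : Place k K) {h : K} {f : k[X]} (hf : f.Monic)
    (hd : f.natDegree ≠ 0) (hm : aeval h f ∈ O.1) : h ∈ O.1 := by
  refine mem_valuationSubring_of_isIntegral O.1 (A := O.1) (fun a => a.2) ?_
  refine IsIntegral.of_aeval_monic_of_isIntegral_coeff (p := f.map (algebraMap k K))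
    (hf.map _) (by rwa [natDegree_map]) ?_ fun i => ?_
  · rw [eval_map_algebraMap]
    exact isIntegral_algebraMap (R := O.1) (x := ⟨_, hm⟩)
  · rw [coeff_map]
    exact isIntegral_algebraMap (R := O.1) (x := ⟨_, O.2.2 _⟩)

lemma mem_of_pow_mem (O : ValuationSubring K) {x : K} {n : ℕ} (hn : 0 < n) (h : x ^ n ∈ O) :
    x ∈ O :=
  mem_valuationSubring_of_isIntegral O (A := O) (fun a => a.2)
    (IsIntegral.of_pow hn (isIntegral_algebraMap (R := O) (x := ⟨_, h⟩)))

theorem IsChart.exists_poles_superset (p : ℕ) [Fact p.Prime] [CharP k p] [Finite k] {h₀ : K}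
    (hh : IsChart k h₀) {S : Set (Place k K)} (hS : S.Finite) :
    ∃ h : K, IsChart k h ∧ ∀ x ∈ S, h ∉ x.1 := by
  classical
  have hM := hh.isModel (Rg k h₀)
  have := hM.ded
  have := hM.frac
  have := hM.finq
  obtain ⟨t, ht⟩ := hM.exists_eq
  have hex : ∀ x : Place k K, ∃ f : k[X], f.Monic ∧ (h₀ ∈ x.1 → (aeval h₀ f)⁻¹ ∉ x.1) := by
    intro x
    by_cases hx : h₀ ∈ x.1
    · obtain ⟨v, rfl⟩ := exists_plc_eq x ((hM.mem_iff x).1 hx)
      have := finiteDimensional_quot k v.ne_bot
      have hi : IsIntegral k (Ideal.Quotient.mkₐ k v.asIdeal t) := IsIntegral.of_finite k _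
      refine ⟨minpoly k (Ideal.Quotient.mkₐ k v.asIdeal t), minpoly.monic hi, fun _ => ?_⟩
      set f := minpoly k (Ideal.Quotient.mkₐ k v.asIdeal t) with hf
      have e : aeval h₀ f = algebraMap _ K (aeval t f) := by rw [← aeval_algebraMap_apply, ht]
      have h1 : aeval t f ≠ 0 := fun h0 =>
        hh.tr ⟨f, minpoly.ne_zero hi, by rw [e, h0, map_zero]⟩
      rw [e, inv_mem_plc_iff h1, not_not, ← Ideal.Quotient.eq_zero_iff_mem]
      have := minpoly.aeval k (Ideal.Quotient.mkₐ k v.asIdeal t)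
      rwa [aeval_algHom_apply] at this
    · exact ⟨1, monic_one, fun h => absurd h hx⟩
  choose f hf hf' using hex
  let g : k[X] := X * ∏ x ∈ hS.toFinset, f x
  have hg : g.Monic := monic_X.mul (monic_prod_of_monic _ _ fun x _ => hf x)
  have hgd : g.natDegree ≠ 0 := by
    rw [monic_X.natDegree_mul (monic_prod_of_monic _ _ fun x _ => hf x), natDegree_X]
    omega
  have hp := (Fact.out : p.Prime).pos
  have h1 : ∀ x : Place k K, h₀ ∉ x.1 → h₀ + (aeval h₀ g)⁻¹ ^ p ∉ x.1 := by
    intro x hx h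
    have : (aeval h₀ g)⁻¹ ∈ x.1 :=
      (x.1.mem_or_inv_mem _).resolve_left fun h => hx (x.mem_of_aeval_mem hg hgd h)
    exact hx (by simpa using sub_mem h (pow_mem this p))
  obtain ⟨Pl, hPl, ⟨y, hy⟩, -⟩ := hh.exists_poles
  refine ⟨h₀ + (aeval h₀ g)⁻¹ ^ p, hh.of_mem p (y.transcendental (h1 y ((hPl y).1 hy))) ?_,
    fun x hx => ?_⟩
  · have := sub_mem (IntermediateField.algebraMap_mem
      (adjoin k⟮h₀ + (aeval h₀ g)⁻¹ ^ p⟯ (Set.range fun x : K => x ^ p))
      (AdjoinSimple.gen k (h₀ + (aeval h₀ g)⁻¹ ^ p))) (subset_adjoin _ _ ⟨(aeval h₀ g)⁻¹, rfl⟩)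
    simpa using this
  · by_cases hx' : h₀ ∈ x.1
    · intro h
      have h2 : (aeval h₀ g)⁻¹ ∈ x.1 := mem_of_pow_mem x.1 hp (by simpa using sub_mem h hx')
      obtain ⟨g', hg'⟩ : f x ∣ g :=
        (Finset.dvd_prod_of_mem f (hS.mem_toFinset.2 hx)).mul_left X
      have h3 : aeval h₀ g' ≠ 0 := fun h0 =>
        hh.tr ⟨g, hg.ne_zero, by rw [hg', map_mul, h0, mul_zero]⟩
      have := mul_mem h2 (x.aeval_mem hx' g')
      rw [hg', map_mul, mul_inv, inv_mul_cancel_right₀ h3] at this
      exact hf' x hx' this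
    · exact h1 x hx'

theorem IsChart.exists_single_pole (p : ℕ) [Fact p.Prime] [CharP k p] [Finite k] {h₀ : K}
    (hh : IsChart k h₀) (x : Place k K) :
    ∃ h : K, IsChart k h ∧ ∀ y : Place k K, y ≠ x → h ∈ y.1 := by
  wlog hx : h₀ ∈ x.1 generalizing h₀
  · exact this hh.inv ((x.1.mem_or_inv_mem h₀).resolve_left hx)
  have hM := hh.isModel (Rg k h₀)
  have := hM.ded
  have := hM.frac
  have := hM.finq
  have := hM.inf
  obtain ⟨v, rfl⟩ := exists_plc_eq x ((hM.mem_iff x).1 hx)
  obtain ⟨F, -, h2, h3⟩ := hM.filt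
  have hv : v.asIdeal ^ (F.ρ * (F.κ + 1) + 1) ≠ ⊥ := pow_ne_zero _ v.ne_bot
  obtain ⟨w, hw1, hw2, hw0⟩ := F.exists_ne_zero_inv hv (j := -F.κ - 2) (by
    rw [ideg_pow k v.ne_bot]
    have h4 : 1 ≤ ideg k v.asIdeal := pdeg_pos k v
    have h5 := Nat.mul_le_mul_left (F.ρ * (F.κ + 1) + 1) h4
    zify at h5
    push_cast
    linarith)
  have h0 : h₀ ≠ 0 := fun h0 => hh.tr (h0 ▸ isAlgebraic_zero)
  obtain ⟨m, hm⟩ : ∃ m, p = m + 1 := ⟨p - 1, (Nat.sub_add_cancel (Fact.out : p.Prime).pos).symm⟩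
  have h4 : ∀ y : Place k K, h₀ ∉ y.1 → h₀ * w ^ p ∈ y.1 ∧ h₀ * (h₀ * w ^ p) ∈ y.1 := by
    intro y hy
    have a1 : w ∈ y.1 := h3 y hy w (F.mono (by omega) hw2)
    have a2 : h₀ * w ∈ y.1 := h3 y hy _ (F.mono (by omega) ((h2 _ _).1 hw2))
    have a3 : h₀ * (h₀ * w) ∈ y.1 := h3 y hy _ (F.mono (by omega) ((h2 _ _).1 ((h2 _ _).1 hw2)))
    rw [hm, pow_succ', ← mul_assoc h₀ w, ← mul_assoc h₀]
    exact ⟨mul_mem a2 (pow_mem a1 m), mul_mem a3 (pow_mem a1 m)⟩
  obtain ⟨Pl, hPl, ⟨y, hy⟩, -⟩ := hh.exists_poles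
  rw [hPl] at hy
  have h5 : (h₀ * w ^ p)⁻¹ ∉ y.1 := fun h => hy (by
    have := mul_mem (h4 y hy).2 h
    rwa [mul_inv_cancel_right₀ (mul_ne_zero h0 (pow_ne_zero _ hw0))] at this)
  refine ⟨h₀ * w ^ p, hh.of_mem p (fun h => y.transcendental h5 h.inv) ?_, fun z hz => ?_⟩
  · have := mul_mem (IntermediateField.algebraMap_mem
      (adjoin k⟮h₀ * w ^ p⟯ (Set.range fun x : K => x ^ p))
      (AdjoinSimple.gen k (h₀ * w ^ p))) (subset_adjoin _ _ ⟨w⁻¹, rfl⟩)
    simpa [pow_ne_zero _ hw0] using this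
  · by_cases hz' : h₀ ∈ z.1
    · refine mul_mem hz' (pow_mem ?_ p)
      obtain ⟨v', rfl⟩ := exists_plc_eq z ((hM.mem_iff z).1 hz')
      have h6 : ¬ v.asIdeal ^ (F.ρ * (F.κ + 1) + 1) ≤ v'.asIdeal := fun h => hz (by
        congr 1
        exact HeightOneSpectrum.ext
          (v.isMaximal.eq_of_le v'.isPrime.ne_top (v'.isPrime.le_of_pow_le h)).symm)
      obtain ⟨s, hs, hs'⟩ := SetLike.not_le_iff_exists.1 h6
      have hs0 : s ≠ 0 := fun h => hs' (h ▸ zero_mem _)
      obtain ⟨r, hr⟩ := (FractionalIdeal.mem_one_iff _).1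
        ((FractionalIdeal.mem_inv_iff (FractionalIdeal.coeIdeal_ne_zero.2 hv)).1
          (mem_invSub.1 hw1) _ (FractionalIdeal.mem_coeIdeal_of_mem _ hs))
      have := mul_mem (algebraMap_mem_plc (k := k) (K := K) v' r) ((inv_mem_plc_iff hs0).2 hs')
      rwa [hr, mul_inv_cancel_right₀ (by simpa using hs0)] at this
    · exact (h4 z hz').1

end Pool.Agent.MP_51ecca_nt
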