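import Pool.Agent.MP_51ecca_nt.LogDer

set_option linter.unusedSectionVars false

namespace Pool.Agent.MP_51ecca_nt

open PowerSeries IsDedekindDomain

section

variable (k : Type*) [Field k] {R : Type*} [CommRing R] [Algebra k R]

/-- Degree of an ideal: the codimension over the constant field. -/
noncomputable def ideg (I : Ideal R) : ℕ := Module.finrank k (R ⧸ I)

lemma ideg_top : ideg k (⊤ : Ideal R) = 0 := by
  unfold ideg
  exact Module.finrank_zero_of_subsingleton

variable [Finite k] [Ring.HasFiniteQuotients R]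

lemma finiteDimensional_quot {I : Ideal R} (hI : I ≠ ⊥) : FiniteDimensional k (R ⧸ I) := by
  have := Ring.HasFiniteQuotients.finiteQuotient hI
  exact Module.Finite.of_finite

lemma card_quot_eq {I : Ideal R} (hI : I ≠ ⊥) : Nat.card (R ⧸ I) = Nat.card k ^ ideg k I := by
  have := finiteDimensional_quot k hI
  exact Module.natCard_eq_pow_finrank

omit [Finite k] [Ring.HasFiniteQuotients R] in
lemma cardQuot_mul' [IsDedekindDomain R] [Infinite R] (I J : Ideal R) :
    Submodule.cardQuot (I * J) = Submodule.cardQuot I * Submodule.cardQuot J := by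
  exact UniqueFactorizationMonoid.multiplicative_of_coprime Submodule.cardQuot I J
      (Submodule.cardQuot_bot _ _)
      (fun {I J} hI => by simp [Ideal.isUnit_iff.mp hI, Ideal.mul_top])
      (fun {I} i hI =>
        have : Ideal.IsPrime I := Ideal.isPrime_of_prime hI
        cardQuot_pow_of_prime hI.ne_zero)
      fun {I J} hIJ => cardQuot_mul_of_coprime <| Ideal.isCoprime_iff_sup_eq.mpr
        (Ideal.isUnit_iff.mp
          (hIJ (Ideal.dvd_iff_le.mpr le_sup_left) (Ideal.dvd_iff_le.mpr le_sup_right)))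

omit [Ring.HasFiniteQuotients R] in
lemma one_lt_card : 1 < Nat.card k := Finite.one_lt_card

lemma ideg_eq_zero_iff {I : Ideal R} (hI : I ≠ ⊥) : ideg k I = 0 ↔ I = ⊤ := by
  have := finiteDimensional_quot k hI
  unfold ideg
  rw [Module.finrank_zero_iff, Ideal.Quotient.subsingleton_iff]

lemma finite_ideg_le (d : ℕ) : {I : Ideal R | I ≠ ⊥ ∧ ideg k I ≤ d}.Finite := by
  refine (Ring.HasFiniteQuotients.finite_cardQuot_le (R := R) (Nat.card k ^ d)).subset ?_
  rintro I ⟨hI, hd⟩
  rw [Set.mem_ofPred_eq, Submodule.cardQuot_apply, card_quot_eq k hI]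
  exact Nat.pow_le_pow_right (one_lt_card k).le hd

variable (R) in
/-- The nonzero ideals of degree `d`. -/
noncomputable def idealsOfDeg (d : ℕ) : Finset (Ideal R) :=
  ((finite_ideg_le k (R := R) d).subset
    (show {I : Ideal R | I ≠ ⊥ ∧ ideg k I = d} ⊆ _ from fun _ h => ⟨h.1, h.2.le⟩)).toFinset

lemma mem_idealsOfDeg {d : ℕ} {I : Ideal R} : I ∈ idealsOfDeg k R d ↔ I ≠ ⊥ ∧ ideg k I = d := by
  simp [idealsOfDeg]

/-- The generating series of a weight on ideals. -/
noncomputable def lser {Ω : Type*} [CommRing Ω] (ψ : Ideal R → Ω) : Ω⟦X⟧ :=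
  PowerSeries.mk fun d => ∑ I ∈ idealsOfDeg k R d, ψ I

lemma coeff_lser {Ω : Type*} [CommRing Ω] (ψ : Ideal R → Ω) (d : ℕ) :
    coeff d (lser k ψ) = ∑ I ∈ idealsOfDeg k R d, ψ I := by
  simp [lser]

lemma map_lser {Ω Ω' : Type*} [CommRing Ω] [CommRing Ω'] (φ : Ω →+* Ω') (ψ : Ideal R → Ω) :
    PowerSeries.map φ (lser k ψ) = lser k fun I => φ (ψ I) := by
  ext d
  simp [coeff_lser]

variable [IsDedekindDomain R] [Infinite R]

lemma ideg_mul {I J : Ideal R} (hI : I ≠ ⊥) (hJ : J ≠ ⊥) :
    ideg k (I * J) = ideg k I + ideg k J := by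
  have hIJ : I * J ≠ ⊥ := mul_ne_zero hI hJ
  have := cardQuot_mul' I J
  rw [Submodule.cardQuot_apply, Submodule.cardQuot_apply, Submodule.cardQuot_apply,
    card_quot_eq k hI, card_quot_eq k hJ, card_quot_eq k hIJ, ← pow_add] at this
  exact Nat.pow_right_injective (one_lt_card k) this

lemma ideg_pow {I : Ideal R} (hI : I ≠ ⊥) (m : ℕ) : ideg k (I ^ m) = m * ideg k I := by
  induction m with
  | zero => simp [ideg_top]
  | succ m ih => rw [pow_succ, ideg_mul k (pow_ne_zero m hI) hI, ih]; ring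

omit [Infinite R] in
/-- Degree of a nonzero prime. -/
noncomputable def pdeg (v : HeightOneSpectrum R) : ℕ := ideg k v.asIdeal

omit [Infinite R] in
lemma pdeg_pos (v : HeightOneSpectrum R) : 0 < pdeg k v := by
  rw [Nat.pos_iff_ne_zero, pdeg, Ne, ideg_eq_zero_iff k v.ne_bot]
  exact v.isPrime.ne_top

omit [Infinite R] in
lemma finite_pdeg_le (d : ℕ) : {v : HeightOneSpectrum R | pdeg k v ≤ d}.Finite := by
  refine (finite_ideg_le k (R := R) d).of_injOn (f := fun v => v.asIdeal) ?_ ?_
  · intro v hv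
    exact ⟨v.ne_bot, hv⟩
  · intro v _ w _ h
    exact HeightOneSpectrum.ext h

end

section Euler

variable {R : Type*} [CommRing R]

/-- Multiplicativity of a weight on nonzero ideals. -/
structure IsMult {M : Type*} [Monoid M] (ψ : Ideal R → M) : Prop where
  top : ψ ⊤ = 1
  mul : ∀ I J : Ideal R, I ≠ ⊥ → J ≠ ⊥ → ψ (I * J) = ψ I * ψ J

lemma IsMult.comp {M N : Type*} [Monoid M] [Monoid N] {ψ : Ideal R → M} (h : IsMult ψ)
    (χ : M →* N) : IsMult fun I => χ (ψ I) :=
  ⟨by simp [h.top], fun I J hI hJ => by simp [h.mul I J hI hJ]⟩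

lemma IsMult.one {M : Type*} [Monoid M] : IsMult fun _ : Ideal R => (1 : M) :=
  ⟨rfl, fun _ _ _ _ => (mul_one _).symm⟩

lemma IsMult.pow [IsDomain R] {M : Type*} [Monoid M] {ψ : Ideal R → M} (h : IsMult ψ)
    {I : Ideal R} (hI : I ≠ ⊥) (m : ℕ) : ψ (I ^ m) = ψ I ^ m := by
  induction m with
  | zero => simp [h.top]
  | succ m ih => rw [pow_succ, h.mul _ _ (pow_ne_zero m hI) hI, ih, pow_succ]

variable (k : Type*) [Field k] [Algebra k R] [Finite k] [Ring.HasFiniteQuotients R]
  [IsDedekindDomain R] [Infinite R] {Ω : Type*} [CommRing Ω]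

open Classical in
lemma lser_mul_prod {ψ : Ideal R → Ω} (hψ : IsMult ψ) (T : Finset (HeightOneSpectrum R)) :
    lser k ψ * ∏ v ∈ T, (1 - C (ψ v.asIdeal) * X ^ pdeg k v) =
      PowerSeries.mk fun d =>
        ∑ I ∈ (idealsOfDeg k R d).filter (fun I => ∀ v ∈ T, ¬ v.asIdeal ∣ I), ψ I := by
  induction T using Finset.induction_on with
  | empty => ext d; simp [coeff_lser]
  | insert v T hv ih =>
    rw [Finset.prod_insert hv, mul_left_comm, ih]
    ext d
    rw [sub_mul, one_mul, map_sub, mul_assoc, coeff_C_mul, coeff_X_pow_mul', coeff_mk, coeff_mk,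
      coeff_mk, sub_eq_iff_eq_add,
      ← Finset.sum_filter_add_sum_filter_not _ (fun I => ¬ v.asIdeal ∣ I), Finset.filter_filter,
      Finset.filter_filter]
    congr 1
    · refine Finset.sum_congr ?_ fun _ _ => rfl
      ext I
      simp only [Finset.mem_filter, Finset.forall_mem_insert]
      tauto
    · have hcop : ∀ w ∈ T, ∀ J : Ideal R, w.asIdeal ∣ v.asIdeal * J ↔ w.asIdeal ∣ J := by
        intro w hw J
        refine ⟨fun h => (w.prime.dvd_or_dvd h).resolve_left fun h' => hv ?_,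
          fun h => h.mul_left _⟩
        have : w = v := by
          apply HeightOneSpectrum.ext
          exact (v.isMaximal.eq_of_le w.isPrime.ne_top (Ideal.dvd_iff_le.1 h')).symm
        exact this ▸ hw
      split_ifs with hle
      · rw [Finset.mul_sum]
        symm
        refine Finset.sum_bij (fun J _ => v.asIdeal * J) ?_ ?_ ?_ ?_
        · intro J hJ
          rw [Finset.mem_filter, mem_idealsOfDeg] at hJ ⊢
          refine ⟨⟨mul_ne_zero v.ne_bot hJ.1.1, ?_⟩, fun w hw => ?_, ?_⟩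
          · rw [ideg_mul k v.ne_bot hJ.1.1, hJ.1.2]
            unfold pdeg at hle ⊢
            omega
          · rw [hcop w hw]; exact hJ.2 w hw
          · simp
        · intro J _ J' _ h
          exact mul_left_cancel₀ v.ne_bot h
        · intro I hI
          rw [Finset.mem_filter, mem_idealsOfDeg, not_not] at hI
          obtain ⟨⟨hI0, hId⟩, hIT, J, rfl⟩ := hI
          have hJ : J ≠ ⊥ := right_ne_zero_of_mul hI0
          refine ⟨J, ?_, rfl⟩
          rw [Finset.mem_filter, mem_idealsOfDeg]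
          refine ⟨⟨hJ, ?_⟩, fun w hw => ?_⟩
          · rw [ideg_mul k v.ne_bot hJ] at hId
            unfold pdeg
            omega
          · rw [← hcop w hw]; exact hIT w hw
        · intro J hJ
          rw [Finset.mem_filter, mem_idealsOfDeg] at hJ
          rw [hψ.mul _ _ v.ne_bot hJ.1.1]
      · rw [mul_zero]
        refine Finset.sum_eq_zero fun I hI => ?_
        exfalso
        rw [Finset.mem_filter, mem_idealsOfDeg, not_not] at hI
        obtain ⟨⟨hI0, hId⟩, -, J, rfl⟩ := hI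
        have hJ : J ≠ ⊥ := right_ne_zero_of_mul hI0
        rw [ideg_mul k v.ne_bot hJ] at hId
        unfold pdeg at hle
        omega

theorem isEuler_lser {ψ : Ideal R → Ω} (hψ : IsMult ψ) :
    IsEuler (pdeg k) (fun v : HeightOneSpectrum R => ψ v.asIdeal) (lser k ψ) := by
  classical
  intro d T hT
  rw [lser_mul_prod k hψ, X_pow_dvd_iff]
  intro m hm
  rw [map_sub, coeff_mk, coeff_one, sub_eq_zero]
  have key : ∀ I ∈ (idealsOfDeg k R m).filter (fun I => ∀ v ∈ T, ¬ v.asIdeal ∣ I), I = ⊤ := by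
    intro I hI
    rw [Finset.mem_filter, mem_idealsOfDeg] at hI
    by_contra hne
    obtain ⟨P, hP, hIP⟩ := Ideal.exists_le_maximal I hne
    have hP0 : P ≠ ⊥ := fun h => hI.1.1 (le_bot_iff.1 (h ▸ hIP))
    let v : HeightOneSpectrum R := ⟨P, hP.isPrime, hP0⟩
    obtain ⟨J, hJ⟩ : v.asIdeal ∣ I := Ideal.dvd_iff_le.2 hIP
    have hJ0 : J ≠ ⊥ := by
      rintro rfl
      exact hI.1.1 (by simpa using hJ)
    have := hI.1.2
    rw [hJ, ideg_mul k v.ne_bot hJ0] at this
    exact hI.2 v (hT v (by unfold pdeg; omega)) ⟨J, hJ⟩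
  split_ifs with hm0
  · subst hm0
    rw [Finset.sum_eq_single_of_mem ⊤ _ fun I hI hne => absurd (key I hI) hne, hψ.top]
    rw [Finset.mem_filter, mem_idealsOfDeg]
    refine ⟨⟨top_ne_bot, ideg_top k⟩, fun v _ h => v.isPrime.ne_top ?_⟩
    exact top_le_iff.1 (Ideal.dvd_iff_le.1 h)
  · refine Finset.sum_eq_zero fun I hI => ?_
    exfalso
    have := key I hI
    subst this
    rw [Finset.mem_filter, mem_idealsOfDeg, ideg_top] at hI
    exact hm0 hI.1.2.symm

theorem ld_lser {ψ : Ideal R → Ω} (hψ : IsMult ψ) :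
    LD (lser k ψ) (psum (pdeg k) fun v : HeightOneSpectrum R => ψ v.asIdeal) :=
  (isEuler_lser k hψ).ld (pdeg_pos k) (finite_pdeg_le k)

theorem constantCoeff_lser {ψ : Ideal R → Ω} (hψ : IsMult ψ) :
    constantCoeff (lser k ψ) = 1 :=
  (isEuler_lser k hψ).constantCoeff (pdeg_pos k)

end Euler

end Pool.Agent.MP_51ecca_nt
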