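import Pool.Agent.MP_51ecca_nt.Filt
import Pool.Agent.MP_51ecca_nt.IdealDeg

set_option linter.unusedSectionVars false

namespace Pool.Agent.MP_51ecca_nt

open scoped nonZeroDivisors
open FractionalIdeal

namespace Filt

section Near

variable {k R K : Type*} [Field k] [CommRing R] [Nontrivial R] [Field K] [Algebra k K]
  [Algebra R K] (F : Filt k R K)

/-- `u` is congruent to `1` to order `M` at infinity. -/
def Near (M : ℤ) (u : K) : Prop := u - 1 ∈ F.Λ (-M)

variable {F} {M : ℤ}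

lemma Near.sub_one_mul {u : K} (hu : F.Near M u) {j : ℤ} {x : K} (hx : x ∈ F.Λ j) :
    (u - 1) * x ∈ F.Λ (j - M + F.κ) := by
  have := F.mul_mem hu hx
  rwa [show -M + j + F.κ = j - M + F.κ by ring] at this

lemma Near.mul_mem (hM : (F.κ : ℤ) < M) {u : K} (hu : F.Near M u) {j : ℤ} {x : K}
    (hx : x ∈ F.Λ j) : u * x ∈ F.Λ j := by
  have h1 : (u - 1) * x ∈ F.Λ j := F.mono (by omega) (hu.sub_one_mul hx)
  have := add_mem h1 hx
  rwa [show (u - 1) * x + x = u * x by ring] at this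

lemma Near.mem_of_mul_mem (hM : (F.κ : ℤ) < M) {u : K} (hu : F.Near M u) {j : ℤ} {x : K}
    (hx : u * x ∈ F.Λ j) : x ∈ F.Λ j := by
  obtain ⟨i, hi⟩ := F.exhaust x
  have key : ∀ n : ℕ, x ∈ F.Λ (j + n) → x ∈ F.Λ j := by
    intro n
    induction n with
    | zero => simp
    | succ n ih =>
      intro h
      apply ih
      have h1 : (u - 1) * x ∈ F.Λ (j + n) :=
        F.mono (by push_cast; omega) (hu.sub_one_mul h)
      have h2 : u * x ∈ F.Λ (j + n) := F.mono (by omega) hx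
      have := sub_mem h2 h1
      rwa [show u * x - (u - 1) * x = x by ring] at this
  exact key (i - j).toNat (F.mono (by omega) hi)

lemma Near.ne_zero (hM : (F.κ : ℤ) < M) {u : K} (hu : F.Near M u) : u ≠ 0 := by
  rintro rfl
  have : algebraMap R K 1 ∈ F.Λ (-1) := hu.mem_of_mul_mem hM (by simp)
  exact one_ne_zero (F.disj 1 this)

lemma Near.one : F.Near M 1 := by simp [Near]

lemma Near.mul (hM : (F.κ : ℤ) < M) {u u' : K} (hu : F.Near M u) (hu' : F.Near M u') :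
    F.Near M (u * u') := by
  have := add_mem (hu.mul_mem hM hu') hu
  unfold Near
  rwa [show u * (u' - 1) + (u - 1) = u * u' - 1 by ring] at this

lemma Near.inv (hM : (F.κ : ℤ) < M) {u : K} (hu : F.Near M u) : F.Near M u⁻¹ := by
  unfold Near
  apply hu.mem_of_mul_mem hM
  rw [mul_sub, mul_inv_cancel₀ (hu.ne_zero hM), mul_one, ← neg_sub]
  exact neg_mem hu

lemma Near.eq_one (hM : (F.κ : ℤ) < M) {r : R} (hr : F.Near M (algebraMap R K r)) : r = 1 := by
  have : algebraMap R K (r - 1) ∈ F.Λ (-1) := by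
    rw [map_sub, map_one]
    exact F.mono (by omega) hr
  exact sub_eq_zero.1 (F.disj _ this)

omit [Nontrivial R] in
lemma scal' [IsDomain R] (F : Filt k R K) {I : Ideal R} (hI : I ≠ ⊥) (N : ℕ) :
    ∃ t ∈ I, t ≠ 0 ∧ ∃ n : ℕ, N ≤ n ∧
      ∀ (j : ℤ) (x : K), x ∈ F.Λ j ↔ algebraMap R K t * x ∈ F.Λ (j + n) := by
  induction N with
  | zero =>
    obtain ⟨t, ht, ht0, n, hn⟩ := F.scal I hI
    exact ⟨t, ht, ht0, n, Nat.zero_le _, hn⟩
  | succ N ih =>
    obtain ⟨t, ht, ht0, n, hN, hn⟩ := ih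
    obtain ⟨s, hs0, hs⟩ := F.exists_deg_one
    refine ⟨s * t, I.mul_mem_left _ ht, mul_ne_zero hs0 ht0, n + 1, by omega, fun j x => ?_⟩
    rw [hn, hs, map_mul, mul_assoc]
    push_cast
    rw [add_assoc]

end Near

section Dim

variable {k R K : Type*} [Field k] [Finite k] [CommRing R] [IsDedekindDomain R] [Infinite R]
  [Ring.HasFiniteQuotients R] [Field K] [Algebra k K] [Algebra R K] [Algebra k R]
  [IsScalarTower k R K] [IsFractionRing R K] (F : Filt k R K)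

/-- The elements of `R` of degree less than `m`. -/
noncomputable def V (m : ℕ) : Submodule k R :=
  (F.Λ ((m : ℤ) - 1)).comap (IsScalarTower.toAlgHom k R K).toLinearMap

lemma mem_V {m : ℕ} {r : R} : r ∈ F.V m ↔ algebraMap R K r ∈ F.Λ ((m : ℤ) - 1) := Iff.rfl

lemma card_V (m : ℕ) : Nat.card (F.V m) = Nat.card k ^ (F.ρ * m) := F.card m

instance finite_V (m : ℕ) : Finite (F.V m) := by
  apply Nat.finite_of_card_ne_zero
  rw [card_V]
  exact pow_ne_zero _ Nat.card_pos.ne'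

instance fd_V (m : ℕ) : FiniteDimensional k (F.V m) := Module.Finite.of_finite

lemma finrank_V (m : ℕ) : Module.finrank k (F.V m) = F.ρ * m := by
  have := F.card_V m
  rw [Module.natCard_eq_pow_finrank (K := k)] at this
  exact Nat.pow_right_injective (one_lt_card k) this

/-- Reduction of bounded elements modulo an ideal. -/
noncomputable def red (J : Ideal R) (m : ℕ) : F.V m →ₗ[k] R ⧸ J :=
  (Ideal.Quotient.mkₐ k J).toLinearMap.domRestrict (F.V m)

lemma mem_ker_red {J : Ideal R} {m : ℕ} {r : F.V m} :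
    r ∈ LinearMap.ker (F.red J m) ↔ (r : R) ∈ J := by
  rw [LinearMap.mem_ker, ← Ideal.Quotient.eq_zero_iff_mem]
  rfl

lemma finrank_ker_red_ge {J : Ideal R} (hJ : J ≠ ⊥) (m : ℕ) :
    F.ρ * m ≤ Module.finrank k (LinearMap.ker (F.red J m)) + ideg k J := by
  have := finiteDimensional_quot k hJ
  rw [← F.finrank_V m, ← (F.red J m).finrank_range_add_finrank_ker, add_comm]
  gcongr
  exact Submodule.finrank_le _

lemma finrank_ker_red_eq {J : Ideal R} (m : ℕ)
    (h : ∀ r : R, ∃ s ∈ F.V m, r - s ∈ J) :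
    F.ρ * m = Module.finrank k (LinearMap.ker (F.red J m)) + ideg k J := by
  have hs : Function.Surjective (F.red J m) := by
    intro x
    obtain ⟨r, rfl⟩ := Ideal.Quotient.mk_surjective x
    obtain ⟨s, hs, hrs⟩ := h r
    exact ⟨⟨s, hs⟩, (Ideal.Quotient.eq.2 hrs).symm⟩
  rw [← F.finrank_V m, ← (F.red J m).finrank_range_add_finrank_ker, add_comm,
    LinearMap.range_eq_top.2 hs, finrank_top]
  rfl

lemma ideg_span {t : R} (ht : t ≠ 0) {n : ℕ}
    (hn : ∀ (j : ℤ) (x : K), x ∈ F.Λ j ↔ algebraMap R K t * x ∈ F.Λ (j + n)) :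
    ideg k (Ideal.span {t}) = F.ρ * n := by
  have ht' : algebraMap R K t ≠ 0 := by simpa using ht
  have h1 := F.finrank_ker_red_eq (J := Ideal.span {t}) n fun r => by
    obtain ⟨s, hs⟩ := F.decomp (algebraMap R K r / algebraMap R K t)
    refine ⟨r - t * s, ?_, by simp [Ideal.mem_span_singleton]⟩
    rw [hn, mul_sub, mul_div_cancel₀ _ ht', ← map_mul, ← map_sub] at hs
    rw [mem_V]
    convert hs using 2
    ring
  have h2 : LinearMap.ker (F.red (Ideal.span {t}) n) = ⊥ := by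
    rw [eq_bot_iff]
    rintro ⟨r, hr⟩ h
    rw [mem_ker_red, Ideal.mem_span_singleton] at h
    obtain ⟨s, rfl⟩ := h
    rw [mem_V, map_mul, show (n : ℤ) - 1 = -1 + n by ring, ← hn] at hr
    have := F.disj s hr
    simp [this]
  rw [h2, finrank_bot, zero_add] at h1
  exact h1.symm

variable (k K) in
/-- The inverse fractional ideal as a subspace of `K`. -/
noncomputable def _root_.Pool.Agent.MP_51ecca_nt.invSub (I : Ideal R) : Submodule k K :=
  (((I : FractionalIdeal R⁰ K)⁻¹ : FractionalIdeal R⁰ K) : Submodule R K).restrictScalars k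

lemma _root_.Pool.Agent.MP_51ecca_nt.mem_invSub {I : Ideal R} {u : K} :
    u ∈ invSub k K I ↔ u ∈ (I : FractionalIdeal R⁰ K)⁻¹ := Iff.rfl

lemma _root_.Pool.Agent.MP_51ecca_nt.mem_invSub_iff_le {I : Ideal R} (hI : I ≠ ⊥) {u : K} :
    u ∈ invSub k K I ↔ spanSingleton R⁰ u * (I : FractionalIdeal R⁰ K) ≤ 1 := by
  rw [mem_invSub, mem_inv_iff (coeIdeal_ne_zero.2 hI), spanSingleton_mul_le_iff]

lemma _root_.Pool.Agent.MP_51ecca_nt.mem_invSub_of_mul_eq {I J : Ideal R} {t : R} (ht : t ≠ 0)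
    (h : I * J = Ideal.span {t}) {u : K} :
    u ∈ invSub k K I ↔ ∃ r ∈ J, algebraMap R K r = algebraMap R K t * u := by
  have ht' : algebraMap R K t ≠ 0 := by simpa using ht
  have hI : I ≠ ⊥ := by
    rintro rfl
    rw [Ideal.bot_mul, eq_comm, Ideal.span_singleton_eq_bot] at h
    exact ht h
  have hI' : (I : FractionalIdeal R⁰ K) ≠ 0 := coeIdeal_ne_zero.2 hI
  have e : (I : FractionalIdeal R⁰ K)⁻¹ = spanSingleton R⁰ (algebraMap R K t)⁻¹ * J := by
    rw [eq_comm, ← mul_eq_one_iff_eq_inv₀ hI', mul_assoc, mul_comm (J : FractionalIdeal R⁰ K),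
      ← coeIdeal_mul, h, coeIdeal_span_singleton, spanSingleton_mul_spanSingleton,
      inv_mul_cancel₀ ht', spanSingleton_one]
  rw [mem_invSub, e, mem_singleton_mul]
  constructor
  · rintro ⟨y, hy, rfl⟩
    obtain ⟨r, hr, rfl⟩ := (mem_coeIdeal _).1 hy
    exact ⟨r, hr, by rw [mul_inv_cancel_left₀ ht']⟩
  · rintro ⟨r, hr, h⟩
    exact ⟨_, mem_coeIdeal_of_mem _ hr, by rw [h, inv_mul_cancel_left₀ ht']⟩

lemma _root_.Pool.Agent.MP_51ecca_nt.mul_mem_invSub {I : Ideal R} {u : K} (hu : u ∈ invSub k K I)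
    (r : R) : u * algebraMap R K r ∈ invSub k K I := by
  rw [mul_comm, ← Algebra.smul_def]
  exact Submodule.smul_mem _ r hu

lemma _root_.Pool.Agent.MP_51ecca_nt.one_mem_invSub {I : Ideal R} (hI : I ≠ ⊥) :
    (1 : K) ∈ invSub k K I := by
  rw [mem_invSub_iff_le hI, spanSingleton_one, one_mul]
  exact coeIdeal_le_one

lemma nonempty_equiv_ker {I J : Ideal R} {t : R} (ht : t ≠ 0) (h : I * J = Ideal.span {t})
    {n : ℕ} (hn : ∀ (j : ℤ) (x : K), x ∈ F.Λ j ↔ algebraMap R K t * x ∈ F.Λ (j + n))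
    {j : ℤ} {m : ℕ} (hm : (m : ℤ) = j + n + 1) :
    Nonempty (LinearMap.ker (F.red J m) ≃ₗ[k] ↥(invSub k K I ⊓ F.Λ j)) := by
  have ht' : algebraMap R K t ≠ 0 := by simpa using ht
  let g : LinearMap.ker (F.red J m) →ₗ[k] K :=
    (LinearMap.mulLeft k (algebraMap R K t)⁻¹) ∘ₗ (IsScalarTower.toAlgHom k R K).toLinearMap ∘ₗ
      (F.V m).subtype ∘ₗ (LinearMap.ker (F.red J m)).subtype
  have hg : ∀ x, g x = (algebraMap R K t)⁻¹ * algebraMap R K x.1.1 := fun x => rfl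
  have hmem : ∀ x, g x ∈ invSub k K I ⊓ F.Λ j := by
    intro x
    rw [hg]
    refine ⟨(mem_invSub_of_mul_eq ht h).2 ⟨x.1.1, F.mem_ker_red.1 x.2, ?_⟩, ?_⟩
    · rw [mul_inv_cancel_left₀ ht']
    · change _ ∈ F.Λ j
      rw [hn, mul_inv_cancel_left₀ ht', show j + n = (m : ℤ) - 1 by omega]
      exact x.1.2
  refine ⟨LinearEquiv.ofBijective (g.codRestrict _ hmem) ⟨?_, ?_⟩⟩
  · intro x y hxy
    have := congrArg Subtype.val hxy
    simp only [LinearMap.codRestrict_apply, hg] at this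
    have := IsFractionRing.injective R K (mul_left_cancel₀ (inv_ne_zero ht') this)
    exact Subtype.ext (Subtype.ext this)
  · rintro ⟨u, hu1, hu2⟩
    obtain ⟨r, hr, hr'⟩ := (mem_invSub_of_mul_eq ht h).1 hu1
    have hrV : r ∈ F.V m := by
      rw [mem_V, hr', show (m : ℤ) - 1 = j + n by omega, ← hn]
      exact hu2
    refine ⟨⟨⟨r, hrV⟩, F.mem_ker_red.2 hr⟩, Subtype.ext ?_⟩
    simp only [LinearMap.codRestrict_apply, hg]
    rw [hr', inv_mul_cancel_left₀ ht']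

lemma finrank_inv {I : Ideal R} (hI : I ≠ ⊥) (j : ℤ) :
    FiniteDimensional k ↥(invSub k K I ⊓ F.Λ j) ∧
    (F.ρ : ℤ) * (j + 1) + ideg k I ≤ Module.finrank k ↥(invSub k K I ⊓ F.Λ j) ∧
    ((∀ x : K, ∃ u ∈ invSub k K I, x - u ∈ F.Λ j) →
      (F.ρ : ℤ) * (j + 1) + ideg k I = Module.finrank k ↥(invSub k K I ⊓ F.Λ j)) := by
  obtain ⟨t, htI, ht, n, hN, hn⟩ := F.scal' hI (-j).toNat
  have ht' : algebraMap R K t ≠ 0 := by simpa using ht
  obtain ⟨J, hJ⟩ : I ∣ Ideal.span {t} := Ideal.dvd_iff_le.2 (by simpa using htI)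
  have hJ0 : J ≠ ⊥ := by
    rintro rfl
    rw [Ideal.mul_bot, Ideal.span_singleton_eq_bot] at hJ
    exact ht hJ
  obtain ⟨m, hm⟩ : ∃ m : ℕ, (m : ℤ) = j + n + 1 := ⟨(j + n + 1).toNat, by omega⟩
  obtain ⟨e⟩ := F.nonempty_equiv_ker ht hJ.symm hn hm
  have hdeg : ideg k I + ideg k J = F.ρ * n := by
    rw [← ideg_mul k hI hJ0, ← hJ, F.ideg_span ht hn]
  have hdeg' : (ideg k I : ℤ) + ideg k J = F.ρ * n := by exact_mod_cast hdeg
  have hm' : (F.ρ : ℤ) * m = F.ρ * (j + 1) + F.ρ * n := by rw [hm]; ring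
  refine ⟨Module.Finite.equiv e, ?_, fun hs => ?_⟩
  · have := F.finrank_ker_red_ge hJ0 m
    rw [e.finrank_eq] at this
    have : (F.ρ : ℤ) * m ≤ Module.finrank k ↥(invSub k K I ⊓ F.Λ j) + ideg k J := by
      exact_mod_cast this
    omega
  · have := F.finrank_ker_red_eq (J := J) m fun r => by
      obtain ⟨u, hu, hu'⟩ := hs (algebraMap R K r / algebraMap R K t)
      obtain ⟨s, hs, hs'⟩ := (mem_invSub_of_mul_eq ht hJ.symm).1 hu
      refine ⟨r - s, ?_, by simpa using hs⟩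
      rw [hn, mul_sub, mul_div_cancel₀ _ ht', ← hs', ← map_sub] at hu'
      rw [mem_V, show (m : ℤ) - 1 = j + n by omega]
      exact hu'
    rw [e.finrank_eq] at this
    have : (F.ρ : ℤ) * m = Module.finrank k ↥(invSub k K I ⊓ F.Λ j) + ideg k J := by
      exact_mod_cast this
    omega

lemma exists_ne_zero_inv {I : Ideal R} (hI : I ≠ ⊥) {j : ℤ}
    (h : 0 < (F.ρ : ℤ) * (j + 1) + ideg k I) : ∃ a ∈ invSub k K I, a ∈ F.Λ j ∧ a ≠ 0 := by
  obtain ⟨h1, h2, -⟩ := F.finrank_inv hI j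
  have : 0 < Module.finrank k ↥(invSub k K I ⊓ F.Λ j) := by omega
  obtain ⟨⟨a, ha1, ha2⟩, ha⟩ := Module.finrank_pos_iff_exists_ne_zero.1 this
  exact ⟨a, ha1, ha2, fun h => ha (Subtype.ext h)⟩

lemma exists_surj (j : ℤ) : ∃ d₀ : ℕ, ∀ I : Ideal R, I ≠ ⊥ → d₀ ≤ ideg k I →
    ∀ x : K, ∃ u ∈ invSub k K I, x - u ∈ F.Λ j := by
  refine ⟨(1 - (F.ρ : ℤ) * (j - F.κ + 1 + 1)).toNat, fun I hI hd x => ?_⟩
  obtain ⟨a, ha1, ha2, ha⟩ := F.exists_ne_zero_inv hI (j := j - F.κ + 1) (by omega)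
  obtain ⟨r, hr⟩ := F.decomp (x / a)
  refine ⟨a * algebraMap R K r, mul_mem_invSub ha1 r, ?_⟩
  have := F.mul_mem ha2 hr
  rw [mul_sub, mul_div_cancel₀ _ ha] at this
  convert this using 2
  ring

lemma finrank_inv_neg_one {I : Ideal R} (hI : I ≠ ⊥) :
    Module.finrank k ↥(invSub k K I ⊓ F.Λ (-1)) = ideg k I := by
  have := (F.finrank_inv hI (-1)).2.2 fun x => by
    obtain ⟨r, hr⟩ := F.decomp x
    exact ⟨_, by simpa using mul_mem_invSub (one_mem_invSub (k := k) (K := K) hI) r, hr⟩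
  simp only [neg_add_cancel, mul_zero, zero_add, Nat.cast_inj] at this
  exact this.symm

end Dim

end Filt

end Pool.Agent.MP_51ecca_nt
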