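import Pool.Agent.MP_51ecca_nt.Count1

set_option linter.unusedSectionVars false

namespace Pool.Agent.MP_51ecca_nt

open scoped nonZeroDivisors
open FractionalIdeal

namespace Filt

variable {k R K : Type*} [Field k] [Finite k] [CommRing R] [IsDedekindDomain R] [Infinite R]
  [Ring.HasFiniteQuotients R] [Field K] [Algebra k K] [Algebra R K] [Algebra k R]
  [IsScalarTower k R K] [IsFractionRing R K] (F : Filt k R K)

/-- Ray class equivalence of ideals. -/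
def Rel (M : ℤ) (I J : Ideal R) : Prop :=
  ∃ u : K, F.Near M u ∧ (J : FractionalIdeal R⁰ K) = spanSingleton R⁰ u * I

variable {F} {M : ℤ}

lemma Rel.symm (hM : (F.κ : ℤ) < M) {I J : Ideal R} (h : F.Rel M I J) : F.Rel M J I := by
  obtain ⟨u, hu, h⟩ := h
  refine ⟨u⁻¹, hu.inv hM, ?_⟩
  rw [h, ← mul_assoc, spanSingleton_mul_spanSingleton, inv_mul_cancel₀ (hu.ne_zero hM),
    spanSingleton_one, one_mul]

lemma Rel.trans (hM : (F.κ : ℤ) < M) {I J J' : Ideal R} (h : F.Rel M I J) (h' : F.Rel M J J') :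
    F.Rel M I J' := by
  obtain ⟨u, hu, h⟩ := h
  obtain ⟨u', hu', h'⟩ := h'
  refine ⟨u' * u, hu'.mul hM hu, ?_⟩
  rw [h', h, ← mul_assoc, spanSingleton_mul_spanSingleton]

lemma Rel.ne_bot (hM : (F.κ : ℤ) < M) {I J : Ideal R} (h : F.Rel M I J) (hI : I ≠ ⊥) : J ≠ ⊥ := by
  obtain ⟨u, hu, h⟩ := h
  rw [← coeIdeal_ne_zero (K := K), h]
  exact mul_ne_zero (spanSingleton_ne_zero_iff.2 (hu.ne_zero hM)) (coeIdeal_ne_zero.2 hI)

lemma rel_mul_iff {I J A : Ideal R} (hA : A ≠ ⊥) : F.Rel M (I * A) (J * A) ↔ F.Rel M I J := by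
  refine exists_congr fun u => and_congr_right fun _ => ?_
  rw [coeIdeal_mul, coeIdeal_mul, ← mul_assoc, mul_left_inj' (coeIdeal_ne_zero.2 hA)]

lemma Rel.ideg_eq (hM : (F.κ : ℤ) < M) {I J : Ideal R} (h : F.Rel M I J) (hI : I ≠ ⊥) :
    ideg k J = ideg k I := by
  have hJ := h.ne_bot hM hI
  obtain ⟨u, hu, h⟩ := h
  have hu0 := hu.ne_zero hM
  rw [← F.finrank_inv_neg_one hI, ← F.finrank_inv_neg_one hJ]
  have key : ∀ x : K, x ∈ invSub k K J ⊓ F.Λ (-1) ↔ u * x ∈ invSub k K I ⊓ F.Λ (-1) := by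
    intro x
    rw [Submodule.mem_inf, Submodule.mem_inf, mem_invSub_iff_le hI, mem_invSub_iff_le hJ, h,
      ← mul_assoc, spanSingleton_mul_spanSingleton, mul_comm x u]
    exact and_congr_right fun _ => ⟨hu.mul_mem hM, hu.mem_of_mul_mem hM⟩
  refine LinearEquiv.finrank_eq (LinearEquiv.ofSubmodules
    (LinearEquiv.smulOfNeZero K K u hu0 |>.restrictScalars k) _ _ ?_)
  ext x
  rw [Submodule.mem_map_equiv, key]
  simp [LinearEquiv.smulOfNeZero, LinearEquiv.smulOfUnit, Units.smul_def, hu0]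

lemma card_rel (hM : (F.κ : ℤ) < M) {I : Ideal R} (hI : I ≠ ⊥)
    (hs : ∀ x : K, ∃ u ∈ invSub k K I, x - u ∈ F.Λ (-M)) :
    Nat.card {J : Ideal R // F.Rel M I J} =
      Nat.card k ^ ((F.ρ : ℤ) * (-M + 1) + ideg k I).toNat := by
  obtain ⟨h1, -, h3⟩ := F.finrank_inv hI (-M)
  rw [h3 hs, Int.toNat_natCast, ← Module.natCard_eq_pow_finrank]
  obtain ⟨u₀, hu₀, hu₀'⟩ := hs 1
  have hex : ∀ w : ↥(invSub k K I ⊓ F.Λ (-M)), ∃ J : Ideal R,
      (J : FractionalIdeal R⁰ K) = spanSingleton R⁰ (u₀ + w) * I := fun w =>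
    le_one_iff_exists_coeIdeal.1 ((mem_invSub_iff_le hI).1 (add_mem hu₀ w.2.1))
  choose f hf using hex
  have hnear : ∀ w : ↥(invSub k K I ⊓ F.Λ (-M)), F.Near M (u₀ + w) := fun w => by
    have := sub_mem w.2.2 hu₀'
    unfold Near
    convert this using 1
    ring
  symm
  refine Nat.card_congr (Equiv.ofBijective (fun w => ⟨f w, _, hnear w, hf w⟩) ⟨?_, ?_⟩)
  · intro w w' h
    have h' : f w = f w' := congrArg Subtype.val h
    have h2 := hf w
    rw [h', hf w', mul_left_inj' (coeIdeal_ne_zero.2 hI), spanSingleton_eq_spanSingleton] at h2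
    obtain ⟨z, hz⟩ := h2
    have hz' : algebraMap R K z = (u₀ + w) * (u₀ + w')⁻¹ := by
      rw [← hz, Units.smul_def, Algebra.smul_def, mul_inv_cancel_right₀ ((hnear w').ne_zero hM)]
    have hz1 : (z : R) = 1 := by
      apply Near.eq_one hM
      rw [hz']
      exact (hnear w).mul hM ((hnear w').inv hM)
    rw [Units.smul_def, hz1, one_smul, add_right_inj] at hz
    exact Subtype.ext hz.symm
  · rintro ⟨J, u, hu, hJ⟩
    have h1 : u ∈ invSub k K I := by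
      rw [mem_invSub_iff_le hI, ← hJ]
      exact coeIdeal_le_one
    have h2 : u - u₀ ∈ F.Λ (-M) := by
      have := add_mem hu hu₀'
      convert this using 1
      ring
    refine ⟨⟨u - u₀, sub_mem h1 hu₀, h2⟩, Subtype.ext ?_⟩
    apply coeIdeal_injective (K := K)
    simp only
    rw [hf, hJ]
    simp

lemma exists_rel_mul {A : Ideal R} (hA : A ≠ ⊥) : ∃ d₀ : ℕ, ∀ J : Ideal R, J ≠ ⊥ →
    d₀ ≤ ideg k J → ∃ I : Ideal R, F.Rel M J (I * A) := by
  obtain ⟨t, htA, ht, n, hn⟩ := F.scal A hA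
  have ht' : algebraMap R K t ≠ 0 := by simpa using ht
  obtain ⟨d₀, hd₀⟩ := F.exists_surj (-M - n)
  refine ⟨d₀, fun J hJ hd => ?_⟩
  obtain ⟨u, hu, hu'⟩ := hd₀ J hJ hd (algebraMap R K t)⁻¹
  rw [hn, mul_sub, mul_inv_cancel₀ ht', sub_add_cancel] at hu'
  obtain ⟨J', hJ'⟩ := le_one_iff_exists_coeIdeal.1 ((mem_invSub_iff_le hJ).1 hu)
  obtain ⟨B, hB⟩ : A ∣ Ideal.span {t} := Ideal.dvd_iff_le.2 (by simpa using htA)
  refine ⟨B * J', algebraMap R K t * u, ?_, ?_⟩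
  · unfold Near
    rw [← neg_sub]
    exact neg_mem hu'
  · rw [show B * J' * A = A * B * J' by ring, ← hB, coeIdeal_mul, hJ', coeIdeal_span_singleton,
      ← mul_assoc, spanSingleton_mul_spanSingleton]

theorem coeff_lser_add {Ω : Type*} [CommRing Ω] [IsDomain Ω] [CharZero Ω]
    (hM : (F.κ : ℤ) < M) {ψ : Ideal R → Ω} (hψ : IsMult ψ)
    (hrel : ∀ I J : Ideal R, I ≠ ⊥ → F.Rel M I J → ψ I = ψ J) {A : Ideal R} (hA : A ≠ ⊥) :
    ∃ d₀ : ℕ, ∀ d, d₀ ≤ d → PowerSeries.coeff (d + ideg k A) (lser k ψ) =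
      (Nat.card k : Ω) ^ ideg k A * ψ A * PowerSeries.coeff d (lser k ψ) := by
  classical
  obtain ⟨d₁, hd₁⟩ := F.exists_surj (-M)
  obtain ⟨d₂, hd₂⟩ := F.exists_rel_mul (M := M) hA
  refine ⟨max (max d₁ d₂) (-((F.ρ : ℤ) * (-M + 1))).toNat, fun d hd => ?_⟩
  have h1 : d₁ ≤ d := (le_max_left _ _).trans ((le_max_left _ _).trans hd)
  have h2 : d₂ ≤ d := (le_max_right _ _).trans ((le_max_left _ _).trans hd)
  have h3 : (-((F.ρ : ℤ) * (-M + 1))).toNat ≤ d := (le_max_right _ _).trans hd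
  set δ := ideg k A with hδ
  set e := ((F.ρ : ℤ) * (-M + 1) + d).toNat with he
  have hcard : ∀ (I : Ideal R) (d' : ℕ), I ∈ idealsOfDeg k R d' → d ≤ d' →
      ((idealsOfDeg k R d').filter (F.Rel M I)).card = Nat.card k ^ (e + (d' - d)) := by
    intro I d' hI hd'
    rw [mem_idealsOfDeg] at hI
    have := card_rel hM hI.1 (hd₁ I hI.1 (by omega))
    rw [show e + (d' - d) = ((F.ρ : ℤ) * (-M + 1) + ideg k I).toNat by omega, ← this,
      ← Nat.card_eq_finsetCard]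
    refine Nat.card_congr (Equiv.subtypeEquivRight fun J => ?_)
    rw [Finset.mem_filter, mem_idealsOfDeg]
    exact ⟨fun h => h.2, fun h => ⟨⟨h.ne_bot hM hI.1, (h.ideg_eq hM hI.1).trans hI.2⟩, h⟩⟩
  have hsum : ∑ I ∈ idealsOfDeg k R d, ∑ J ∈ (idealsOfDeg k R (d + δ)).filter (F.Rel M (I * A)),
      ψ J = ∑ J ∈ idealsOfDeg k R (d + δ),
        ∑ I ∈ (idealsOfDeg k R d).filter (fun I => F.Rel M (I * A) J), ψ J := by
    simp only [Finset.sum_filter]
    exact Finset.sum_comm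
  have hL : ∀ I ∈ idealsOfDeg k R d,
      ∑ J ∈ (idealsOfDeg k R (d + δ)).filter (F.Rel M (I * A)), ψ J =
        (Nat.card k : Ω) ^ (e + δ) * (ψ A * ψ I) := by
    intro I hI
    have hI' := (mem_idealsOfDeg k).1 hI
    have hIA : I * A ≠ ⊥ := mul_ne_zero hI'.1 hA
    rw [Finset.sum_congr rfl (g := fun _ => ψ A * ψ I), Finset.sum_const,
      hcard (I * A) (d + δ) ((mem_idealsOfDeg k).2 ⟨hIA, by rw [ideg_mul k hI'.1 hA, hI'.2]⟩)
        (by omega), nsmul_eq_mul, Nat.add_sub_cancel_left]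
    · push_cast; rfl
    · intro J hJ
      rw [← hrel _ _ hIA (Finset.mem_filter.1 hJ).2, hψ.mul _ _ hI'.1 hA, mul_comm]
  have hR : ∀ J ∈ idealsOfDeg k R (d + δ),
      ∑ I ∈ (idealsOfDeg k R d).filter (fun I => F.Rel M (I * A) J), ψ J =
        (Nat.card k : Ω) ^ e * ψ J := by
    intro J hJ
    have hJ' := (mem_idealsOfDeg k).1 hJ
    obtain ⟨I₀, hI₀⟩ := hd₂ J hJ'.1 (by omega)
    have hI₀A := hI₀.ne_bot hM hJ'.1
    have hI₀0 : I₀ ≠ ⊥ := left_ne_zero_of_mul hI₀A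
    have hdeg := hI₀.ideg_eq hM hJ'.1
    rw [ideg_mul k hI₀0 hA, hJ'.2] at hdeg
    have : (idealsOfDeg k R d).filter (fun I => F.Rel M (I * A) J) =
        (idealsOfDeg k R d).filter (F.Rel M I₀) := by
      refine Finset.filter_congr fun I _ => ?_
      rw [← rel_mul_iff (I := I₀) hA]
      exact ⟨fun h => (h.trans hM hI₀).symm hM, fun h => (hI₀.trans hM h).symm hM⟩
    rw [Finset.sum_const, this, hcard I₀ d ((mem_idealsOfDeg k).2 ⟨hI₀0, by omega⟩) le_rfl,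
      nsmul_eq_mul]
    simp
  rw [Finset.sum_congr rfl hL, Finset.sum_congr rfl hR, ← Finset.mul_sum, ← Finset.mul_sum,
    ← Finset.mul_sum, pow_add, mul_assoc] at hsum
  have hq : (Nat.card k : Ω) ^ e ≠ 0 := pow_ne_zero _ (by exact_mod_cast Nat.card_pos.ne')
  rw [coeff_lser, coeff_lser, mul_assoc]
  exact (mul_left_cancel₀ hq hsum).symm

end Filt

end Pool.Agent.MP_51ecca_nt
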