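import Mathlib

namespace Pool.Agent.MP_51ecca_nt

open scoped PowerSeries.WithPiTopology

/-- Closed points of the smooth projective curve over `k` with function field `K`:
the valuation rings of `K` that contain `k` and are different from `K`. -/
def Place (k K : Type) [Field k] [Field K] [Algebra k K] : Type :=
  {O : ValuationSubring K // O ≠ ⊤ ∧ ∀ c : k, algebraMap k K c ∈ O}

/-- Degree of a closed point over the finite field `k`: its residue field has
`(card k) ^ degree` elements. -/
noncomputable def Place.degree {k K : Type} [Field k] [Field K] [Algebra k K] (x : Place k K) : ℕ :=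
  Nat.log (Nat.card k) (Nat.card (IsLocalRing.ResidueField x.1))

/-- The zeta function: the Euler product over closed points, as a formal power series. -/
noncomputable def zetaSeries (k K : Type) [Field k] [Field K] [Algebra k K] : PowerSeries ℚ :=
  ∏' x : Place k K, (1 - PowerSeries.X ^ x.degree)⁻¹

/-- The closed points of the base curve that ramify (nontrivial inertia group) in some layer
of the tower. -/
def ramificationLocus (k : Type) {K L : Type} [Field k] [Field K] [Field L] [Algebra k K]
    [Algebra K L] [Algebra k L] [IsScalarTower k K L] (T : ℕ → IntermediateField K L) :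
    Set (Place k K) :=
  {x | ∃ (n : ℕ) (y : Place k (T n)),
    y.1.comap (algebraMap K (T n)) = x.1 ∧ y.1.inertiaSubgroup K ≠ ⊥}

end Pool.Agent.MP_51ecca_nt
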