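import Mathlib

set_option linter.unusedSectionVars false

namespace Pool.Agent.MP_51ecca_nt

open MonoidAlgebra
open scoped TensorProduct

section GDet

variable {k G : Type*} [Field k] [CommGroup G] [Fintype G]

lemma eq_sum_single {A : Type*} [Semiring A] (x : MonoidAlgebra A G) :
    x = ∑ g, single g (x.coeff g) := by
  conv_lhs => rw [← sum_coeff_single x]
  rw [Finsupp.sum_fintype _ _ (by simp)]

lemma coeff_mul_fintype {A : Type*} [Semiring A] (x y : MonoidAlgebra A G) (g : G) :
    (x * y).coeff g = ∑ h, x.coeff h * y.coeff (h⁻¹ * g) := by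
  rw [coeff_mul_apply_left, Finsupp.sum_fintype _ _ (by simp)]

variable {W : Type*} [AddCommGroup W] [Module k W]

/-- An element of the group ring over `End W` as an endomorphism over the group ring. -/
noncomputable def bc : MonoidAlgebra (Module.End k W) G →+*
    Module.End (MonoidAlgebra k G) (MonoidAlgebra k G ⊗[k] W) :=
  liftNCRingHom (Module.End.baseChangeHom k (MonoidAlgebra k G) W).toRingHom
    ((algebraMap (MonoidAlgebra k G)
      (Module.End (MonoidAlgebra k G) (MonoidAlgebra k G ⊗[k] W))).toMonoidHom.comp (of k G))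
    (fun _ y => (Algebra.commute_algebraMap_right (of k G y) _))

lemma bc_single (g : G) (T : Module.End k W) :
    bc (single g T) = (single g (1 : k)) • T.baseChange (MonoidAlgebra k G) := by
  rw [Algebra.smul_def]
  exact (liftNCRingHom_single _ _ _ _ _).trans (Algebra.commutes (of k G g) _).symm

/-- The determinant over the group ring. -/
noncomputable def gdet (T : MonoidAlgebra (Module.End k W) G) : MonoidAlgebra k G :=
  LinearMap.det (bc T)

lemma gdet_one : gdet (1 : MonoidAlgebra (Module.End k W) G) = 1 := by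
  simp [gdet]

lemma gdet_mul (T T' : MonoidAlgebra (Module.End k W) G) : gdet (T * T') = gdet T * gdet T' := by
  simp [gdet]

lemma gdet_eq_det {ι : Type*} [Fintype ι] [DecidableEq ι] (b : Module.Basis ι k W)
    (T : MonoidAlgebra (Module.End k W) G) :
    gdet T = (∑ g, (single g (1 : k)) •
      (LinearMap.toMatrix b b (T.coeff g)).map (algebraMap k (MonoidAlgebra k G))).det := by
  rw [gdet, ← LinearMap.det_toMatrix (Algebra.TensorProduct.basis (MonoidAlgebra k G) b)]
  conv_lhs => rw [eq_sum_single T]
  rw [map_sum, map_sum]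
  congr 1
  refine Finset.sum_congr rfl fun g _ => ?_
  rw [bc_single, map_smul, LinearMap.toMatrix_baseChange]

lemma gdet_exact {W₁ W₂ : Type*} [AddCommGroup W₁] [Module k W₁] [AddCommGroup W₂] [Module k W₂]
    [FiniteDimensional k W₁] [FiniteDimensional k W₂] (i : W₁ →ₗ[k] W) (π : W →ₗ[k] W₂)
    (hi : Function.Injective i) (hπ : Function.Surjective π) (hex : Function.Exact i π)
    (T₁ : MonoidAlgebra (Module.End k W₁) G) (T : MonoidAlgebra (Module.End k W) G)
    (T₂ : MonoidAlgebra (Module.End k W₂) G)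
    (h₁ : ∀ g x, T.coeff g (i x) = i (T₁.coeff g x))
    (h₂ : ∀ g x, π (T.coeff g x) = T₂.coeff g (π x)) : gdet T = gdet T₁ * gdet T₂ := by
  classical
  obtain ⟨s, hs⟩ := π.exists_rightInverse_of_surjective (LinearMap.range_eq_top.2 hπ)
  have hs' : ∀ x, π (s x) = x := fun x => LinearMap.congr_fun hs x
  have hπi : ∀ x, π (i x) = 0 := fun x => hex.apply_apply_eq_zero x
  let e : (W₁ × W₂) ≃ₗ[k] W := LinearEquiv.ofBijective (i.coprod s) ⟨by
    rw [injective_iff_map_eq_zero]
    rintro ⟨x, y⟩ h
    rw [LinearMap.coprod_apply] at h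
    have hy : y = 0 := by simpa [hπi, hs'] using congrArg π h
    subst hy
    have hx : x = 0 := hi (by simpa using h)
    simp [hx], by
    intro w
    obtain ⟨x, hx⟩ := (hex (w - s (π w))).1 (by simp [hs'])
    exact ⟨(x, π w), by simp [hx]⟩⟩
  have he : ∀ x y, e (x, y) = i x + s y := fun x y => rfl
  have he2 : ∀ w, (e.symm w).2 = π w := fun w => by
    obtain ⟨⟨x, y⟩, rfl⟩ := e.surjective w
    rw [e.symm_apply_apply, he, map_add, hπi, hs', zero_add]
  have he1 : ∀ x, e.symm (i x) = (x, 0) := fun x => by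
    rw [LinearEquiv.symm_apply_eq, he, map_zero, add_zero]
  let b₁ := Module.finBasis k W₁
  let b₂ := Module.finBasis k W₂
  let b := (b₁.prod b₂).map e
  have hbl : ∀ j, b (Sum.inl j) = i (b₁ j) := fun j => by
    simp [b, he]
  have hbr : ∀ j, π (b (Sum.inr j)) = b₂ j := fun j => by
    simp [b, he, hs']
  have hrep : ∀ w j, b.repr w j = (b₁.prod b₂).repr (e.symm w) j := fun w j => by
    simp [b]
  rw [gdet_eq_det b, gdet_eq_det b₁, gdet_eq_det b₂, ← Matrix.det_fromBlocks_zero₂₁ _
    (Matrix.toBlocks₁₂ (∑ g, (single g (1 : k)) •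
      (LinearMap.toMatrix b b (T.coeff g)).map (algebraMap k (MonoidAlgebra k G))))]
  congr 1
  ext1 u v
  rcases u with u | u <;> rcases v with v | v
  · simp only [Matrix.fromBlocks_apply₁₁, Matrix.sum_apply, Matrix.smul_apply, Matrix.map_apply,
      LinearMap.toMatrix_apply]
    refine Finset.sum_congr rfl fun g _ => ?_
    rw [hbl, h₁, hrep, he1, Module.Basis.prod_repr_inl]
  · rfl
  · simp only [Matrix.fromBlocks_apply₂₁, Matrix.sum_apply, Matrix.smul_apply, Matrix.map_apply,
      LinearMap.toMatrix_apply, Matrix.zero_apply]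
    refine Finset.sum_eq_zero fun g _ => ?_
    rw [hbl, h₁, hrep, he1, Module.Basis.prod_repr_inr]
    simp
  · simp only [Matrix.fromBlocks_apply₂₂, Matrix.sum_apply, Matrix.smul_apply, Matrix.map_apply,
      LinearMap.toMatrix_apply]
    refine Finset.sum_congr rfl fun g _ => ?_
    rw [hrep, Module.Basis.prod_repr_inr, he2, h₂, hbr]

lemma gdet_equiv {W₁ : Type*} [AddCommGroup W₁] [Module k W₁] [FiniteDimensional k W₁]
    (e : W₁ ≃ₗ[k] W) (T₁ : MonoidAlgebra (Module.End k W₁) G)
    (T : MonoidAlgebra (Module.End k W) G)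
    (h₁ : ∀ g x, T.coeff g (e x) = e (T₁.coeff g x)) : gdet T = gdet T₁ := by
  have := gdet_exact (W₂ := Unit) e.toLinearMap 0 e.injective
    (fun x => ⟨0, Subsingleton.elim _ _⟩) (fun x => by simp) T₁ T 1 h₁
    (fun _ _ => Subsingleton.elim _ _)
  rw [this, gdet_one, mul_one]

lemma gdet_unip [FiniteDimensional k W] (X : MonoidAlgebra (Module.End k W) G)
    (W' : Submodule k W) (h₁ : ∀ g x, X.coeff g x ∈ W') (h₂ : ∀ g, ∀ x ∈ W', X.coeff g x = 0) :
    gdet (1 + X) = 1 := by
  classical
  have := gdet_exact W'.subtype W'.mkQ W'.subtype_injective W'.mkQ_surjective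
    (LinearMap.exact_subtype_mkQ W') 1 (1 + X) 1 (fun g x => by
      rw [coeff_add, Finsupp.add_apply, LinearMap.add_apply, h₂ g (W'.subtype x) x.2, add_zero, one_def,
        one_def,
        coeff_single, coeff_single, Finsupp.single_apply, Finsupp.single_apply]
      split_ifs <;> simp) (fun g x => by
      rw [coeff_add, Finsupp.add_apply, LinearMap.add_apply, map_add,
        (Submodule.Quotient.mk_eq_zero W').2 (h₁ g x) |> (W'.mkQ_apply _).trans, add_zero,
        one_def, one_def, coeff_single, coeff_single, Finsupp.single_apply, Finsupp.single_apply]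
      split_ifs <;> simp)
  rw [this, gdet_one, gdet_one, mul_one]

lemma gdet_norm {F F' ι : Type*} [Field F] [Field F'] [Algebra k F] [Algebra k F']
    [FiniteDimensional k F] [Fintype ι] (σ : ι → (F →ₐ[k] F')) (hσ : Function.Injective σ)
    (hι : Fintype.card ι = Module.finrank k F) (ω : MonoidAlgebra F G) :
    mapRingHom G (algebraMap k F') (gdet (mapRingHom G (Algebra.lmul k F).toRingHom ω)) =
      ∏ j, mapRingHom G (σ j).toRingHom ω := by
  classical
  let b : Module.Basis ι k F := (Module.finBasis k F).reindex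
    (Fintype.equivFinOfCardEq hι).symm
  let P : Matrix ι ι F' := Matrix.of fun j i => σ j (b i)
  have hP : IsUnit P := by
    rw [← Matrix.linearIndependent_rows_iff_isUnit]
    have h1 := (linearIndependent_toLinearMap k F F').comp σ hσ
    exact h1.map' (b.constr F').symm.toLinearMap (LinearEquiv.ker _)
  let P' := P.map (algebraMap F' (MonoidAlgebra F' G))
  have hP' : IsUnit P'.det := by
    have := (RingHom.map_det (algebraMap F' (MonoidAlgebra F' G)) P)
    rw [RingHom.mapMatrix_apply] at this
    rw [← this]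
    exact ((Matrix.isUnit_iff_isUnit_det P).1 hP).map _
  rw [gdet_eq_det b, RingHom.map_det, ← Matrix.det_diagonal, ← hP'.mul_right_inj,
    ← Matrix.det_mul, mul_comm P'.det, ← Matrix.det_mul]
  congr 1
  ext1 j i
  rw [Matrix.diagonal_mul, Matrix.mul_apply]
  conv_rhs => rw [eq_sum_single ω, map_sum, Finset.sum_mul]
  simp only [RingHom.mapMatrix_apply, Matrix.map_apply, Matrix.sum_apply, Matrix.smul_apply,
    map_sum, Finset.mul_sum, P', P, Matrix.of_apply, LinearMap.toMatrix_apply, coeff_mapRingHom]
  rw [Finset.sum_comm]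
  refine Finset.sum_congr rfl fun g _ => ?_
  have h := congrArg (σ j) (b.sum_repr (ω.coeff g * b i))
  rw [map_sum, map_mul (σ j)] at h
  simp only [smul_eq_mul, mapRingHom_single, coe_algebraMap, Function.comp_apply,
    single_mul_single, mul_one, one_mul, Algebra.algebraMap_self, RingHom.id_apply]
  erw [← h]
  rw [← singleAddHom_apply, map_sum]
  refine Finset.sum_congr rfl fun l _ => ?_
  rw [singleAddHom_apply, map_smul, Algebra.smul_def, mul_comm]
  rfl

end GDet

end Pool.Agent.MP_51ecca_nt
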