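import Mathlib

set_option linter.unusedSectionVars false

namespace Pool.Agent.MP_51ecca_nt

open Polynomial WithZero

/-- A degree filtration on the fraction field `K` of `R`, complementary to `R`. -/
structure Filt (k R K : Type*) [Field k] [CommRing R] [Field K] [Algebra k K] [Algebra R K] where
  Λ : ℤ → Submodule k K
  κ : ℕ
  ρ : ℕ
  mono : Monotone Λ
  exhaust : ∀ x, ∃ j, x ∈ Λ j
  mul_mem : ∀ {i j : ℤ} {x y : K}, x ∈ Λ i → y ∈ Λ j → x * y ∈ Λ (i + j + κ)
  decomp : ∀ x : K, ∃ r : R, x - algebraMap R K r ∈ Λ (-1)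
  disj : ∀ r : R, algebraMap R K r ∈ Λ (-1) → r = 0
  card : ∀ m : ℕ, Nat.card {r : R // algebraMap R K r ∈ Λ ((m : ℤ) - 1)} = Nat.card k ^ (ρ * m)
  scal : ∀ I : Ideal R, I ≠ ⊥ → ∃ t ∈ I, t ≠ 0 ∧ ∃ n : ℕ,
    ∀ (j : ℤ) (x : K), x ∈ Λ j ↔ algebraMap R K t * x ∈ Λ (j + n)
  exists_deg_one : ∃ t : R, t ≠ 0 ∧ ∀ (j : ℤ) (x : K), x ∈ Λ j ↔ algebraMap R K t * x ∈ Λ (j + 1)

section RatFunc

variable {k : Type*} [Field k] [DecidableEq (RatFunc k)]

lemma infty_poly {P : k[X]} (hP : P ≠ 0) :
    RatFunc.inftyValuation k (algebraMap k[X] (RatFunc k) P) = exp (P.natDegree : ℤ) :=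
  RatFunc.inftyValuation.polynomial k hP

lemma infty_poly_le_iff (P : k[X]) (m : ℕ) :
    RatFunc.inftyValuation k (algebraMap k[X] (RatFunc k) P) ≤ exp ((m : ℤ) - 1) ↔
      P ∈ degreeLT k m := by
  rw [mem_degreeLT]
  by_cases hP : P = 0
  · subst hP
    simp
  · rw [infty_poly hP, exp_le_exp, degree_eq_natDegree hP, Nat.cast_lt]
    omega

lemma exists_poly_approx (f : RatFunc k) :
    ∃ P : k[X], RatFunc.inftyValuation k (f - algebraMap k[X] (RatFunc k) P) ≤ exp (-1) := by
  refine ⟨f.num / f.denom, ?_⟩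
  have hd := f.denom_ne_zero
  have hd' : algebraMap k[X] (RatFunc k) f.denom ≠ 0 := by simpa using hd
  have e : f - algebraMap k[X] (RatFunc k) (f.num / f.denom) =
      algebraMap k[X] (RatFunc k) (f.num % f.denom) / algebraMap k[X] (RatFunc k) f.denom := by
    have e0 : f * algebraMap k[X] (RatFunc k) f.denom = algebraMap k[X] (RatFunc k) f.num :=
      ((div_eq_iff hd').1 f.num_div_denom).symm
    rw [eq_div_iff hd', sub_mul, ← map_mul, e0, ← map_sub]
    congr 1
    have := EuclideanDomain.div_add_mod f.num f.denom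
    linear_combination (-1 : k[X]) * this
  rw [e]
  by_cases h0 : f.num % f.denom = 0
  · rw [h0]; simp
  · rw [map_div₀, infty_poly h0, infty_poly hd, ← exp_sub, exp_le_exp]
    have := natDegree_lt_natDegree h0 (degree_mod_lt f.num hd)
    omega

lemma exists_le_exp (g : ℤᵐ⁰) : ∃ n : ℕ, g ≤ exp (n : ℤ) := by
  by_cases hg : g = 0
  · exact ⟨0, by simp [hg]⟩
  · refine ⟨(log g).toNat, ?_⟩
    conv_lhs => rw [← exp_log hg]
    rw [exp_le_exp]
    exact Int.self_le_toNat _

lemma exists_forall_le_exp {ι : Type*} [Finite ι] (g : ι → ℤᵐ⁰) :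
    ∃ n : ℕ, ∀ i, g i ≤ exp (n : ℤ) := by
  choose n hn using fun i => exists_le_exp (g i)
  obtain ⟨N, hN⟩ := (Set.finite_range n).bddAbove
  refine ⟨N, fun i => (hn i).trans ?_⟩
  rw [exp_le_exp]
  exact_mod_cast hN ⟨i, rfl⟩

end RatFunc

section Construction

variable (k R K : Type*) [Field k] [CommRing R] [Field K] [Algebra k K] [Algebra R K]
  [Algebra k[X] R] [Algebra k[X] K] [Algebra (RatFunc k) K] [IsScalarTower k[X] R K]
  [IsScalarTower k[X] (RatFunc k) K] [IsScalarTower k k[X] K] [IsIntegralClosure R k[X] K]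
  [FiniteDimensional (RatFunc k) K] [Algebra.IsSeparable (RatFunc k) K]

theorem exists_filt [Finite k] : ∃ F : Filt k R K, F.ρ = Module.finrank (RatFunc k) K ∧
    (∀ (j : ℤ) (x : K), x ∈ F.Λ j ↔ algebraMap k[X] K X * x ∈ F.Λ (j + 1)) ∧
    ∀ O : ValuationSubring K, (∀ c : k, algebraMap k K c ∈ O) → algebraMap k[X] K X ∉ O →
      ∀ x ∈ F.Λ (-F.κ), x ∈ O := by
  classical
  have : IsDomain R :=
    (IsIntegralClosure.equiv k[X] R K (integralClosure k[X] K)).toMulEquiv.isDomain
      (integralClosure k[X] K)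
  have : Module.IsTorsionFree k[X] K := .trans_faithfulSMul k[X] (RatFunc k) K
  have : Module.IsTorsionFree k[X] R := IsIntegralClosure.isTorsionFree k[X] K
  have : Module.Finite k[X] R := IsIntegralClosure.finite k[X] (RatFunc k) K R
  have : IsLocalization (Algebra.algebraMapSubmonoid R (nonZeroDivisors k[X])) K :=
    IsIntegralClosure.isLocalization k[X] (RatFunc k) K R
  have : IsScalarTower k (RatFunc k) K := .of_algebraMap_eq fun c => by
    rw [IsScalarTower.algebraMap_apply k k[X] K, IsScalarTower.algebraMap_apply k[X] (RatFunc k) K,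
      ← IsScalarTower.algebraMap_apply k k[X] (RatFunc k)]
  let ι := Module.Free.ChooseBasisIndex k[X] R
  let b : Module.Basis ι k[X] R := Module.Free.chooseBasis k[X] R
  let bK : Module.Basis ι (RatFunc k) K :=
    b.localizationLocalization (RatFunc k) (nonZeroDivisors k[X]) K
  let v := RatFunc.inftyValuation k
  let Λ : ℤ → Submodule k K := fun j =>
    { carrier := {x | ∀ i, v (bK.repr x i) ≤ exp j}
      add_mem' := fun {x y} hx hy i => by
        rw [map_add, Finsupp.add_apply]
        exact v.map_add_le (hx i) (hy i)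
      zero_mem' := fun i => by simp
      smul_mem' := fun c x hx i => by
        rw [← IsScalarTower.algebraMap_smul (RatFunc k) c x, map_smul, Finsupp.smul_apply,
          smul_eq_mul, map_mul]
        by_cases hc : c = 0
        · simp [hc]
        · rw [Valuation.IsTrivialOn.eq_one c hc, one_mul]
          exact hx i }
  have memΛ : ∀ j x, x ∈ Λ j ↔ ∀ i, v (bK.repr x i) ≤ exp j := fun j x => Iff.rfl
  obtain ⟨κ, hκ⟩ := exists_forall_le_exp fun t : ι × ι × ι =>
    v (bK.repr (bK t.1 * bK t.2.1) t.2.2)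
  have hrepr : ∀ (r : R) i,
      bK.repr (algebraMap R K r) i = algebraMap k[X] (RatFunc k) (b.repr r i) := fun r i =>
    b.localizationLocalization_repr_algebraMap (RatFunc k) (nonZeroDivisors k[X]) K r i
  have hscal : ∀ t : k[X], t ≠ 0 → ∀ (j : ℤ) (x : K),
      x ∈ Λ j ↔ algebraMap R K (algebraMap k[X] R t) * x ∈ Λ (j + t.natDegree) := by
    intro t ht j x
    rw [memΛ, memΛ]
    refine forall_congr' fun i => ?_
    rw [← IsScalarTower.algebraMap_apply, IsScalarTower.algebraMap_apply k[X] (RatFunc k) K,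
      ← Algebra.smul_def, map_smul, Finsupp.smul_apply, smul_eq_mul, map_mul, infty_poly ht,
      exp_add, mul_comm (exp j), mul_le_mul_iff_right₀ exp_pos]
  have hmul : ∀ {i j : ℤ} {x y : K}, x ∈ Λ i → y ∈ Λ j → x * y ∈ Λ (i + j + κ) := by
    intro i j x y hx hy l
    conv_lhs => rw [← bK.sum_repr x, ← bK.sum_repr y]
    rw [Finset.sum_mul_sum, map_sum, Finsupp.finsetSum_apply]
    refine v.map_sum_le fun a _ => ?_
    rw [map_sum, Finsupp.finsetSum_apply]
    refine v.map_sum_le fun c _ => ?_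
    rw [smul_mul_smul_comm, map_smul, Finsupp.smul_apply, smul_eq_mul, map_mul, map_mul, exp_add,
      exp_add]
    exact mul_le_mul' (mul_le_mul' (hx a) (hy c)) (hκ (a, c, l))
  refine ⟨⟨Λ, κ, Fintype.card ι, ?_, ?_, hmul, ?_, ?_, ?_, ?_, ?_⟩, ?_, ?_, ?_⟩
  · intro i j hij x hx l
    exact (hx l).trans (exp_le_exp.2 hij)
  · intro x
    obtain ⟨n, hn⟩ := exists_forall_le_exp fun i => v (bK.repr x i)
    exact ⟨n, hn⟩
  · intro x
    choose P hP using fun i => exists_poly_approx (bK.repr x i)
    refine ⟨b.equivFun.symm P, fun i => ?_⟩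
    rw [map_sub, Finsupp.sub_apply, hrepr, ← b.equivFun_apply, LinearEquiv.apply_symm_apply]
    exact hP i
  · intro r hr
    rw [← b.repr.map_eq_zero_iff]
    ext1 i
    have := hr i
    rw [hrepr] at this
    have h2 := (infty_poly_le_iff (b.repr r i) 0).1 (by simpa using this)
    rw [mem_degreeLT] at h2
    simpa using h2
  · intro m
    have e : {r : R // algebraMap R K r ∈ Λ ((m : ℤ) - 1)} ≃ (ι → degreeLT k m) :=
      (b.equivFun.toEquiv.subtypeEquiv (q := fun P => ∀ i, P i ∈ degreeLT k m) fun r => by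
        rw [memΛ]
        refine forall_congr' fun i => ?_
        rw [hrepr, infty_poly_le_iff]
        rfl).trans (Equiv.subtypePiEquivPi (p := fun _ P => P ∈ degreeLT k m))
    rw [Nat.card_congr e, Nat.card_fun, Nat.card_congr (degreeLTEquiv k m).toEquiv, Nat.card_fun,
      ← pow_mul, Nat.card_eq_fintype_card (α := Fin m), Fintype.card_fin,
      Nat.card_eq_fintype_card (α := ι), mul_comm]
  · intro I hI
    obtain ⟨t, ht, ht0⟩ := Submodule.exists_mem_ne_zero_of_ne_bot (Ideal.under_ne_bot k[X] hI)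
    refine ⟨algebraMap k[X] R t, ht, ?_, t.natDegree, hscal t ht0⟩
    simpa using ht0
  · refine ⟨algebraMap k[X] R X, by simp, fun j x => ?_⟩
    simpa using hscal X X_ne_zero j x
  · exact (Module.finrank_eq_card_basis bK).symm
  · intro j x
    simpa [← IsScalarTower.algebraMap_apply] using hscal X X_ne_zero j x
  · intro O hO hX x hx
    let w := O.valuation.comap (algebraMap (RatFunc k) K)
    have : w.IsTrivialOn k := ⟨fun c hc => by
      have h1 : ∀ c : k, O.valuation (algebraMap k K c) ≤ 1 := fun c =>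
        (O.valuation_le_one_iff _).2 (hO c)
      have h2 := h1 c⁻¹
      rw [map_inv₀, map_inv₀, inv_le_one₀ (by
        rw [Valuation.pos_iff]; simpa using hc)] at h2
      change O.valuation _ = 1
      rw [← IsScalarTower.algebraMap_apply]
      exact le_antisymm (h1 c) h2⟩
    have hlt : 1 < w RatFunc.X := by
      change 1 < O.valuation _
      rw [← RatFunc.algebraMap_X, ← IsScalarTower.algebraMap_apply, ← not_le,
        O.valuation_le_one_iff]
      exact hX
    have heq := RatFunc.valuation_isEquiv_inftyValuation_of_one_lt_valuation_X hlt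
    have : Nonempty ι := bK.index_nonempty
    obtain ⟨i₀, -, hi₀⟩ := Finset.exists_max_image Finset.univ (fun i => O.valuation (bK i))
      Finset.univ_nonempty
    have h0 : bK i₀ ∈ Λ (0 : ℤ) := fun l => by
      rw [bK.repr_self, Finsupp.single_apply]
      split_ifs <;> simp
    have h1 := hmul hx h0
    simp only [add_zero, neg_add_cancel] at h1
    have h2 : O.valuation (x * bK i₀) ≤ O.valuation (bK i₀) := by
      conv_lhs => rw [← bK.sum_repr (x * bK i₀)]
      refine O.valuation.map_sum_le fun l _ => ?_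
      rw [Algebra.smul_def, map_mul]
      have h3 : w (bK.repr (x * bK i₀) l) ≤ 1 := by
        rw [heq.le_one_iff_le_one]
        simpa using h1 l
      calc _ ≤ 1 * O.valuation (bK i₀) := mul_le_mul' h3 (hi₀ l (Finset.mem_univ _))
        _ = _ := one_mul _
    rw [map_mul] at h2
    have h4 : 0 < O.valuation (bK i₀) := by
      rw [Valuation.pos_iff]; exact bK.ne_zero i₀
    rw [← O.valuation_le_one_iff]
    exact (mul_le_iff_le_one_left h4).1 h2

end Construction

end Pool.Agent.MP_51ecca_nt
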