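import Mathlib

namespace Pool.Agent.MP_51ecca_nt

open PowerSeries

section LD

variable {Ω : Type*} [CommRing Ω]

/-- `g` is the logarithmic derivative (times `X`) of `f`. -/
def LD (f g : Ω⟦X⟧) : Prop := X * d⁄dX Ω f = f * g

lemma LD.one : LD (1 : Ω⟦X⟧) 0 := by
  simp [LD]

lemma LD.mul {f g f' g' : Ω⟦X⟧} (h : LD f g) (h' : LD f' g') : LD (f * f') (g + g') := by
  unfold LD at *
  rw [Derivation.leibniz, smul_eq_mul, smul_eq_mul]
  linear_combination f * h' + f' * h

lemma LD.prod {ι : Type*} (s : Finset ι) (f g : ι → Ω⟦X⟧) (h : ∀ i ∈ s, LD (f i) (g i)) :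
    LD (∏ i ∈ s, f i) (∑ i ∈ s, g i) := by
  classical
  induction s using Finset.induction_on with
  | empty => simpa using LD.one
  | insert a s ha ih =>
    rw [Finset.prod_insert ha, Finset.sum_insert ha]
    exact (h a (Finset.mem_insert_self _ _)).mul
      (ih fun i hi => h i (Finset.mem_insert_of_mem hi))

lemma LD.multiset_prod {ι : Type*} (s : Multiset ι) (f g : ι → Ω⟦X⟧)
    (h : ∀ i ∈ s, LD (f i) (g i)) : LD (s.map f).prod (s.map g).sum := by
  induction s using Multiset.induction_on with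
  | empty => simpa using LD.one
  | cons a s ih =>
    rw [Multiset.map_cons, Multiset.map_cons, Multiset.prod_cons, Multiset.sum_cons]
    exact (h a (Multiset.mem_cons_self _ _)).mul
      (ih fun i hi => h i (Multiset.mem_cons_of_mem hi))

lemma LD.pow {f g : Ω⟦X⟧} (h : LD f g) (m : ℕ) : LD (f ^ m) (m • g) := by
  induction m with
  | zero => simpa using LD.one
  | succ m ih => rw [pow_succ, succ_nsmul]; exact ih.mul h

lemma LD.unique_right [IsDomain Ω] {f g g' : Ω⟦X⟧} (hf : f ≠ 0) (h : LD f g) (h' : LD f g') :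
    g = g' :=
  mul_left_cancel₀ hf (h.symm.trans h')

lemma coeff_X_mul_deriv (f : Ω⟦X⟧) (n : ℕ) :
    coeff n (X * d⁄dX Ω f) = (n : Ω) * coeff n f := by
  cases n with
  | zero => simp
  | succ n => rw [coeff_succ_X_mul, coeff_derivative]; push_cast; ring

lemma LD.unique_left [IsDomain Ω] [CharZero Ω] {f f' g : Ω⟦X⟧} (hg : constantCoeff g = 0)
    (h : LD f g) (h' : LD f' g) (h0 : constantCoeff f = constantCoeff f') : f = f' := by
  ext n
  induction n using Nat.strong_induction_on with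
  | _ n ih =>
    rcases Nat.eq_zero_or_pos n with rfl | hn
    · simpa using h0
    · have e1 := congrArg (coeff n) h
      have e2 := congrArg (coeff n) h'
      rw [coeff_X_mul_deriv, coeff_mul] at e1 e2
      have : ∑ p ∈ Finset.HasAntidiagonal.antidiagonal n, coeff p.1 f * coeff p.2 g =
          ∑ p ∈ Finset.HasAntidiagonal.antidiagonal n, coeff p.1 f' * coeff p.2 g := by
        refine Finset.sum_congr rfl fun p hp => ?_
        rw [Finset.HasAntidiagonal.mem_antidiagonal] at hp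
        rcases Nat.eq_zero_or_pos p.2 with h2 | h2
        · rw [h2]; simp [hg]
        · rw [ih p.1 (by omega)]
      have hn' : (n : Ω) ≠ 0 := by exact_mod_cast hn.ne'
      exact mul_left_cancel₀ hn' (e1.trans (this.trans e2.symm))

lemma LD.map {Ω' : Type*} [CommRing Ω'] (φ : Ω →+* Ω') {f g : Ω⟦X⟧} (h : LD f g) :
    LD (PowerSeries.map φ f) (PowerSeries.map φ g) := by
  ext n
  have := congrArg (fun u => φ (coeff n u)) h
  simp only [coeff_X_mul_deriv] at this
  rw [coeff_X_mul_deriv, ← map_mul, coeff_map, coeff_map, ← this]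
  simp

/-- The logarithmic derivative of the inverse of a local factor. -/
noncomputable def geom (a : Ω) (d : ℕ) : Ω⟦X⟧ :=
  PowerSeries.mk fun r => if r ≠ 0 ∧ d ∣ r then (d : Ω) * a ^ (r / d) else 0

lemma coeff_geom (a : Ω) (d r : ℕ) :
    coeff r (geom a d) = if r ≠ 0 ∧ d ∣ r then (d : Ω) * a ^ (r / d) else 0 := by
  simp [geom]

lemma coeff_geom_of_lt (a : Ω) {d r : ℕ} (h : r < d) : coeff r (geom a d) = 0 := by
  rw [coeff_geom, if_neg]
  rintro ⟨h0, h1⟩
  exact absurd (Nat.le_of_dvd (Nat.pos_of_ne_zero h0) h1) (by omega)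

lemma LD.factor (a : Ω) {d : ℕ} (hd : 0 < d) : LD (1 - C a * X ^ d) (-geom a d) := by
  ext n
  rw [coeff_X_mul_deriv, mul_neg, sub_mul, one_mul, mul_assoc, map_neg, map_sub, map_sub,
    coeff_C_mul, coeff_C_mul, coeff_X_pow_mul', coeff_X_pow, coeff_one, coeff_geom]
  by_cases hn : n = 0
  · subst hn
    simp [hd.ne', hd.ne]
  by_cases hdn : d ≤ n
  · rw [if_pos hdn, coeff_geom]
    by_cases he : n = d
    · subst he
      simp [hn, Nat.div_self hd]
    · have hdvd : d ∣ n - d ↔ d ∣ n := by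
        constructor
        · intro h; simpa [Nat.sub_add_cancel hdn] using (Nat.dvd_add h (dvd_refl d))
        · intro h; exact Nat.dvd_sub h (dvd_refl d)
      by_cases h : d ∣ n
      · have h1 : n - d ≠ 0 := by omega
        have h2 : n / d = (n - d) / d + 1 := by
          conv_lhs => rw [← Nat.sub_add_cancel hdn]
          exact Nat.add_div_right _ hd
        simp only [hn, he, h, hdvd, h1, ne_eq, not_false_eq_true, and_self, if_true, if_false, h2]
        ring
      · simp [hn, he, h, hdvd]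
  · have h1 : n ≠ d := by omega
    have h2 : ¬ d ∣ n := fun h => hdn (Nat.le_of_dvd (Nat.pos_of_ne_zero hn) h)
    simp [hn, hdn, h1, h2]

/-- `f` is the Euler product of the local factors `(1 - ψ i * X ^ deg i)⁻¹`. -/
def IsEuler {ι : Type*} (deg : ι → ℕ) (ψ : ι → Ω) (f : Ω⟦X⟧) : Prop :=
  ∀ (d : ℕ) (T : Finset ι), (∀ i, deg i ≤ d → i ∈ T) →
    X ^ (d + 1) ∣ f * ∏ i ∈ T, (1 - C (ψ i) * X ^ deg i) - 1

/-- The generating series of the weighted point counts. -/
noncomputable def psum {ι : Type*} (deg : ι → ℕ) (ψ : ι → Ω) : Ω⟦X⟧ :=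
  PowerSeries.mk fun r => ∑ᶠ i, coeff r (geom (ψ i) (deg i))

lemma coeff_psum {ι : Type*} (deg : ι → ℕ) (ψ : ι → Ω) {r : ℕ} (T : Finset ι)
    (hT : ∀ i, deg i ≤ r → i ∈ T) :
    coeff r (psum deg ψ) = ∑ i ∈ T, coeff r (geom (ψ i) (deg i)) := by
  rw [psum, coeff_mk]
  refine finsum_eq_sum_of_support_subset _ fun i hi => ?_
  by_contra hiT
  apply hi
  apply coeff_geom_of_lt
  by_contra hlt
  exact hiT (hT i (by omega))

lemma constantCoeff_psum {ι : Type*} (deg : ι → ℕ) (ψ : ι → Ω) :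
    constantCoeff (psum deg ψ) = 0 := by
  rw [← coeff_zero_eq_constantCoeff_apply, psum, coeff_mk]
  simp [coeff_geom]

lemma constantCoeff_prod_factor {ι : Type*} {deg : ι → ℕ} (hpos : ∀ i, 0 < deg i) (ψ : ι → Ω)
    (T : Finset ι) : constantCoeff (∏ i ∈ T, (1 - C (ψ i) * X ^ deg i : Ω⟦X⟧)) = 1 := by
  rw [map_prod]
  refine Finset.prod_eq_one fun i _ => ?_
  simp [(hpos i).ne']

lemma IsEuler.constantCoeff {ι : Type*} {deg : ι → ℕ} {ψ : ι → Ω} {f : Ω⟦X⟧}
    (hpos : ∀ i, 0 < deg i) (h : IsEuler deg ψ f) : constantCoeff f = 1 := by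
  have := h 0 ∅ fun i hi => absurd (hpos i) (by omega)
  rw [zero_add, pow_one, X_dvd_iff] at this
  simpa [sub_eq_zero] using this

lemma IsEuler.ld {ι : Type*} {deg : ι → ℕ} {ψ : ι → Ω} {f : Ω⟦X⟧}
    (hpos : ∀ i, 0 < deg i) (hfin : ∀ d, {i | deg i ≤ d}.Finite) (h : IsEuler deg ψ f) :
    LD f (psum deg ψ) := by
  ext d
  set T := (hfin d).toFinset with hTdef
  have hT : ∀ i, deg i ≤ d → i ∈ T := fun i hi => by simpa [hTdef] using hi
  set F := ∏ i ∈ T, (1 - C (ψ i) * X ^ deg i : Ω⟦X⟧) with hF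
  set g := ∑ i ∈ T, geom (ψ i) (deg i) with hg
  have hLD : LD F (-g) := by
    rw [hg, ← Finset.sum_neg_distrib]
    exact LD.prod T _ _ fun i _ => LD.factor _ (hpos i)
  obtain ⟨w, hw⟩ := h d T hT
  have hunit : IsUnit F := by
    rw [isUnit_iff_constantCoeff, constantCoeff_prod_factor hpos]; exact isUnit_one
  have h1 : (X : Ω⟦X⟧) ^ (d + 1) ∣ X * d⁄dX Ω (f * F) := by
    rw [X_pow_dvd_iff]
    intro m hm
    rw [coeff_X_mul_deriv]
    have : f * F = 1 + X ^ (d + 1) * w := by rw [← hw]; ring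
    rw [this, map_add, coeff_X_pow_mul', if_neg (by omega), coeff_one]
    by_cases hm0 : m = 0 <;> simp [hm0]
  have h2 : X * d⁄dX Ω (f * F) = F * (X * d⁄dX Ω f - f * g) := by
    rw [Derivation.leibniz, smul_eq_mul, smul_eq_mul]
    unfold LD at hLD
    linear_combination f * hLD
  rw [h2, hunit.dvd_mul_left] at h1
  have h3 : (X : Ω⟦X⟧) ^ (d + 1) ∣ f * (g - psum deg ψ) := by
    refine Dvd.dvd.mul_left ?_ _
    rw [X_pow_dvd_iff]
    intro m hm
    rw [map_sub, coeff_psum deg ψ T (fun i hi => hT i (by omega)), hg, map_sum, sub_self]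
  have h4 := dvd_add h1 h3
  rw [X_pow_dvd_iff] at h4
  have h5 := h4 d (by omega)
  rw [show X * d⁄dX Ω f - f * g + f * (g - psum deg ψ) = X * d⁄dX Ω f - f * psum deg ψ by ring,
    map_sub, sub_eq_zero] at h5
  exact h5

lemma IsEuler.map {Ω' : Type*} [CommRing Ω'] (φ : Ω →+* Ω') {ι : Type*} {deg : ι → ℕ}
    {ψ : ι → Ω} {f : Ω⟦X⟧} (h : IsEuler deg ψ f) :
    IsEuler deg (fun i => φ (ψ i)) (PowerSeries.map φ f) := by
  intro d T hT
  have := map_dvd (PowerSeries.map φ) (h d T hT)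
  simpa using this

end LD

section Roots

variable {Ω : Type*} [Field Ω] [IsAlgClosed Ω]

lemma coe_eq_prod_roots (L : Polynomial Ω) (h0 : L.coeff 0 = 1) :
    (L : Ω⟦X⟧) = (L.roots.map fun z => (1 - C z⁻¹ * X ^ 1 : Ω⟦X⟧)).prod := by
  have hL : L ≠ 0 := by rintro rfl; simp at h0
  have hz : ∀ z ∈ L.roots, z ≠ 0 := by
    rintro z hz rfl
    rw [Polynomial.mem_roots hL, Polynomial.IsRoot.def, ← Polynomial.coeff_zero_eq_eval_zero,
      h0] at hz
    exact one_ne_zero hz
  have hs := (IsAlgClosed.splits L).eq_prod_roots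
  have e1 : (L : Ω⟦X⟧) = C (L.leadingCoeff * (L.roots.map fun z => -z).prod) *
      (L.roots.map fun z => (1 - C z⁻¹ * X ^ 1 : Ω⟦X⟧)).prod := by
    conv_lhs => rw [hs]
    rw [← Polynomial.coeToPowerSeries.ringHom_apply, map_mul, map_multiset_prod, map_mul,
      mul_assoc, map_multiset_prod, Multiset.map_map, Multiset.map_map, ← Multiset.prod_map_mul]
    congr 1
    · simp
    · congr 1
      refine Multiset.map_congr rfl fun z hz' => ?_
      have := hz z hz'
      simp only [Function.comp_apply, map_sub, Polynomial.coeToPowerSeries.ringHom_apply,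
        Polynomial.coe_X, Polynomial.coe_C, map_neg, pow_one]
      rw [mul_sub, mul_one, neg_mul, ← mul_assoc, ← map_mul, mul_inv_cancel₀ this, map_one]
      ring
  have e2 := congrArg constantCoeff e1
  rw [map_mul, map_multiset_prod, Multiset.map_map, constantCoeff_C] at e2
  have e3 : (Multiset.map (⇑constantCoeff ∘ fun z : Ω => (1 - C z⁻¹ * X ^ 1 : Ω⟦X⟧))
      L.roots).prod = 1 := by
    refine Multiset.prod_eq_one fun x hx => ?_
    obtain ⟨z, -, rfl⟩ := Multiset.mem_map.1 hx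
    simp
  rw [e3, mul_one, Polynomial.constantCoeff_coe, h0] at e2
  rw [e1, ← e2, map_one, one_mul]

lemma LD.coeff_eq_roots {L : Polynomial Ω} (h0 : L.coeff 0 = 1) {g : Ω⟦X⟧}
    (h : LD (L : Ω⟦X⟧) g) {r : ℕ} (hr : r ≠ 0) :
    coeff r g = -(L.roots.map fun z => z⁻¹ ^ r).sum := by
  have hL : (L : Ω⟦X⟧) ≠ 0 := by
    intro h'
    have := congrArg constantCoeff h'
    rw [Polynomial.constantCoeff_coe, h0] at this
    simp at this
  have h' : LD (L : Ω⟦X⟧) (L.roots.map fun z => -geom z⁻¹ 1).sum := by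
    conv_lhs => rw [coe_eq_prod_roots L h0]
    exact LD.multiset_prod _ _ _ fun z _ => LD.factor _ one_pos
  rw [LD.unique_right hL h h', map_multiset_sum, Multiset.map_map, ← Multiset.sum_map_neg]
  congr 1
  refine Multiset.map_congr rfl fun z _ => ?_
  simp [coeff_geom, hr]

end Roots

end Pool.Agent.MP_51ecca_nt
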