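import Mathlib

set_option linter.unusedSectionVars false

namespace Pool.Agent.MP_51ecca_nt

open Polynomial

lemma natCast_mem_pow_totient {C : Type*} [CommRing C] [IsDomain C] {p n : ℕ} [Fact p.Prime]
    {ζ : C} (hζ : IsPrimitiveRoot ζ (p ^ (n + 1))) (Q : Ideal C) [hQ : Q.IsPrime]
    (hp : (p : C) ∈ Q) : (p : C) ∈ Q ^ (p ^ (n + 1)).totient := by
  have h1 := eval_one_cyclotomic_prime_pow (R := C) (p := p) n
  rw [cyclotomic_eq_prod_X_sub_primitiveRoots hζ, eval_prod] at h1
  rw [← h1, ← hζ.card_primitiveRoots, ← Finset.prod_const]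
  refine Ideal.prod_mem_prod fun μ hμ => ?_
  have hpos : 0 < p ^ (n + 1) := pow_pos (Fact.out : p.Prime).pos _
  rw [mem_primitiveRoots hpos] at hμ
  rw [eval_sub, eval_X, eval_C, ← Ideal.Quotient.eq_zero_iff_mem]
  have : CharP (C ⧸ Q) p := by
    rw [CharP.charP_iff_prime_eq_zero Fact.out, ← map_natCast (Ideal.Quotient.mk Q),
      Ideal.Quotient.eq_zero_iff_mem]
    exact hp
  apply pow_eq_zero_iff (M₀ := C ⧸ Q) hpos.ne' |>.1
  rw [map_sub, sub_pow_char_pow, ← map_pow, ← map_pow, hμ.pow_eq_one, one_pow, sub_self]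

theorem totient_le_ram (p n : ℕ) [Fact p.Prime] (F F' : Type*) [Field F] [Field F']
    [Algebra ℚ_[p] F] [Algebra ℤ_[p] F] [IsScalarTower ℤ_[p] ℚ_[p] F] [FiniteDimensional ℚ_[p] F]
    [Algebra F F'] [FiniteDimensional F F'] {ζ : F'} (hζ : IsPrimitiveRoot ζ (p ^ (n + 1))) :
    (p ^ (n + 1)).totient ≤
      (IsLocalRing.maximalIdeal ℤ_[p]).ramificationIdxIn (integralClosure ℤ_[p] F) *
        Module.finrank F F' := by
  have : CharZero F := charZero_of_injective_algebraMap (algebraMap ℚ_[p] F).injective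
  have : CharZero F' := charZero_of_injective_algebraMap (algebraMap F F').injective
  let B := integralClosure ℤ_[p] F
  have : IsDedekindDomain B := integralClosure.isDedekindDomain ℤ_[p] ℚ_[p] F
  have : IsFractionRing B F := integralClosure.isFractionRing_of_finite_extension ℚ_[p] F
  let C := integralClosure B F'
  have : IsDedekindDomain C := integralClosure.isDedekindDomain B F F'
  have : IsFractionRing C F' := integralClosure.isFractionRing_of_finite_extension F F'
  have : Module.Finite B C := IsIntegralClosure.finite B F F' C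
  have : Module.IsTorsionFree B F' := .trans_faithfulSMul B F F'
  have : Module.IsTorsionFree B C := IsIntegralClosure.isTorsionFree B F'
  have : Module.IsTorsionFree ℤ_[p] F := .trans_faithfulSMul ℤ_[p] ℚ_[p] F
  have : Module.IsTorsionFree ℤ_[p] B := IsIntegralClosure.isTorsionFree ℤ_[p] F
  let : Algebra ℤ_[p] C := ((algebraMap B C).comp (algebraMap ℤ_[p] B)).toAlgebra
  have : IsScalarTower ℤ_[p] B C := .of_algebraMap_eq fun _ => rfl
  have hex : ∃ P : Ideal B, P.IsPrime ∧ P.LiesOver (IsLocalRing.maximalIdeal ℤ_[p]) := by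
    obtain ⟨P, hP, hP'⟩ := Ideal.exists_maximal_ideal_liesOver_of_isIntegral (S := B)
      (IsLocalRing.maximalIdeal ℤ_[p])
    exact ⟨P, hP.isPrime, hP'⟩
  rw [Ideal.ramificationIdxIn, dif_pos hex]
  obtain ⟨hP, hP'⟩ := hex.choose_spec
  set P := hex.choose
  have hm0 : IsLocalRing.maximalIdeal ℤ_[p] ≠ ⊥ := IsDiscreteValuationRing.not_a_field _
  have hP0 : P ≠ ⊥ := Ideal.ne_bot_of_liesOver_of_ne_bot hm0 P
  have := hP.isMaximal hP0
  obtain ⟨Q, hQ, hQ'⟩ := Ideal.exists_maximal_ideal_liesOver_of_isIntegral (S := C) P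
  have : Q.LiesOver (IsLocalRing.maximalIdeal ℤ_[p]) := Ideal.LiesOver.trans Q P _
  have h1 : Q.ramificationIdx ℤ_[p] = P.ramificationIdx ℤ_[p] * Q.ramificationIdx B :=
    Ideal.ramificationIdx_tower P Q
  have h2 : Q.ramificationIdx B ≤ Module.finrank F F' := by
    rw [IsFractionRing.finrank_eq B F C F', ← Ideal.sum_ramification_inertia_eq_finrank P C]
    refine le_trans ?_ (Finset.single_le_sum (f := fun q : P.primesOver C =>
      q.1.ramificationIdx B * q.1.inertiaDeg B) (fun _ _ => Nat.zero_le _)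
      (Finset.mem_univ ⟨Q, hQ.isPrime, hQ'⟩))
    exact Nat.le_mul_of_pos_right _ (Ideal.inertiaDeg_pos Q B)
  have hint : IsIntegral B ζ := (hζ.isIntegral (pow_pos (Fact.out : p.Prime).pos _)).tower_top
  let ζ' : C := ⟨ζ, hint⟩
  have hζ' : IsPrimitiveRoot ζ' (p ^ (n + 1)) :=
    IsPrimitiveRoot.of_map_of_injective (f := algebraMap C F') hζ Subtype.val_injective
  have hmap : (IsLocalRing.maximalIdeal ℤ_[p]).map (algebraMap ℤ_[p] C) = Ideal.span {(p : C)} := by
    rw [PadicInt.maximalIdeal_eq_span_p, Ideal.map_span, Set.image_singleton, map_natCast]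
  have hp0 : (p : C) ≠ 0 := by
    intro h
    have := congrArg (algebraMap C F') h
    rw [map_natCast, map_zero] at this
    exact (Fact.out : p.Prime).ne_zero (by exact_mod_cast this)
  have hne : (IsLocalRing.maximalIdeal ℤ_[p]).map (algebraMap ℤ_[p] C) ≠ ⊥ := by
    rw [hmap]
    simpa using hp0
  have hpQ : (p : C) ∈ Q := by
    rw [← Ideal.span_singleton_le_iff_mem, ← hmap]
    exact Ideal.map_le_of_le_comap (Q.over_def _).le
  have h3 : (p ^ (n + 1)).totient ≤ Q.ramificationIdx ℤ_[p] := by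
    rw [Ideal.IsDedekindDomain.ramificationIdx_eq_multiplicity _ Q hne]
    have hQ0 : Q ≠ ⊥ := Ideal.ne_bot_of_liesOver_of_ne_bot hP0 Q
    refine (FiniteMultiplicity.of_prime_left (Ideal.prime_of_isPrime hQ0 hQ.isPrime)
      hne).le_multiplicity_of_pow_dvd ?_
    rw [hmap, Ideal.dvd_iff_le, Ideal.span_singleton_le_iff_mem]
    exact natCast_mem_pow_totient hζ' Q hpQ
  calc _ ≤ _ := h3
    _ = _ := h1
    _ ≤ _ := Nat.mul_le_mul_left _ h2

end Pool.Agent.MP_51ecca_nt
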