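import Pool.Agent.MP_51ecca_nt.Bound
import Pool.Agent.MP_51ecca_nt.Padic

set_option linter.unusedSectionVars false

namespace Pool.Agent.MP_51ecca_nt

open IsDedekindDomain IntermediateField Polynomial

lemma totient_le_mul (p n : ℕ) [Fact p.Prime] (P : ℚ[X]) (hP : P ≠ 0) (N : ℕ)
    (hN : ∀ (Ω : Type) [Field Ω] [IsAlgClosed Ω] [CharZero Ω]
      (ψ : AddChar (ZMod (p ^ (n + 1))) Ω) (_ : ψ.IsPrimitive),
      {u : ZMod (p ^ (n + 1)) | ∃ τ : Ω →+* Ω, (∀ z ∈ (P.map (algebraMap ℚ Ω)).roots, τ z = z) ∧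
        ∀ y, τ (ψ y) = ψ (u * y)}.ncard ≤ N) :
    (p ^ (n + 1)).totient ≤ (IsLocalRing.maximalIdeal ℤ_[p]).ramificationIdxIn
      (integralClosure ℤ_[p] (P.map (algebraMap ℚ ℚ_[p])).SplittingField) * N := by
  have : NeZero (p ^ (n + 1)) := ⟨pow_ne_zero _ (Fact.out : p.Prime).ne_zero⟩
  let F := (P.map (algebraMap ℚ ℚ_[p])).SplittingField
  have : CharZero F := charZero_of_injective_algebraMap (algebraMap ℚ_[p] F).injective
  let Ω := AlgebraicClosure F
  obtain ⟨ζ, hζ⟩ := HasEnoughRootsOfUnity.exists_primitiveRoot Ω (p ^ (n + 1))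
  have hi : IsIntegral F ζ := Algebra.IsIntegral.isIntegral ζ
  have := adjoin.finiteDimensional hi
  have hζ' : IsPrimitiveRoot (AdjoinSimple.gen F ζ) (p ^ (n + 1)) :=
    IsPrimitiveRoot.of_map_of_injective (f := algebraMap F⟮ζ⟯ Ω) hζ (algebraMap F⟮ζ⟯ Ω).injective
  refine (totient_le_ram p n F F⟮ζ⟯ hζ').trans (Nat.mul_le_mul_left _ ?_)
  refine (finrank_adjoin_le F Ω hζ).trans (le_trans (Set.ncard_le_ncard ?_ (Set.toFinite _))
    (hN Ω _ (AddChar.zmodChar_primitive_of_primitive_root _ hζ)))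
  rintro u ⟨τ, hτ⟩
  refine ⟨τ.toRingEquiv.toRingHom, fun z hz => ?_, fun y => ?_⟩
  · have e : P.map (algebraMap ℚ Ω) =
        ((P.map (algebraMap ℚ ℚ_[p])).map (algebraMap ℚ_[p] F)).map (algebraMap F Ω) := by
      rw [Polynomial.map_map, Polynomial.map_map]
      congr 1
    rw [e] at hz
    obtain ⟨y, rfl⟩ := (SplittingField.splits (P.map (algebraMap ℚ ℚ_[p]))).mem_range_of_isRoot
      (map_ne_zero (map_ne_zero hP)) (isRoot_of_mem_roots hz)
    exact τ.commutes y
  · conv_rhs => rw [← ZMod.natCast_zmod_val u, ← ZMod.natCast_zmod_val y, ← Nat.cast_mul]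
    rw [AddChar.zmodChar_apply', AddChar.zmodChar_apply, map_pow, pow_mul, ← hτ]
    rfl

lemma IsChart.ne_zero_of_eq {k K : Type} [Field k] [Finite k] [Field K] [Algebra k K] {h : K}
    (hh : IsChart k h) {P : ℚ[X]} (hP : (P : PowerSeries ℚ) = (1 - PowerSeries.X) *
      (1 - (Nat.card k : PowerSeries ℚ) * PowerSeries.X) * zetaSeries k K) : P ≠ 0 := by
  intro h0
  have hM := hh.isModel (Rg k h)
  have := hM.ded
  have := hM.frac
  have := hM.finq
  have := hM.inf
  obtain ⟨Pl, -, -, -, -, hZ⟩ := zeta_mul_eq hh hM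
  have h1 := congrArg PowerSeries.constantCoeff hZ
  have h2 := congrArg PowerSeries.constantCoeff hP
  rw [map_mul, constantCoeff_lser k IsMult.one] at h1
  rw [h0] at h2
  simp only [Polynomial.coe_zero, map_zero, map_mul, map_sub, map_one,
    PowerSeries.constantCoeff_X, sub_zero, mul_zero, one_mul] at h2
  rw [← h2, zero_mul] at h1
  exact zero_ne_one h1

theorem wan (p : ℕ) [Fact p.Prime] (k K L : Type) [Field k] [Finite k] [CharP k p]
    [Field K] [Field L] [Algebra k K] [Algebra K L] [Algebra k L] [IsScalarTower k K L]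
    [Algebra.EssFiniteType k K] (htr : Algebra.trdeg k K = 1)
    (T : ℕ → IntermediateField K L) (hmono : Monotone T)
    (hgal : ∀ n, IsGalois K (T n))
    (hcyc : ∀ n, Nonempty ((T n ≃ₐ[K] T n) ≃* Multiplicative (ZMod (p ^ n))))
    (hgeom : ∀ n, algebraicClosure k (T n) = ⊥)
    (hS : (ramificationLocus k T).Finite) :
    ∃ P : ℕ → ℚ[X],
      (∀ n, (P n : PowerSeries ℚ) =
        (1 - PowerSeries.X) * (1 - (Nat.card k : PowerSeries ℚ) * PowerSeries.X) *
          zetaSeries k (T n)) ∧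
      ∃ c : ℝ, 0 < c ∧ ∀ᶠ n in Filter.atTop,
        c * (p : ℝ) ^ n ≤ ((IsLocalRing.maximalIdeal ℤ_[p]).ramificationIdxIn
          (integralClosure ℤ_[p] ((P n).map (algebraMap ℚ ℚ_[p])).SplittingField) : ℕ) := by
  have hp : p.Prime := Fact.out
  have hcard : ∀ n, Nat.card (T n ≃ₐ[K] T n) = p ^ n := fun n => by
    obtain ⟨e⟩ := hcyc n
    rw [Nat.card_congr e.toEquiv, Nat.card_congr Multiplicative.toAdd, Nat.card_zmod]
  have hfd : ∀ n, FiniteDimensional K (T n) := fun n => by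
    have : Finite (T n ≃ₐ[K] T n) :=
      Nat.finite_of_card_ne_zero (hcard n ▸ pow_ne_zero _ hp.ne_zero)
    exact IsGaloisGroup.finiteDimensional (T n ≃ₐ[K] T n) K (T n)
  have hgeom₀ : algebraicClosure k K = ⊥ := by
    rw [eq_bot_iff]
    intro x hx
    have : algebraMap K (T 0) x ∈ algebraicClosure k (T 0) :=
      mem_algebraicClosure_iff.2 ((mem_algebraicClosure_iff.1 hx).algebraMap)
    rw [hgeom 0, IntermediateField.mem_bot] at this
    obtain ⟨c, hc⟩ := this
    rw [IsScalarTower.algebraMap_apply k K (T 0)] at hc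
    exact ⟨c, (algebraMap K (T 0)).injective hc⟩
  obtain ⟨h₀, hh₀⟩ := exists_isChart htr
  obtain ⟨h, hh, hSh⟩ := hh₀.exists_poles_superset p hS
  have hun : ∀ n, ∀ y : Place k (T n), algebraMap K (T n) h ∈ y.1 →
      y.1.inertiaSubgroup K = ⊥ := by
    intro n y hy
    by_contra hne
    let x : Place k K := ⟨y.1.comap (algebraMap K (T n)), fun htop => y.2.1 (eq_top_iff.2
      fun z _ => mem_valuationSubring_of_isIntegral y.1 (A := K)
        (fun a => ValuationSubring.mem_comap.1 (htop ▸ ValuationSubring.mem_top a))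
        (Algebra.IsIntegral.isIntegral z)), fun c => by
      rw [ValuationSubring.mem_comap, ← IsScalarTower.algebraMap_apply]
      exact y.2.2 c⟩
    exact hSh x ⟨n, y, rfl, hne⟩ hy
  have hch : ∀ n, IsChart k (algebraMap K (T n) h) := fun n =>
    have := (hgal n).to_isSeparable
    hh.map (T n)
  choose P hP using fun n => (hch n).exists_poly_zetaSeries p (hgeom n)
  refine ⟨P, hP, ?_⟩
  obtain ⟨N, hN⟩ := exists_bound p (T 1) hh (Rg k h) hgeom₀ (hgeom 1)
    (by rw [hcard, pow_one]; exact hp.one_lt)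
    (fun g => by have := pow_card_eq_one' (x := g); rwa [hcard, pow_one] at this) (hun 1)
  refine ⟨1 / (2 * (N + 1)), by positivity, ?_⟩
  filter_upwards [Filter.eventually_ge_atTop 1] with n hn
  obtain ⟨n, rfl⟩ : ∃ m, n = m + 1 := ⟨n - 1, by omega⟩
  obtain ⟨e⟩ := hcyc (n + 1)
  let : Algebra (T 1) (T (n + 1)) := (IntermediateField.inclusion (hmono hn)).toRingHom.toAlgebra
  have : IsScalarTower K (T 1) (T (n + 1)) := .of_algebraMap_eq fun _ => rfl
  have hP0 : P (n + 1) ≠ 0 := (hch (n + 1)).ne_zero_of_eq (hP (n + 1))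
  have := hfd (n + 1)
  have := hgal (n + 1)
  have h1 := totient_le_mul p n (P (n + 1)) hP0 N
    (hN (n + 1) (T (n + 1)) e (hun (n + 1)) (P (n + 1)) (hP (n + 1)))
  generalize (IsLocalRing.maximalIdeal ℤ_[p]).ramificationIdxIn
    (integralClosure ℤ_[p] ((P (n + 1)).map (algebraMap ℚ ℚ_[p])).SplittingField) = r at h1 ⊢
  rw [Nat.totient_prime_pow_succ hp] at h1
  have h2 : p ^ (n + 1) ≤ 2 * (N + 1) * r := by
    have h3 : p ≤ 2 * (p - 1) := by have := hp.two_le; omega
    calc p ^ (n + 1) = p ^ n * p := pow_succ _ _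
      _ ≤ p ^ n * (2 * (p - 1)) := Nat.mul_le_mul_left _ h3
      _ = 2 * (p ^ n * (p - 1)) := by ring
      _ ≤ 2 * (r * N) := Nat.mul_le_mul_left _ h1
      _ ≤ 2 * (N + 1) * r := by nlinarith
  rw [div_mul_eq_mul_div, one_mul, div_le_iff₀ (by positivity), mul_comm]
  exact_mod_cast h2

end Pool.Agent.MP_51ecca_nt
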