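import Pool.Agent.MP_51ecca_nt.Defs
import Pool.Agent.MP_51ecca_nt.IdealDeg

set_option linter.unusedSectionVars false

namespace Pool.Agent.MP_51ecca_nt

open IsDedekindDomain PowerSeries
open scoped PowerSeries.WithPiTopology

section Plc

variable (k : Type) {R : Type*} (K : Type) [Field k] [CommRing R] [IsDedekindDomain R] [Field K]
  [Algebra R K] [IsFractionRing R K] [Algebra k R] [Algebra k K] [IsScalarTower k R K]

/-- The place attached to a nonzero prime. -/
noncomputable def plc (v : HeightOneSpectrum R) : Place k K :=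
  ⟨v.valuationSubringAtPrime K, by
    rw [v.valuationSubringAtPrime_eq_valuationSubring]
    simp only [ne_eq, Valuation.valuationSubring_eq_top_iff, not_not]
    infer_instance, fun c => by
    rw [v.valuationSubringAtPrime_eq_valuationSubring, IsScalarTower.algebraMap_apply k R K]
    exact v.valuation_le_one (algebraMap k R c)⟩

variable {k K}

lemma mem_plc_iff {v : HeightOneSpectrum R} {x : K} : x ∈ (plc k K v).1 ↔ v.valuation K x ≤ 1 := by
  change x ∈ v.valuationSubringAtPrime K ↔ _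
  rw [v.valuationSubringAtPrime_eq_valuationSubring]
  rfl

lemma algebraMap_mem_plc (v : HeightOneSpectrum R) (r : R) : algebraMap R K r ∈ (plc k K v).1 :=
  mem_plc_iff.2 (v.valuation_le_one r)

lemma inv_mem_plc_iff {v : HeightOneSpectrum R} {r : R} (hr : r ≠ 0) :
    (algebraMap R K r)⁻¹ ∈ (plc k K v).1 ↔ r ∉ v.asIdeal := by
  have h0 : 0 < v.valuation K (algebraMap R K r) := by
    rw [Valuation.pos_iff]
    simpa using hr
  rw [mem_plc_iff, map_inv₀, inv_le_one₀ h0, ← not_lt]
  exact (v.valuation_lt_one_iff_mem r).not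

lemma plc_injective : Function.Injective (plc k K (R := R)) := by
  intro v w h
  ext r
  by_cases hr : r = 0
  · simp [hr]
  · rw [← not_iff_not, ← inv_mem_plc_iff (k := k) (K := K) hr, h, inv_mem_plc_iff hr]

lemma exists_plc_eq (O : Place k K) (h : ∀ r : R, algebraMap R K r ∈ O.1) :
    ∃ v : HeightOneSpectrum R, plc k K v = O := by
  let f : R →+* O.1 := (algebraMap R K).codRestrict O.1 h
  let P : Ideal R := (IsLocalRing.maximalIdeal O.1).comap f
  have hP : ∀ s : R, s ∉ P → (algebraMap R K s)⁻¹ ∈ O.1 := by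
    intro s hs
    by_contra hs'
    apply hs
    change f s ∈ IsLocalRing.maximalIdeal O.1
    rw [← ValuationSubring.coe_mem_nonunits_iff, ValuationSubring.mem_nonunits_iff_or]
    exact Or.inr hs'
  have hP0 : P ≠ ⊥ := by
    intro h0
    apply O.2.1
    rw [eq_top_iff]
    intro x _
    obtain ⟨a, b, hb, rfl⟩ := IsFractionRing.div_surjective (A := R) x
    rw [div_eq_mul_inv]
    exact mul_mem (h a) (hP b (by rw [h0]; exact nonZeroDivisors.ne_zero hb))
  refine ⟨⟨P, inferInstance, hP0⟩, Subtype.ext ?_⟩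
  refine ValuationSubring.eq_of_le_of_ne_top
    ((⟨P, inferInstance, hP0⟩ : HeightOneSpectrum R).valuationSubringAtPrime K) ?_ O.2.1
  rintro x ⟨a, s, hs, rfl⟩
  exact mul_mem (h a) (hP s hs)

lemma degree_plc [Finite k] [Ring.HasFiniteQuotients R] (v : HeightOneSpectrum R) :
    (plc k K v).degree = pdeg k v := by
  have := v.isMaximal
  have e : Nat.card (IsLocalRing.ResidueField (plc k K v).1) = Nat.card (R ⧸ v.asIdeal) :=
    (Nat.card_congr (IsLocalization.AtPrime.equivQuotMaximalIdeal v.asIdeal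
      (v.valuationSubringAtPrime K)).toEquiv).symm
  rw [Place.degree, e, card_quot_eq k v.ne_bot, Nat.log_pow (one_lt_card k)]
  rfl

open scoped Pointwise in
lemma inertia_eq_bot {K₀ G : Type*} [Field K₀] [Algebra K₀ K] [Group G] [MulSemiringAction G R]
    [MulSemiringAction G K] [SMulCommClass G K₀ K] [FaithfulSMul G K]
    (hact : ∀ (g : G) (r : R), algebraMap R K (g • r) = g • algebraMap R K r)
    (w : HeightOneSpectrum R) (h : (plc k K w).1.inertiaSubgroup K₀ = ⊥) :
    w.asIdeal.inertia G = ⊥ := by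
  have key : ∀ g ∈ w.asIdeal.inertia G, ∀ x : K, w.valuation K x ≤ 1 →
      w.valuation K (g • x - x) < 1 := by
    intro g hg x hx
    obtain ⟨n, d, hnd⟩ := w.exists_primeCompl_mul_eq_of_integer x hx
    have hd : (d : R) ∉ w.asIdeal := d.2
    have hd' : g • (d : R) ∉ w.asIdeal := fun h' => hd (by simpa using sub_mem h' (hg d))
    have h1 : (g • x - x) * algebraMap R K d * algebraMap R K (g • (d : R)) =
        algebraMap R K ((g • n - n) * d - n * (g • (d : R) - d)) := by
      have h2 : g • x * algebraMap R K (g • (d : R)) = algebraMap R K (g • n) := by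
        rw [hact, hact, ← smul_mul', hnd]
      simp only [map_sub, map_mul]
      rw [← hnd, ← h2]
      ring
    have h3 := congrArg (w.valuation K) h1
    rw [map_mul, map_mul, (w.valuation_eq_one_iff_notMem (K := K)).2 hd,
      (w.valuation_eq_one_iff_notMem (K := K)).2 hd', mul_one, mul_one] at h3
    rw [h3]
    exact (w.valuation_lt_one_iff_mem _).2
      (sub_mem (Ideal.mul_mem_right _ _ (hg n)) (Ideal.mul_mem_left _ _ (hg d)))
  have key' : ∀ g ∈ w.asIdeal.inertia G, ∀ x : K, x ∈ (plc k K w).1 → g • x ∈ (plc k K w).1 := by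
    intro g hg x hx
    have := add_mem (mem_plc_iff.2 (key g hg x (mem_plc_iff.1 hx)).le) hx
    rwa [sub_add_cancel] at this
  rw [eq_bot_iff]
  intro g hg
  let σ : K ≃ₐ[K₀] K := MulSemiringAction.toAlgEquiv K₀ K g
  have hσ : σ ∈ (plc k K w).1.decompositionSubgroup K₀ := by
    rw [MulAction.mem_stabilizer_iff]
    ext x
    rw [ValuationSubring.mem_pointwise_smul_iff_inv_smul_mem]
    change g⁻¹ • x ∈ _ ↔ _
    refine ⟨fun h' => ?_, key' _ (inv_mem hg) x⟩
    simpa using key' g hg _ h'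
  have h1 : (⟨σ, hσ⟩ : (plc k K w).1.decompositionSubgroup K₀) ∈
      (plc k K w).1.inertiaSubgroup K₀ := by
    rw [ValuationSubring.inertiaSubgroup, MonoidHom.mem_ker]
    ext y
    obtain ⟨x, rfl⟩ := IsLocalRing.residue_surjective y
    change (⟨σ, hσ⟩ : (plc k K w).1.decompositionSubgroup K₀) • IsLocalRing.residue _ x =
      IsLocalRing.residue _ x
    rw [← IsLocalRing.ResidueField.residue_smul, ← sub_eq_zero, ← map_sub,
      IsLocalRing.residue_eq_zero_iff, ← ValuationSubring.coe_mem_nonunits_iff,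
      ValuationSubring.mem_nonunits_iff_or, mem_plc_iff, map_inv₀, or_iff_not_imp_left]
    intro h0
    rw [not_le, one_lt_inv₀ ((Valuation.pos_iff _).2 h0)]
    exact key g hg x (mem_plc_iff.1 x.2)
  rw [h, Subgroup.mem_bot, Subtype.ext_iff] at h1
  rw [Subgroup.mem_bot]
  refine eq_of_smul_eq_smul (α := K) fun x => ?_
  rw [one_smul]
  exact DFunLike.congr_fun h1 x

end Plc

section Euler

lemma hasProd_of_isEuler {ι : Type*} {deg : ι → ℕ} (hpos : ∀ i, 0 < deg i)
    (hfin : ∀ d, {i | deg i ≤ d}.Finite) {f : ℚ⟦X⟧} (h : IsEuler deg (fun _ => 1) f) :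
    HasProd (fun i => (1 - X ^ deg i : ℚ⟦X⟧)⁻¹) f := by
  rw [HasProd, PowerSeries.WithPiTopology.tendsto_iff_coeff_tendsto]
  intro d
  refine tendsto_const_nhds.congr' ?_
  filter_upwards [Filter.eventually_ge_atTop (hfin d).toFinset] with T hT
  have h1 := (h d T fun i hi => hT (by simpa using hi)).mul_right
    (∏ i ∈ T, (1 - X ^ deg i : ℚ⟦X⟧)⁻¹)
  rw [sub_mul, mul_assoc, ← Finset.prod_mul_distrib, Finset.prod_eq_one, mul_one, one_mul,
    X_pow_dvd_iff] at h1
  · have := h1 d (by omega)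
    rwa [map_sub, sub_eq_zero] at this
  · intro i _
    rw [map_one, one_mul]
    exact PowerSeries.mul_inv_cancel _ (by simp [(hpos i).ne'])

lemma isEuler_of_injective {ι ι' : Type*} {deg : ι → ℕ} (hpos : ∀ i, 0 < deg i) {e : ι' → ι}
    (he : Function.Injective e) (Pl : Finset ι) (hPl : ∀ x, x ∉ Pl ↔ x ∈ Set.range e)
    {f : ℚ⟦X⟧} (h : IsEuler (fun i => deg (e i)) (fun _ => 1) f) :
    IsEuler deg (fun _ => 1) (f * (∏ i ∈ Pl, (1 - X ^ deg i : ℚ⟦X⟧))⁻¹) := by
  classical
  intro d T hT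
  set E := ∏ i ∈ Pl, (1 - X ^ deg i : ℚ⟦X⟧) with hE
  have hE1 : constantCoeff E = 1 := by
    simpa [hE] using constantCoeff_prod_factor hpos (fun _ => (1 : ℚ)) Pl
  have hEu : E * E⁻¹ = 1 := PowerSeries.mul_inv_cancel _ (by rw [hE1]; exact one_ne_zero)
  have h1 := h d (T.preimage e he.injOn) fun i hi => by simpa using hT _ hi
  have h2 : ∏ i ∈ T.preimage e he.injOn, (1 - C (1 : ℚ) * X ^ deg (e i) : ℚ⟦X⟧) =
      ∏ i ∈ T.filter (· ∉ Pl), (1 - X ^ deg i : ℚ⟦X⟧) := by
    rw [Finset.prod_preimage' e T he.injOn fun i => (1 - C (1 : ℚ) * X ^ deg i : ℚ⟦X⟧)]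
    refine Finset.prod_congr ?_ fun i _ => by simp
    ext i
    simp only [Finset.mem_filter, hPl]
  have h3 : (X : ℚ⟦X⟧) ^ (d + 1) ∣ ∏ i ∈ T.filter (· ∈ Pl), (1 - X ^ deg i : ℚ⟦X⟧) - E := by
    have hsub : T.filter (· ∈ Pl) ⊆ Pl := fun i hi => (Finset.mem_filter.1 hi).2
    rw [hE, ← Finset.prod_sdiff hsub, ← Ideal.mem_span_singleton, ← Ideal.Quotient.eq, map_mul,
      map_prod _ _ (Pl \ _), Finset.prod_eq_one (s := Pl \ _), one_mul]
    intro i hi
    rw [map_sub, map_one, sub_eq_self, Ideal.Quotient.eq_zero_iff_mem, Ideal.mem_span_singleton]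
    refine pow_dvd_pow _ ?_
    by_contra hlt
    rw [Finset.mem_sdiff, Finset.mem_filter] at hi
    exact hi.2 ⟨hT i (by omega), hi.1⟩
  rw [h2] at h1
  simp only [map_one, one_mul]
  rw [← Finset.prod_filter_mul_prod_filter_not T (· ∈ Pl)]
  set A := ∏ i ∈ T.filter (· ∈ Pl), (1 - X ^ deg i : ℚ⟦X⟧)
  set B := ∏ i ∈ T.filter (· ∉ Pl), (1 - X ^ deg i : ℚ⟦X⟧)
  have := dvd_add h1 (h3.mul_left (f * E⁻¹ * B))
  convert this using 1
  linear_combination (f * B) * hEu

end Euler

end Pool.Agent.MP_51ecca_nt
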