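import Pool.Agent.MP_51ecca_nt.Det
import Pool.Agent.MP_51ecca_nt.Count2

set_option linter.unusedSectionVars false

namespace Pool.Agent.MP_51ecca_nt

open MonoidAlgebra
open scoped nonZeroDivisors

section DD

variable (k : Type*) [Field k] {R : Type*} [CommRing R] [Algebra k R]
  {G : Type*} [CommGroup G] [Fintype G]

/-- Multiplication action on a quotient ring. -/
noncomputable def actQ (I : Ideal R) : R →+* Module.End k (R ⧸ I) :=
  (Algebra.lsmul k k (R ⧸ I)).toRingHom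

lemma actQ_mk (I : Ideal R) (r x : R) :
    actQ k I r (Ideal.Quotient.mk I x) = Ideal.Quotient.mk I (r * x) := rfl

/-- The determinant of `ω` acting on `R ⧸ I`. -/
noncomputable def DD (ω : MonoidAlgebra R G) (I : Ideal R) : MonoidAlgebra k G :=
  gdet (mapRingHom G (actQ k I) ω)

lemma DD_top (ω : MonoidAlgebra R G) : DD k ω ⊤ = 1 := by
  have : Subsingleton (R ⧸ (⊤ : Ideal R)) := Ideal.Quotient.subsingleton_iff.2 rfl
  have h : mapRingHom G (actQ k ⊤) ω = 1 := by
    ext1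
    exact Subsingleton.elim _ _
  rw [DD, h, gdet_one]

variable [Ring.HasFiniteQuotients R] [IsDedekindDomain R] [Finite k]

lemma DD_mul_prime (ω : MonoidAlgebra R G) {I P : Ideal R} (hI : I ≠ ⊥) (hP0 : P ≠ ⊥)
    (hP : P.IsPrime) : DD k ω (P * I) = DD k ω P * DD k ω I := by
  have := finiteDimensional_quot k hI
  have := finiteDimensional_quot k hP0
  have hmax : P.IsMaximal := hP.isMaximal hP0
  have hlt : P * I < I := by
    refine lt_of_le_of_ne Ideal.mul_le_right fun h => hP.ne_top ?_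
    have : P * I = ⊤ * I := by rw [h, Ideal.top_mul]
    exact mul_right_cancel₀ hI this
  obtain ⟨b, hbI, hb⟩ := SetLike.exists_of_lt hlt
  obtain ⟨C, hC⟩ : I ∣ Ideal.span {b} := Ideal.dvd_iff_le.2 (by simpa using hbI)
  have hPC : ¬ P ∣ C := fun h => hb (by
    rw [← Ideal.span_singleton_le_iff_mem, ← Ideal.dvd_iff_le, hC, mul_comm P]
    exact mul_dvd_mul_left I h)
  have hker : ∀ x, b * x ∈ P * I ↔ x ∈ P := by
    intro x
    rw [← Ideal.span_singleton_le_iff_mem, ← Ideal.dvd_iff_le,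
      ← Ideal.span_singleton_mul_span_singleton, hC, mul_comm P, mul_assoc,
      mul_dvd_mul_iff_left hI, (Ideal.prime_of_isPrime hP0 hP).dvd_mul, Ideal.dvd_iff_le,
      Ideal.dvd_iff_le, Ideal.span_singleton_le_iff_mem, ← Ideal.dvd_iff_le]
    exact or_iff_right hPC
  have hsup : Ideal.span {b} ⊔ P * I = I := by
    have : C ⊔ P = ⊤ := by
      rw [sup_comm]
      exact hmax.out.2 _ (left_lt_sup.2 fun h => hPC (Ideal.dvd_iff_le.2 h))
    rw [hC, mul_comm P, ← Ideal.mul_sup, this, Ideal.mul_top]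
  let i : (R ⧸ P) →ₗ[R] (R ⧸ P * I) :=
    Submodule.mapQ P (P * I) (LinearMap.mulLeft R b) fun x hx => (hker x).2 hx
  have hi : ∀ x, i (Ideal.Quotient.mk P x) = Ideal.Quotient.mk (P * I) (b * x) := fun x => rfl
  let π : (R ⧸ P * I) →ₗ[R] (R ⧸ I) :=
    Submodule.mapQ (P * I) I LinearMap.id fun x hx => hlt.le hx
  have hπ : ∀ x, π (Ideal.Quotient.mk (P * I) x) = Ideal.Quotient.mk I x := fun x => rfl
  refine gdet_exact (i.restrictScalars k) (π.restrictScalars k) ?_ ?_ ?_ _ _ _ ?_ ?_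
  · rw [injective_iff_map_eq_zero]
    intro x hx
    obtain ⟨x, rfl⟩ := Ideal.Quotient.mk_surjective x
    rw [LinearMap.restrictScalars_apply, hi, Ideal.Quotient.eq_zero_iff_mem, hker] at hx
    exact Ideal.Quotient.eq_zero_iff_mem.2 hx
  · intro x
    obtain ⟨x, rfl⟩ := Ideal.Quotient.mk_surjective x
    exact ⟨Ideal.Quotient.mk _ x, rfl⟩
  · intro x
    obtain ⟨x, rfl⟩ := Ideal.Quotient.mk_surjective x
    rw [LinearMap.restrictScalars_apply, hπ, Ideal.Quotient.eq_zero_iff_mem]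
    constructor
    · intro hx
      rw [← hsup, Ideal.mem_span_singleton_sup] at hx
      obtain ⟨y, z, hz, rfl⟩ := hx
      refine ⟨Ideal.Quotient.mk _ y, ?_⟩
      rw [LinearMap.restrictScalars_apply, hi, Ideal.Quotient.eq]
      simpa [mul_comm] using hz
    · rintro ⟨y, hy⟩
      obtain ⟨y, rfl⟩ := Ideal.Quotient.mk_surjective y
      rw [LinearMap.restrictScalars_apply, hi, Ideal.Quotient.eq] at hy
      have := sub_mem (I.mul_mem_right y hbI) (hlt.le hy)
      simpa using this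
  · intro g x
    obtain ⟨x, rfl⟩ := Ideal.Quotient.mk_surjective x
    simp only [coeff_mapRingHom, LinearMap.restrictScalars_apply, hi, actQ_mk, mul_left_comm]
  · intro g x
    obtain ⟨x, rfl⟩ := Ideal.Quotient.mk_surjective x
    simp only [coeff_mapRingHom, LinearMap.restrictScalars_apply, hπ, actQ_mk]

lemma isMult_DD (ω : MonoidAlgebra R G) : IsMult (DD k ω) := by
  refine ⟨DD_top k ω, fun I J hI hJ => ?_⟩
  induction I using UniqueFactorizationMonoid.induction_on_prime with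
  | h₁ => exact absurd rfl hI
  | h₂ I hu => rw [Ideal.isUnit_iff.1 hu, Ideal.top_mul, DD_top, one_mul]
  | h₃ I P hI' hP ih =>
    rw [mul_assoc, DD_mul_prime k ω (mul_ne_zero hI' hJ) hP.ne_zero (Ideal.isPrime_of_prime hP),
      DD_mul_prime k ω hI' hP.ne_zero (Ideal.isPrime_of_prime hP), ih hI', mul_assoc]

end DD

namespace Filt

variable {k R K : Type*} [Field k] [Finite k] [CommRing R] [IsDedekindDomain R] [Infinite R]
  [Ring.HasFiniteQuotients R] [Field K] [Algebra k K] [Algebra R K] [Algebra k R]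
  [IsScalarTower k R K] [IsFractionRing R K] (F : Filt k R K)
  {G : Type*} [CommGroup G] [Fintype G]

lemma exists_act {a : R} (ha : a ≠ 0) (U : Submodule k R)
    (hU : ∀ x, x ∈ U ↔ algebraMap R K x / algebraMap R K a ∈ F.Λ (-1)) :
    FiniteDimensional k U ∧ ∃ ρ : R →+* Module.End k U,
      (∀ (r : R) (x z : U), ρ r x = z ↔ a ∣ (z : R) - r * x) ∧
      ∀ ω : MonoidAlgebra R G, DD k ω (Ideal.span {a}) = gdet (mapRingHom G ρ ω) := by
  have ha' : algebraMap R K a ≠ 0 := by simpa using ha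
  have := finiteDimensional_quot k (I := Ideal.span {a}) (by simpa using ha)
  let e : U ≃ₗ[k] R ⧸ Ideal.span {a} := LinearEquiv.ofBijective
    ((Ideal.Quotient.mkₐ k (Ideal.span {a})).toLinearMap.domRestrict U) ⟨by
      rw [injective_iff_map_eq_zero]
      rintro ⟨x, hx⟩ h
      have h' : x ∈ Ideal.span {a} := Ideal.Quotient.eq_zero_iff_mem.1 h
      obtain ⟨y, rfl⟩ := Ideal.mem_span_singleton.1 h'
      rw [hU, map_mul, mul_div_cancel_left₀ _ ha'] at hx
      simp [F.disj y hx], by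
      intro x
      obtain ⟨x, rfl⟩ := Ideal.Quotient.mk_surjective x
      obtain ⟨y, hy⟩ := F.decomp (algebraMap R K x / algebraMap R K a)
      refine ⟨⟨x - a * y, ?_⟩, ?_⟩
      · rw [hU, map_sub, map_mul, sub_div, mul_div_cancel_left₀ _ ha']
        exact hy
      · exact Ideal.Quotient.eq.2 (by simp [Ideal.mem_span_singleton])⟩
  have he : ∀ x : U, e x = Ideal.Quotient.mk _ (x : R) := fun x => rfl
  have hfin : FiniteDimensional k U := Module.Finite.equiv e.symm
  refine ⟨hfin, (e.symm.conjRingEquiv).toRingHom.comp (actQ k _), fun r x z => ?_, fun ω => ?_⟩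
  · change e.symm (actQ k _ r (e x)) = z ↔ _
    rw [LinearEquiv.symm_apply_eq, he, he, actQ_mk, eq_comm, Ideal.Quotient.eq,
      Ideal.mem_span_singleton]
  · refine gdet_equiv e _ _ fun g x => ?_
    rw [coeff_mapRingHom, coeff_mapRingHom]
    exact (e.apply_symm_apply _).symm

theorem exists_DD_eq {ω ω' : MonoidAlgebra R G} (hω : ω * ω' = 1) :
    ∃ M : ℤ, (F.κ : ℤ) < M ∧ ∀ (a a' : R) (u : K), a ≠ 0 → F.Near M u →
      algebraMap R K a' = u * algebraMap R K a →
      DD k ω (Ideal.span {a}) = DD k ω (Ideal.span {a'}) := by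
  classical
  obtain ⟨c, hc⟩ : ∃ c : ℕ, ∀ g, (∀ j x, x ∈ F.Λ j → algebraMap R K (ω.coeff g) * x ∈ F.Λ (j + c)) ∧
      (∀ j x, x ∈ F.Λ j → algebraMap R K (ω'.coeff g) * x ∈ F.Λ (j + c)) := by
    choose j₁ hj₁ using fun g => F.exhaust (algebraMap R K (ω.coeff g))
    choose j₂ hj₂ using fun g => F.exhaust (algebraMap R K (ω'.coeff g))
    obtain ⟨N₁, hN₁⟩ := (Set.finite_range j₁).bddAbove
    obtain ⟨N₂, hN₂⟩ := (Set.finite_range j₂).bddAbove
    refine ⟨(max N₁ N₂).toNat + F.κ, fun g => ⟨fun j x hx => ?_, fun j x hx => ?_⟩⟩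
    · have := hN₁ ⟨g, rfl⟩
      exact F.mono (by push_cast; omega) (F.mul_mem (hj₁ g) hx)
    · have := hN₂ ⟨g, rfl⟩
      exact F.mono (by push_cast; omega) (F.mul_mem (hj₂ g) hx)
  refine ⟨3 * c + F.κ + 1, by omega, fun a a' u ha hu haa' => ?_⟩
  have hM : (F.κ : ℤ) < 3 * c + F.κ + 1 := by omega
  have ha0 : algebraMap R K a ≠ 0 := by simpa using ha
  have hu0 := hu.ne_zero hM
  have ha' : a' ≠ 0 := by
    rintro rfl
    rw [map_zero, eq_comm] at haa'
    exact mul_ne_zero hu0 ha0 haa'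
  let dv : R →ₗ[k] K :=
    LinearMap.mulRight k (algebraMap R K a)⁻¹ ∘ₗ (IsScalarTower.toAlgHom k R K).toLinearMap
  have hdv : ∀ x, dv x = algebraMap R K x / algebraMap R K a := fun x => (div_eq_mul_inv _ _).symm
  have hdvm : ∀ r x, dv (r * x) = algebraMap R K r * dv x := fun r x => by
    rw [hdv, hdv, map_mul, mul_div_assoc]
  let U : Submodule k R := (F.Λ (-1)).comap dv
  have hU : ∀ x, x ∈ U ↔ dv x ∈ F.Λ (-1) := fun x => Iff.rfl
  obtain ⟨hfin, ρ, hρ, hD⟩ := F.exists_act (G := G) ha U fun x => by rw [hU, hdv]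
  obtain ⟨-, ρ', hρ', hD'⟩ := F.exists_act (G := G) ha' U fun x => by
    rw [hU, hdv, haa']
    have : algebraMap R K x / algebraMap R K a =
        u * (algebraMap R K x / (u * algebraMap R K a)) := by field_simp
    rw [this]
    exact ⟨hu.mem_of_mul_mem hM, hu.mul_mem hM⟩
  have fa : ∀ r : R, (∀ j x, x ∈ F.Λ j → algebraMap R K r * x ∈ F.Λ (j + c)) →
      ∀ (j : ℤ) (x : U), dv x ∈ F.Λ j → dv (ρ r x : U) ∈ F.Λ (j + c) := by
    intro r hr j x hx
    by_cases hj : -1 ≤ j + c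
    · exact F.mono hj (ρ r x).2
    · have h1 : dv (r * x) ∈ F.Λ (j + c) := by rw [hdvm]; exact hr _ _ hx
      have h2 : ρ r x = ⟨r * x, F.mono (by omega) h1⟩ := (hρ _ _ _).2 (by simp)
      rw [h2]
      exact h1
  have fb : ∀ r : R, (∀ j x, x ∈ F.Λ j → algebraMap R K r * x ∈ F.Λ (j + c)) →
      ∀ x : U, dv x ∈ F.Λ (-1 - c) → ρ' r x - ρ r x = 0 := by
    intro r hr x hx
    have h1 : dv (r * x) ∈ F.Λ (-1) := by
      rw [hdvm]
      simpa using hr _ _ hx
    rw [(hρ r x ⟨r * x, h1⟩).2 (by simp), (hρ' r x ⟨r * x, h1⟩).2 (by simp), sub_self]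
  have fc : ∀ r : R, (∀ j x, x ∈ F.Λ j → algebraMap R K r * x ∈ F.Λ (j + c)) →
      ∀ x : U, dv (ρ' r x - ρ r x : U) ∈ F.Λ (-1 - 2 * c) := by
    intro r hr x
    obtain ⟨y, hy⟩ := (hρ r x _).1 rfl
    have h1 : algebraMap R K y ∈ F.Λ (-1 + c) := by
      have : algebraMap R K y = dv (ρ r x : U) - dv (r * x) := by
        rw [← map_sub, hy, hdv, map_mul, mul_div_cancel_left₀ _ ha0]
      rw [this, hdvm]
      exact sub_mem (F.mono (by omega) (ρ r x).2) (hr _ _ x.2)
    have h2 : dv ((a' - a) * y) ∈ F.Λ (-1 - 2 * c) := by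
      have : dv ((a' - a) * y) = (u - 1) * algebraMap R K y := by
        rw [hdv, map_mul, map_sub, haa']
        field_simp
      rw [this]
      exact F.mono (by omega) (hu.sub_one_mul h1)
    have h3 : (a' - a) * y ∈ U := F.mono (by omega) h2
    have h4 : ρ' r x = ρ r x + ⟨_, h3⟩ := (hρ' _ _ _).2 ⟨y, by
      rw [Submodule.coe_add]
      linear_combination hy⟩
    rw [h4, add_sub_cancel_left]
    exact h2
  rw [hD, hD']
  set T := mapRingHom G ρ ω
  set S := mapRingHom G ρ ω'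
  set T' := mapRingHom G ρ' ω
  have hTS : T * S = 1 := by rw [← map_mul, hω, map_one]
  let E : MonoidAlgebra (Module.End k U) G :=
    .ofCoeff (Finsupp.equivFunOnFinite.symm fun g => ρ' (ω.coeff g) - ρ (ω.coeff g))
  have hE : ∀ g x, E.coeff g x = ρ' (ω.coeff g) x - ρ (ω.coeff g) x := fun g x => rfl
  have hT' : T' = T * (1 + S * E) := by
    rw [mul_add, ← mul_assoc, hTS, mul_one, one_mul]
    ext g x
    rw [coeff_add, Finsupp.add_apply, LinearMap.add_apply, hE, coeff_mapRingHom, coeff_mapRingHom,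
      add_sub_cancel]
  rw [hT', gdet_mul, gdet_unip _ ((F.Λ (-1 - c)).comap (dv ∘ₗ U.subtype)), mul_one]
  · intro g x
    rw [coeff_mul_fintype, LinearMap.sum_apply]
    refine Submodule.sum_mem _ fun h _ => ?_
    rw [Module.End.mul_apply, hE, coeff_mapRingHom]
    have := fa _ (hc h).2 _ _ (fc _ (hc (h⁻¹ * g)).1 x)
    rw [show -1 - 2 * (c : ℤ) + c = -1 - c by ring] at this
    exact this
  · intro g x hx
    rw [coeff_mul_fintype, LinearMap.sum_apply]
    refine Finset.sum_eq_zero fun h _ => ?_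
    rw [Module.End.mul_apply, hE, fb _ (hc _).1 x hx, map_zero]

theorem exists_rel_eq {ω ω' : MonoidAlgebra R G} (hω : ω * ω' = 1) {a : Ideal R → G}
    (ha : IsMult a) (hD : ∀ I, I ≠ ⊥ → DD k ω I = of k G (a I)) :
    ∃ M : ℤ, (F.κ : ℤ) < M ∧ ∀ I J : Ideal R, I ≠ ⊥ → F.Rel M I J → a I = a J := by
  obtain ⟨M, hM, h⟩ := F.exists_DD_eq hω
  refine ⟨M, hM, fun I J hI hIJ => ?_⟩
  have hJ := hIJ.ne_bot hM hI
  obtain ⟨t, htI, ht⟩ := Submodule.exists_mem_ne_zero_of_ne_bot hI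
  obtain ⟨C, hC⟩ : I ∣ Ideal.span {t} := Ideal.dvd_iff_le.2 (by simpa using htI)
  have hC0 : C ≠ ⊥ := by
    rintro rfl
    rw [Ideal.mul_bot, Ideal.span_singleton_eq_bot] at hC
    exact ht hC
  obtain ⟨u, hu, hIJ⟩ := (rel_mul_iff hC0).2 hIJ
  rw [← hC, FractionalIdeal.coeIdeal_span_singleton,
    FractionalIdeal.spanSingleton_mul_spanSingleton] at hIJ
  obtain ⟨t', -, ht'⟩ := (FractionalIdeal.mem_coeIdeal R⁰).1
    (hIJ ▸ FractionalIdeal.mem_spanSingleton_self R⁰ (u * algebraMap R K t))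
  rw [← ht', ← FractionalIdeal.coeIdeal_span_singleton, FractionalIdeal.coeIdeal_inj] at hIJ
  have h1 := h t t' u ht hu ht'
  rw [← hIJ, hC, hD _ (mul_ne_zero hI hC0), hD _ (mul_ne_zero hJ hC0), ha.mul _ _ hI hC0,
    ha.mul _ _ hJ hC0] at h1
  exact mul_right_cancel (of_injective h1)

end Filt

end Pool.Agent.MP_51ecca_nt
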