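import Pool.Agent.MP_51ecca_nt.Zeta

set_option linter.unusedSectionVars false

namespace Pool.Agent.MP_51ecca_nt

open IsDedekindDomain IntermediateField Polynomial

section Layer

variable {k K : Type} (K' : Type) [Field k] [Finite k] [Field K] [Algebra k K] [Field K']
  [Algebra K K'] [Algebra k K'] [IsScalarTower k K K'] {h : K} (R : Type) [CommRing R]
  [Algebra R K] [Algebra k R] [IsScalarTower k R K] [IsIntegralClosure R (Algebra.adjoin k {h}) K]
  [Algebra R K'] [IsScalarTower R K K'] [IsScalarTower k R K']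

lemma IsChart.isModel_map [FiniteDimensional K K'] [Algebra.IsSeparable K K'] (hh : IsChart k h) :
    IsModel k (integralClosure R K') (algebraMap K K' h) :=
  have := isIntegralClosure_map K' h R (integralClosure R K') (k := k)
  (hh.map K').isModel _

omit [Finite k] [IsIntegralClosure R (Algebra.adjoin k {h}) K] [IsScalarTower k R K']
  [Algebra k K] [Algebra k K'] [IsScalarTower k K K'] [Algebra k R] [IsScalarTower k R K] in
lemma smulCommClass_of_isGaloisGroup (G : Type*) [Group G] [MulSemiringAction G K']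
    [IsGaloisGroup G K K'] : SMulCommClass G R K' :=
  ⟨fun g r x => by
    rw [← IsScalarTower.algebraMap_smul K r, ← IsScalarTower.algebraMap_smul K r,
      (IsGaloisGroup.commutes (G := G) (A := K) (B := K')).smul_comm]⟩

omit [Finite k] [IsIntegralClosure R (Algebra.adjoin k {h}) K] [IsScalarTower k R K']
  [Algebra k K] [Algebra k K'] [IsScalarTower k K K'] [Algebra k R] [IsScalarTower k R K] in
lemma faithfulSMul_integralClosure [IsFractionRing R K] :
    FaithfulSMul R (integralClosure R K') := by
  rw [faithfulSMul_iff_algebraMap_injective]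
  intro x y hxy
  have := congrArg (algebraMap (integralClosure R K') K') hxy
  rw [← IsScalarTower.algebraMap_apply, ← IsScalarTower.algebraMap_apply,
    IsScalarTower.algebraMap_apply R K K', IsScalarTower.algebraMap_apply R K K'] at this
  exact IsFractionRing.injective R K ((algebraMap K K').injective this)

end Layer

theorem IsChart.exists_not_dvd {k K : Type} [Field k] [Finite k] [Field K] [Algebra k K] {h : K}
    (hh : IsChart k h) (hgeom : algebraicClosure k K = ⊥) (R : Type) [CommRing R]
    [Algebra R K] [Algebra k R] [IsScalarTower k R K]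
    [IsIntegralClosure R (Algebra.adjoin k {h}) K] {l : ℕ} (hl : l.Prime) :
    ∃ v : HeightOneSpectrum R, ¬ l ∣ pdeg k v := by
  by_contra! hdvd
  have hM := hh.isModel R
  have := hM.ded
  have := hM.frac
  have := hM.finq
  have := hM.inf
  let := Fintype.ofFinite k
  obtain ⟨p, hchar, n, hp, hq⟩ := FiniteField.card' k
  have := Fact.mk hp
  rw [← Nat.card_eq_fintype_card] at hq
  have : CharP K p := charP_of_injective_algebraMap (algebraMap k K).injective p
  set q := Nat.card k with hqdef
  have hq1 : 1 < q := one_lt_card k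
  let f : K[X] := X ^ q ^ l - X
  have hsep : f.Separable := galois_poly_separable p _
    (dvd_pow (hq ▸ dvd_pow_self p n.ne_zero) hl.ne_zero)
  have hf0 : f ≠ 0 := FiniteField.X_pow_card_pow_sub_X_ne_zero K hl.ne_zero hq1
  have hfd : f.natDegree = q ^ l := FiniteField.X_pow_card_pow_sub_X_natDegree_eq K hl.ne_zero hq1
  let K' := f.SplittingField
  have : CharP K' p := charP_of_injective_algebraMap (algebraMap K K').injective p
  have : IsGalois K K' := IsGalois.of_separable_splitting_field hsep
  have : IsScalarTower k R K' := .of_algebraMap_eq fun c => by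
    rw [IsScalarTower.algebraMap_apply k K K', IsScalarTower.algebraMap_apply R K K',
      ← IsScalarTower.algebraMap_apply k R K]
  have hroot : ∀ a : K', a ∈ f.rootSet K' ↔ a ^ q ^ l = a := fun a => by
    rw [mem_rootSet_of_ne hf0]
    simp [f, sub_eq_zero]
  let G := K' ≃ₐ[K] K'
  have := smulCommClass_of_isGaloisGroup (K := K) K' R G
  have := faithfulSMul_integralClosure (K := K) K' R
  let B := integralClosure R K'
  have hM' : IsModel k B _ := hh.isModel_map K' R
  have := hM'.ded
  have := hM'.frac
  have := hM'.finq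
  have := hM'.inf
  have : IsGaloisGroup G R B := IsGaloisGroup.of_isFractionRing G R B K K'
  have key : ∀ (σ : G) (w : HeightOneSpectrum B),
      (∀ a : B, a ^ q ^ l = a → σ • a - a ∈ w.asIdeal) → σ = 1 := by
    intro σ w hσ
    apply AlgEquiv.coe_toAlgHom_injective
    refine AlgHom.ext_of_adjoin_eq_top (IsSplittingField.adjoin_rootSet K' f) fun a ha => ?_
    rw [hroot] at ha
    have hi : IsIntegral R a := by
      refine ⟨X ^ q ^ l - X, monic_X_pow_sub ?_, by simp [ha]⟩
      rw [degree_X]
      exact_mod_cast Nat.one_lt_pow hl.ne_zero hq1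
    have h1 := hσ ⟨a, hi⟩ (Subtype.ext ha)
    set b : B := σ • (⟨a, hi⟩ : B) - ⟨a, hi⟩ with hb
    have h2 : b ^ q ^ l = b := by
      apply Subtype.ext
      change (σ a - a) ^ q ^ l = σ a - a
      rw [hq, ← pow_mul, sub_pow_char_pow, pow_mul, ← hq, ← map_pow, ha]
    have h3 : b = 0 := by
      by_contra hb0
      obtain ⟨m, hm⟩ : ∃ m, q ^ l = m + 2 :=
        ⟨q ^ l - 2, by have := Nat.one_lt_pow hl.ne_zero hq1; omega⟩
      rw [hm, pow_succ, mul_left_eq_self₀, or_iff_left hb0] at h2
      exact w.isPrime.ne_top ((Ideal.eq_top_iff_one _).2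
        (h2 ▸ Ideal.pow_mem_of_mem _ h1 _ (Nat.succ_pos m)))
    exact sub_eq_zero.1 (congrArg Subtype.val h3)
  have hin : ∀ w : HeightOneSpectrum B, w.asIdeal.inertia G = ⊥ := fun w =>
    eq_bot_iff.2 fun σ hσ => key σ w fun a _ => hσ a
  have hG : 1 < Nat.card G := by
    rw [Finite.one_lt_card_iff_nontrivial]
    by_contra hG
    rw [not_nontrivial_iff_subsingleton] at hG
    have h1 : f.rootSet K' ⊆ Set.range (algebraMap k K') := by
      intro a ha
      rw [hroot] at ha
      obtain ⟨b, rfl⟩ := (IsGaloisGroup.isInvariant (G := G) (A := K) (B := K')).isInvariant a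
        fun g => by rw [Subsingleton.elim g 1, one_smul]
      have hb : b ∈ algebraicClosure k K := by
        rw [mem_algebraicClosure_iff]
        refine ⟨X ^ q ^ l - X, FiniteField.X_pow_card_pow_sub_X_ne_zero k hl.ne_zero hq1, ?_⟩
        apply (algebraMap K K').injective
        simp [ha]
      rw [hgeom, IntermediateField.mem_bot] at hb
      obtain ⟨c, rfl⟩ := hb
      exact ⟨c, IsScalarTower.algebraMap_apply k K K' c⟩
    have h2 := Set.ncard_le_ncard h1 (Set.finite_range _)
    rw [Set.ncard_range_of_injective (algebraMap k K').injective, ← Nat.card_coe_set_eq,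
      Nat.card_eq_fintype_card, card_rootSet_eq_natDegree hsep (SplittingField.splits f), hfd]
      at h2
    exact absurd h2 (not_le.2 (lt_self_pow₀ hq1 hl.one_lt))
  obtain ⟨F, -⟩ := hM.filt
  obtain ⟨F', -⟩ := hM'.filt
  refine not_finite_nonsplit k F F' hin hG ∅ fun w _ => ?_
  have := w.isPrime
  have := Ring.HasFiniteQuotients.finiteQuotient w.ne_bot
  obtain ⟨σ, hσ⟩ := IsArithFrobAt.exists_of_isInvariant R G w.asIdeal
  have h1 : σ = 1 := key σ w fun a ha => by
    have h2 := hσ a
    obtain ⟨m, hm⟩ := hdvd (w.under R)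
    have h3 : Nat.card (R ⧸ w.asIdeal.under R) = (q ^ l) ^ m := by
      rw [← pow_mul, ← hm]
      exact card_quot_eq k (w.under R).ne_bot
    have h4 : ∀ m, a ^ (q ^ l) ^ m = a := fun m => by
      induction m with
      | zero => simp
      | succ m ih => rw [pow_succ, pow_mul, ih, ha]
    rwa [h3, h4] at h2
  rwa [h1] at hσ

theorem IsChart.exists_poly_lser_one {k K : Type} [Field k] [Finite k] [Field K] [Algebra k K]
    {h : K} (hh : IsChart k h) (hgeom : algebraicClosure k K = ⊥) (R : Type) [CommRing R]
    [Algebra R K] [Algebra k R] [IsScalarTower k R K]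
    [IsIntegralClosure R (Algebra.adjoin k {h}) K] [Ring.HasFiniteQuotients R] :
    ∃ Q : ℚ[X], (Q : PowerSeries ℚ) =
      (1 - (Nat.card k : PowerSeries ℚ) * PowerSeries.X) * lser k fun _ : Ideal R => (1 : ℚ) := by
  have hM := hh.isModel R
  have := hM.ded
  have := hM.frac
  have := hM.inf
  obtain ⟨F, -⟩ := hM.filt
  obtain ⟨Q, hQ⟩ := one_sub_mem_of_forall_prime (denIdeal (lser k fun _ : Ideal R => (1 : ℚ)))
    (C (Nat.card k : ℚ) * X) fun l hl => by
      obtain ⟨v, hv⟩ := hh.exists_not_dvd hgeom R hl
      obtain ⟨Q, hQ, -⟩ := F.exists_poly_zeta v.ne_bot (pdeg_pos k v)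
      refine ⟨_, hv, Q, ?_⟩
      rw [hQ, mul_pow, ← map_pow, Polynomial.coe_sub, Polynomial.coe_one, Polynomial.coe_mul,
        Polynomial.coe_C, Polynomial.coe_pow, Polynomial.coe_X, pdeg]
  refine ⟨Q, ?_⟩
  rw [hQ, Polynomial.coe_sub, Polynomial.coe_one, Polynomial.coe_mul, Polynomial.coe_C,
    Polynomial.coe_X, map_natCast]

theorem IsChart.exists_poly_zetaSeries (p : ℕ) [Fact p.Prime] {k K : Type} [Field k] [Finite k]
    [CharP k p] [Field K] [Algebra k K] {h : K} (hh : IsChart k h)
    (hgeom : algebraicClosure k K = ⊥) :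
    ∃ P : ℚ[X], (P : PowerSeries ℚ) = (1 - PowerSeries.X) *
      (1 - (Nat.card k : PowerSeries ℚ) * PowerSeries.X) * zetaSeries k K := by
  obtain ⟨Q, hQ⟩ := one_sub_mem_of_forall_prime
    (denIdeal ((1 - (Nat.card k : PowerSeries ℚ) * PowerSeries.X) * zetaSeries k K))
    X fun l hl => by
      have hM := hh.isModel (Rg k h)
      have := hM.ded
      have := hM.frac
      have := hM.finq
      obtain ⟨v, hv⟩ := hh.exists_not_dvd hgeom (Rg k h) hl
      obtain ⟨h', hh', h1⟩ := hh.exists_single_pole p (plc k K v)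
      have hM' := hh'.isModel (Rg k h')
      have := hM'.ded
      have := hM'.frac
      have := hM'.finq
      have := hM'.inf
      obtain ⟨Pl, h2, h3, -, -, h4⟩ := zeta_mul_eq hh' hM'
      have h5 : Pl = {plc k K v} := h3.subset_singleton_iff.1 fun y hy => by
        rw [Finset.mem_singleton]
        by_contra hne
        exact (h2 y).1 hy (h1 y hne)
      obtain ⟨Q, hQ⟩ := hh'.exists_poly_lser_one hgeom (Rg k h')
      rw [h5, Finset.prod_singleton, degree_plc] at h4
      exact ⟨_, hv, Q, by rw [hQ, ← h4]; ring⟩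
  exact ⟨Q, by simp [hQ, mul_assoc]⟩

end Pool.Agent.MP_51ecca_nt
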