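import Pool.Agent.MP_51ecca_nt.Chart2

set_option linter.unusedSectionVars false

namespace Pool.Agent.MP_51ecca_nt

open IsDedekindDomain IntermediateField PowerSeries
open scoped PowerSeries.WithPiTopology

variable {k K : Type} [Field k] [Finite k] [Field K] [Algebra k K]

theorem zeta_mul_eq {h : K} (hh : IsChart k h) {R : Type*} [CommRing R] [Algebra R K]
    [Algebra k R] [IsScalarTower k R K] [IsDedekindDomain R] [IsFractionRing R K]
    [Ring.HasFiniteQuotients R] [Infinite R] (hM : IsModel k R h) :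
    ∃ Pl : Finset (Place k K), (∀ O, O ∈ Pl ↔ h ∉ O.1) ∧ Pl.Nonempty ∧
      (∀ O : Place k K, 0 < O.degree) ∧ ∑ O ∈ Pl, O.degree ≤ Module.finrank k⟮h⟯ K ∧
      zetaSeries k K * ((∏ O ∈ Pl, (1 - Polynomial.X ^ O.degree) : Polynomial ℚ) : ℚ⟦X⟧) =
        lser k fun _ : Ideal R => (1 : ℚ) := by
  obtain ⟨Pl, h1, h2, h3, h4⟩ := hh.exists_poles
  have hrange : ∀ x, x ∉ Pl ↔ x ∈ Set.range (plc k K (R := R)) := fun x => by
    rw [h1, not_not, hM.mem_iff]
    refine ⟨exists_plc_eq x, ?_⟩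
    rintro ⟨v, rfl⟩
    exact algebraMap_mem_plc v
  have hpos : ∀ O : Place k K, 0 < O.degree := fun O => by
    by_cases hO : O ∈ Pl
    · exact h3 O hO
    · obtain ⟨v, rfl⟩ := (hrange O).1 hO
      rw [degree_plc]
      exact pdeg_pos k v
  have hfin : ∀ d, {O : Place k K | O.degree ≤ d}.Finite := fun d => by
    refine (Pl.finite_toSet.union ((finite_pdeg_le k (R := R) d).image (plc k K))).subset ?_
    intro O hO
    by_cases hO' : O ∈ Pl
    · exact Or.inl hO'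
    · obtain ⟨v, rfl⟩ := (hrange O).1 hO'
      exact Or.inr ⟨v, by rwa [Set.mem_ofPred_eq, degree_plc] at hO, rfl⟩
  refine ⟨Pl, h1, h2, hpos, h4, ?_⟩
  have h5 := isEuler_of_injective hpos (plc_injective (k := k) (K := K) (R := R)) Pl hrange
    (f := lser k fun _ : Ideal R => (1 : ℚ)) (by
      simp_rw [degree_plc]
      exact isEuler_lser k IsMult.one)
  have h6 : ((∏ O ∈ Pl, (1 - Polynomial.X ^ O.degree) : Polynomial ℚ) : ℚ⟦X⟧) =
      ∏ O ∈ Pl, (1 - X ^ O.degree) := by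
    rw [← Polynomial.coeToPowerSeries.ringHom_apply, map_prod]
    simp
  rw [zetaSeries, (hasProd_of_isEuler hpos hfin h5).tprod_eq, h6, mul_assoc,
    PowerSeries.inv_mul_cancel, mul_one]
  rw [← h6, constantCoeff_prod_one_sub _ hpos]
  exact one_ne_zero

/-- The ideal of polynomials that make a power series polynomial. -/
def denIdeal (W : ℚ⟦X⟧) : Ideal (Polynomial ℚ) where
  carrier := {f | ∃ Q : Polynomial ℚ, (Q : ℚ⟦X⟧) = f * W}
  add_mem' := by
    rintro f g ⟨Q, hQ⟩ ⟨Q', hQ'⟩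
    exact ⟨Q + Q', by rw [Polynomial.coe_add, Polynomial.coe_add, hQ, hQ', add_mul]⟩
  zero_mem' := ⟨0, by simp⟩
  smul_mem' := by
    rintro c f ⟨Q, hQ⟩
    exact ⟨c * Q, by rw [smul_eq_mul, Polynomial.coe_mul, Polynomial.coe_mul, hQ, mul_assoc]⟩

lemma one_sub_mem_of_forall_prime {A : Type*} [CommRing A] (I : Ideal A) (y : A)
    (h : ∀ l : ℕ, l.Prime → ∃ d, ¬ l ∣ d ∧ 1 - y ^ d ∈ I) : 1 - y ∈ I := by
  have h1 : orderOf (Ideal.Quotient.mk I y) = 1 := by
    by_contra hne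
    obtain ⟨l, hl, hld⟩ := Nat.exists_prime_and_dvd hne
    obtain ⟨d, hd, hd'⟩ := h l hl
    rw [← Ideal.Quotient.eq, map_one, map_pow] at hd'
    exact hd (hld.trans (orderOf_dvd_of_pow_eq_one hd'.symm))
  rw [orderOf_eq_one_iff] at h1
  rw [← Ideal.Quotient.eq, map_one, h1]

end Pool.Agent.MP_51ecca_nt
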